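import Mathlib

/-! Twisting by squares of primes `3 mod 4` and a complete descent on `y ^ 2 = x ^ 3 + t x`. -/

open Finset NumberTheorySymbols

namespace Pool.Agent.Lib.MP_90cf6f_nt.Den

/-- `b` has a Selmer element that no prime of `P` detects -/
def AlgBad (P : Finset ℕ) (b : ℕ) : Prop :=
  ∃ d e : ℕ, ∃ k m : ℤ, d * e = b ∧ 1 < d ∧ ((k, m) = (1, 2) ∨ (k, m) = (1, -2) ∨ (k, m) = (-1, 2)) ∧
    (∀ p : ℕ, p.Prime → p ∣ d → jacobiSym (m * e) p = 1) ∧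
    (∀ p : ℕ, p.Prime → p ∣ e → jacobiSym (k * d) p = 1) ∧
    ∀ q ∈ P, jacobiSym (k * d) q = 1 ∨ jacobiSym (m * e) q = 1

lemma alg_gcd {p : ℕ} (hp : p.Prime) {a : ℤ} (ha : ¬ (p : ℤ) ∣ a) : a.gcd p = 1 :=
  Int.isCoprime_iff_gcd_eq_one.1 ((Nat.prime_iff_prime_int.1 hp).coprime_iff_not_dvd.2 ha).symm

lemma alg_of_sq {k m : ℤ} {p : ℕ} (h : J(k ^ 2 * m | p) = 1) : J(m | p) = 1 := by
  rw [jacobiSym.mul_left, jacobiSym.pow_left] at h
  rcases jacobiSym.trichotomy k p with h1 | h1 | h1 <;> rw [h1] at h <;> simp_all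

lemma alg_sq_mul {k m : ℤ} {p : ℕ} (hp : p.Prime) (hk : ¬ (p : ℤ) ∣ k) :
    J(k ^ 2 * m | p) = J(m | p) := by
  rw [jacobiSym.mul_left, jacobiSym.sq_one' (alg_gcd hp hk), one_mul]

lemma alg_one {p : ℕ} (hp : p.Prime) {a w u : ℤ} (h : (p : ℤ) ∣ w ^ 2 - a * u ^ 2)
    (ha : ¬ (p : ℤ) ∣ a) (hu : ¬ (p : ℤ) ∣ u) : J(a | p) = 1 := by
  have h1 : J(w ^ 2 | p) = J(u ^ 2 * a | p) :=
    jacobiSym.mod_left' (Int.modEq_iff_dvd.2 (by rwa [mul_comm (u ^ 2)])).symm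
  rw [alg_sq_mul hp hu, jacobiSym.pow_left] at h1
  rcases jacobiSym.eq_one_or_neg_one (alg_gcd hp ha) with h2 | h2
  · exact h2
  · nlinarith [sq_nonneg J(w | p)]

lemma alg_all {m : ℤ} {n : ℕ} (h : ∀ p : ℕ, p.Prime → p ∣ n → J(m | p) = 1) : J(m | n) = 1 := by
  induction n using Nat.recOnMul with
  | zero => exact jacobiSym.zero_right m
  | one => exact jacobiSym.one_right m
  | prime p hp => exact h p hp dvd_rfl
  | mul a b ha hb =>
    rcases Nat.eq_zero_or_pos a with rfl | a0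
    · simp [jacobiSym.zero_right]
    rcases Nat.eq_zero_or_pos b with rfl | b0
    · simp [jacobiSym.zero_right]
    rw [jacobiSym.mul_right' m a0.ne' b0.ne', ha fun p hp h' => h p hp (h'.mul_right b),
      hb fun p hp h' => h p hp (h'.mul_left a), one_mul]

lemma alg_pair {a c : ℕ} (ha : Odd a) (hc : Odd c) (h : a.Coprime c) :
    J((a : ℤ) | c) * J((c : ℤ) | a) = if a % 4 = 3 ∧ c % 4 = 3 then -1 else 1 := by
  have h1 : J((c : ℤ) | a) ^ 2 = 1 := jacobiSym.sq_one (by simpa using h.symm)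
  have := Nat.odd_iff.1 ha
  have := Nat.odd_iff.1 hc
  split_ifs with h2
  · rw [jacobiSym.quadratic_reciprocity_three_mod_four h2.1 h2.2]
    linarith
  · rcases (by omega : a % 4 = 1 ∨ c % 4 = 1) with h3 | h3
    · rw [jacobiSym.quadratic_reciprocity_one_mod_four h3 hc]; linarith
    · rw [jacobiSym.quadratic_reciprocity_one_mod_four' ha h3]; linarith

lemma alg_neg {a : ℕ} (ha : Odd a) : J(-1 | a) = if a % 4 = 3 then -1 else 1 := by
  have := Nat.odd_iff.1 ha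
  rw [jacobiSym.at_neg_one ha]
  split_ifs with h
  · exact ZMod.χ₄_nat_three_mod_four h
  · exact ZMod.χ₄_nat_one_mod_four (by omega)

/-- the product formula -/
lemma alg_core {h a : ℕ} {z : ℤ} (hh : Odd h) (ha : Odd a) (h1 : h.Coprime a)
    (h2 : h.Coprime z.natAbs) (h3 : a.Coprime z.natAbs) (h4 : (h * z) % 4 = 1) :
    J(h * z | a) * J(h * a | z.natAbs) * J(-(a * z) | h) = 1 := by
  obtain ⟨c, hc | hc⟩ := Int.eq_nat_or_neg z
  all_goals
    subst hc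
    simp only [Int.natAbs_neg, Int.natAbs_natCast] at h2 h3 ⊢
    have hc : Odd c := by
      rw [← Nat.not_even_iff_odd]
      rintro ⟨k, rfl⟩
      push_cast at h4
      first
        | (rw [show (h : ℤ) * (k + k) = 2 * (h * k) by ring] at h4; omega)
        | (rw [show (h : ℤ) * -(k + k) = 2 * -(h * k) by ring] at h4; omega)
    have e1 := alg_pair hh ha h1
    have e2 := alg_pair hh hc h2
    have e3 := alg_pair ha hc h3
    have e4 := alg_neg ha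
    have e5 := alg_neg hh
    have o1 := Nat.odd_iff.1 hh
    have o2 := Nat.odd_iff.1 ha
    have o3 := Nat.odd_iff.1 hc
  · have h5 : h % 4 = c % 4 := by
      have h6 : (h * c) % 4 = 1 := by exact_mod_cast h4
      rw [Nat.mul_mod] at h6
      rcases (by omega : h % 4 = 1 ∨ h % 4 = 3) with k | k <;>
        rcases (by omega : c % 4 = 1 ∨ c % 4 = 3) with k' | k' <;> simp_all
    rw [show -((a : ℤ) * c) = -1 * (a * c) by ring]
    simp only [jacobiSym.mul_left]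
    calc _ = (J((h : ℤ) | a) * J((a : ℤ) | h)) * (J((h : ℤ) | c) * J((c : ℤ) | h)) *
          (J((a : ℤ) | c) * J((c : ℤ) | a)) * J(-1 | h) := by ring
      _ = 1 := by
        rw [e1, e2, e3, e5, ← h5]
        by_cases k : h % 4 = 3 <;> by_cases k' : a % 4 = 3 <;> simp [k, k']
  · have h5 : h % 4 = 3 ↔ ¬ c % 4 = 3 := by
      have h6 : (h * c) % 4 = 3 := by
        have : ((h * c : ℕ) : ℤ) % 4 = 3 := by push_cast; rw [mul_neg] at h4; omega
        exact_mod_cast this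
      rw [Nat.mul_mod] at h6
      rcases (by omega : h % 4 = 1 ∨ h % 4 = 3) with k | k <;>
        rcases (by omega : c % 4 = 1 ∨ c % 4 = 3) with k' | k' <;> simp_all
    rw [show -((a : ℤ) * -c) = a * c by ring, show (h : ℤ) * -c = -1 * (h * c) by ring]
    simp only [jacobiSym.mul_left]
    calc _ = (J((h : ℤ) | a) * J((a : ℤ) | h)) * (J((h : ℤ) | c) * J((c : ℤ) | h)) *
          (J((a : ℤ) | c) * J((c : ℤ) | a)) * J(-1 | a) := by ring
      _ = 1 := by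
        rw [e1, e2, e3, e4]
        by_cases k : c % 4 = 3 <;> by_cases k' : a % 4 = 3 <;> simp_all

/-- one of the two numbers is positive and odd, the other is `1 mod 4` -/
def Adm (d z : ℤ) : Prop := (0 < d ∧ Odd d ∧ z % 4 = 1) ∨ (0 < z ∧ Odd z ∧ d % 4 = 1)

lemma alg_pos {h : ℕ} {d : ℤ} (a : 0 < h * d) : 0 < d := by
  by_contra k
  nlinarith [Int.natCast_nonneg h]

lemma alg_core' {h : ℕ} {d z : ℤ} (A : Adm (h * d) (h * z)) (h1 : h.Coprime d.natAbs)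
    (h2 : h.Coprime z.natAbs) (h3 : d.natAbs.Coprime z.natAbs) :
    J(h * z | d.natAbs) * J(h * d | z.natAbs) * J(-(d * z) | h) = 1 := by
  rcases A with ⟨a1, a2, a3⟩ | ⟨a1, a2, a3⟩
  · obtain ⟨a, rfl⟩ := Int.eq_ofNat_of_zero_le
      (alg_pos a1).le
    rw [Int.odd_mul, Int.odd_coe_nat, Int.odd_coe_nat] at a2
    exact alg_core a2.1 a2.2 h1 h2 h3 a3
  · obtain ⟨a, rfl⟩ := Int.eq_ofNat_of_zero_le
      (alg_pos a1).le
    rw [Int.odd_mul, Int.odd_coe_nat, Int.odd_coe_nat] at a2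
    have := alg_core a2.1 a2.2 h2 h1 h3.symm a3
    rw [mul_comm d, mul_comm J(h * a | _)]
    exact this

lemma alg_cop {h : ℕ} {d : ℤ} (hd : Squarefree (h * d)) : h.Coprime d.natAbs := by
  have := Int.squarefree_natAbs.2 hd
  rw [Int.natAbs_mul, Int.natAbs_natCast] at this
  exact Nat.coprime_of_squarefree_mul this

/-- a single nontrivial local symbol is impossible -/
lemma alg_recip {d z : ℤ} (A : Adm d z) (hd : Squarefree d) (hz : Squarefree z) {q : ℕ}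
    (hq : q.Prime) (hqd : (q : ℤ) ∣ d) (hqz : J(z | q) = -1)
    (h1 : ∀ p : ℕ, p.Prime → p ≠ q → (p : ℤ) ∣ d → ¬ (p : ℤ) ∣ z → J(z | p) = 1)
    (h2 : ∀ p : ℕ, p.Prime → (p : ℤ) ∣ z → ¬ (p : ℤ) ∣ d → J(d | p) = 1)
    (h3 : ∀ p : ℕ, p.Prime → ∀ d' z' : ℤ, d = p * d' → z = p * z' → J(-(d' * z') | p) = 1) :
    False := by
  obtain ⟨h, d, z, h0, hc, rfl, rfl⟩ : ∃ (h : ℕ) (d' z' : ℤ), 0 < h ∧ Int.gcd d' z' = 1 ∧
      d = h * d' ∧ z = h * z' := by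
    obtain ⟨g, d', z', g0, g1, g2, g3⟩ :=
      Int.exists_gcd_one' (Int.gcd_pos_of_ne_zero_left z hd.ne_zero)
    exact ⟨g, d', z', g0, g1, by rw [g2, mul_comm], by rw [g3, mul_comm]⟩
  have c1 := alg_cop hd
  have c2 := alg_cop hz
  have key := alg_core' A c1 c2 hc
  have nd : ∀ {p a b : ℕ}, p.Prime → a.Coprime b → p ∣ a → ¬ p ∣ b := fun hp hab ha hb =>
    hp.one_lt.ne' (Nat.eq_one_of_dvd_coprimes hab ha hb)
  have k2 : J(h * d | z.natAbs) = 1 := alg_all fun p hp hpz =>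
    h2 p hp ((Int.natCast_dvd.2 hpz).mul_left _) fun k => by
      rcases (Nat.prime_iff_prime_int.1 hp).dvd_or_dvd k with k | k
      · exact nd hp c2 (Int.natCast_dvd_natCast.1 k) hpz
      · exact nd hp hc (Int.natCast_dvd.1 k) hpz
  have k3 : J(-(d * z) | h) = 1 := alg_all fun p hp hph => by
    obtain ⟨h', rfl⟩ := hph
    have := h3 p hp (h' * d) (h' * z) (by push_cast; ring) (by push_cast; ring)
    rw [show -((h' : ℤ) * d * (h' * z)) = h' ^ 2 * -(d * z) by ring] at this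
    exact alg_of_sq this
  have hq1 : ¬ (q : ℤ) ∣ h * z := fun k => by
    rw [jacobiSym.mod_left, Int.emod_eq_zero_of_dvd k, jacobiSym.zero_left hq.one_lt] at hqz
    omega
  have hq2 : q ∣ d.natAbs := Int.natCast_dvd.1
    (((Nat.prime_iff_prime_int.1 hq).dvd_or_dvd hqd).resolve_left fun k => hq1 (k.mul_right _))
  obtain ⟨a, ha⟩ := hq2
  have sq : Squarefree (q * a) := ha ▸ Int.squarefree_natAbs.2 hd.of_mul_right
  have k1 : J(h * z | a) = 1 := alg_all fun p hp hpa => by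
    have hpd : p ∣ d.natAbs := ha ▸ hpa.mul_left q
    refine h1 p hp (fun k => nd hp (Nat.coprime_of_squarefree_mul sq) (k ▸ dvd_rfl) hpa)
      ((Int.natCast_dvd.2 hpd).mul_left _) fun k => ?_
    rcases (Nat.prime_iff_prime_int.1 hp).dvd_or_dvd k with k | k
    · exact nd hp c1 (Int.natCast_dvd_natCast.1 k) hpd
    · exact nd hp hc hpd (Int.natCast_dvd.1 k)
  rw [k2, k3, ha, jacobiSym.mul_right' _ hq.ne_zero sq.of_mul_right.ne_zero, hqz, k1] at key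
  omega

/-- the local conditions at the primes of `b` -/
def Loc (b : ℕ) (s z : ℤ) : Prop :=
  ∀ p : ℕ, p.Prime → ∀ b' : ℤ, b = p * b' →
    (¬ (p : ℤ) ∣ z → J(z | p) = 1) ∧ ∀ z' : ℤ, z = p * z' → J(s * 2 * b' * z' | p) = 1

/-- the condition at infinity or at two -/
def Sg (s z : ℤ) : Prop := (s = 1 ∧ 0 < z) ∨ (s = -1 ∧ z % 4 = 1)

lemma alg_L1 {p : ℕ} (hp : p.Prime) {d e u v w : ℤ} (huv : IsCoprime u v)
    (h : w ^ 2 = d * u ^ 4 + e * v ^ 4) (hd : ¬ (p : ℤ) ∣ d) (he : (p : ℤ) ∣ e)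
    (he2 : ¬ (p : ℤ) ^ 2 ∣ e) : J(d | p) = 1 := by
  have pp := Nat.prime_iff_prime_int.1 hp
  have hu : ¬ (p : ℤ) ∣ u := by
    rintro ⟨k, rfl⟩
    have hv : ¬ (p : ℤ) ∣ v := fun k' => pp.not_isUnit (huv.isUnit_of_dvd' (dvd_mul_right _ _) k')
    obtain ⟨w', rfl⟩ : (p : ℤ) ∣ w := pp.dvd_of_dvd_pow (n := 2) (by
      rw [h]
      exact dvd_add ⟨d * p ^ 3 * k ^ 4, by ring⟩ (he.mul_right _))
    refine he2 (IsCoprime.dvd_of_dvd_mul_right (z := v ^ 4)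
      (pp.coprime_iff_not_dvd.2 hv).pow ⟨w' ^ 2 - d * p ^ 2 * k ^ 4, by linarith⟩)
  exact alg_one hp (w := w) (u := u ^ 2) (by
    rw [h, show d * u ^ 4 + e * v ^ 4 - d * (u ^ 2) ^ 2 = e * v ^ 4 by ring]
    exact he.mul_right _) hd fun k => hu (pp.dvd_of_dvd_pow k)

lemma alg_L3 {p : ℕ} (hp : p.Prime) {d e u v w : ℤ} (huv : IsCoprime u v)
    (h : w ^ 2 = p * d * u ^ 4 + p * e * v ^ 4) (hd : ¬ (p : ℤ) ∣ d * e) : J(-(d * e) | p) = 1 := by
  have pp := Nat.prime_iff_prime_int.1 hp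
  obtain ⟨w', rfl⟩ : (p : ℤ) ∣ w :=
    pp.dvd_of_dvd_pow (n := 2) ⟨d * u ^ 4 + e * v ^ 4, by linarith⟩
  have h1 : d * u ^ 4 + e * v ^ 4 = p * w' ^ 2 := mul_left_cancel₀ pp.ne_zero (by linarith)
  have hv : ¬ (p : ℤ) ∣ v := by
    rintro ⟨k, rfl⟩
    have : (p : ℤ) ∣ d * u ^ 4 := ⟨w' ^ 2 - e * p ^ 3 * k ^ 4, by linarith⟩
    rcases pp.dvd_or_dvd this with k' | k'
    · exact hd (k'.mul_right _)
    · exact pp.not_isUnit (huv.isUnit_of_dvd' (pp.dvd_of_dvd_pow k') (dvd_mul_right _ _))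
  exact alg_one hp (w := d * u ^ 2) (u := v ^ 2) ⟨d * w' ^ 2, by linear_combination d * h1⟩
    (by rwa [dvd_neg]) fun k => hv (pp.dvd_of_dvd_pow k)

lemma alg_L4 {p : ℕ} (hp : p.Prime) {d e u v w : ℤ} (huv : IsCoprime u v)
    (h : w ^ 2 = d * u ^ 4 + p ^ 2 * e * v ^ 4) (hd : ¬ (p : ℤ) ∣ d * e) (hj : J(d * e | p) = 1) :
    J(d | p) = 1 := by
  have pp := Nat.prime_iff_prime_int.1 hp
  by_cases hu : (p : ℤ) ∣ u
  · obtain ⟨k, rfl⟩ := hu
    have hv : ¬ (p : ℤ) ∣ v := fun k' => pp.not_isUnit (huv.isUnit_of_dvd' (dvd_mul_right _ _) k')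
    obtain ⟨w', rfl⟩ : (p : ℤ) ∣ w :=
      pp.dvd_of_dvd_pow (n := 2) ⟨d * p ^ 3 * k ^ 4 + p * e * v ^ 4, by linarith⟩
    have h1 : w' ^ 2 = d * p ^ 2 * k ^ 4 + e * v ^ 4 :=
      mul_left_cancel₀ (pow_ne_zero 2 pp.ne_zero) (by linarith)
    have := alg_one hp (a := e) (w := w') (u := v ^ 2) ⟨d * p * k ^ 4, by linarith⟩
      (fun k' => hd (k'.mul_left _)) fun k' => hv (pp.dvd_of_dvd_pow k')
    rwa [jacobiSym.mul_left, this, mul_one] at hj
  · exact alg_one hp (w := w) (u := u ^ 2) ⟨p * e * v ^ 4, by linarith⟩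
      (fun k' => hd (k'.mul_right _)) fun k' => hu (pp.dvd_of_dvd_pow k')

lemma alg_odd {a b : ℤ} (h : Odd b) (k : a ∣ b) : Odd a := by
  obtain ⟨c, rfl⟩ := k
  exact (Int.odd_mul.1 h).1

lemma alg_two {p : ℕ} (hp : p.Prime) (ho : Odd p) {s : ℤ} (hs : s = 1 ∨ s = -1) :
    ¬ (p : ℤ) ∣ s * 2 := fun k => by
  have h1 : p ∣ 2 := by
    rcases hs with rfl | rfl <;> simpa using Int.natCast_dvd.1 k
  rw [(Nat.prime_dvd_prime_iff_eq hp Nat.prime_two).1 h1] at ho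
  exact absurd ho (by decide)

/-- the Selmer group of the twist is trivial -/
lemma alg_sel {b : ℕ} (hb : Squarefree b) (ho : Odd b) {s R : ℤ} {Sa Sr : Finset ℕ}
    (ha : ∀ q ∈ Sa, q.Prime ∧ q % 4 = 3 ∧ ¬ q ∣ b ∧ J(s * 2 * b | q) = 1 ∧
      ∃ R', R = q * R' ∧ ¬ (q : ℤ) ∣ R')
    (hr : ∀ q ∈ Sr, ¬ q ∣ b ∧ ∃ z : ℤ, z ∣ b ∧ Sg (-s) z ∧ Loc b (-s) z ∧ J(z | q) = -1 ∧
      ∀ q' ∈ Sr, q' ≠ q → J(z | q') ≠ -1)
    (hR : ∀ p : ℕ, p.Prime → (p : ℤ) ∣ R → p = 2 ∨ p ∈ Sa ∨ p ∈ Sr)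
    (hdet : ∀ z : ℤ, z ∣ b → Sg s z → Loc b s z → z ≠ 1 → ∃ q ∈ Sa, J(z | q) = -1)
    {d e u v w : ℤ} (hd : Squarefree d) (hdo : Odd d) (hs : Sg s d)
    (hde : d * e = s * 2 * b * R ^ 2) (huv : IsCoprime u v)
    (h : w ^ 2 = d * u ^ 4 + e * v ^ 4) : d = 1 := by
  have hs1 : s = 1 ∨ s = -1 := hs.imp And.left And.left
  have l1 : Loc b s d := by
    intro p hp b' hb'
    have pp := Nat.prime_iff_prime_int.1 hp
    have hpb : p ∣ b := Int.natCast_dvd_natCast.1 ⟨b', hb'⟩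
    have po : Odd p := ho.of_dvd_nat hpb
    have n1 : ¬ (p : ℤ) ∣ b' := by
      rintro ⟨k, rfl⟩
      exact pp.not_isUnit (Int.squarefree_natCast.2 hb p ⟨k, by rw [hb']; ring⟩)
    have n2 : ¬ (p : ℤ) ∣ R := fun k => by
      rcases hR p hp k with rfl | k | k
      · exact absurd po (by decide)
      · exact (ha p k).2.2.1 hpb
      · exact (hr p k).1 hpb
    have n3 : ¬ (p : ℤ) ∣ s * 2 * b' * R ^ 2 := fun k => by
      rcases pp.dvd_or_dvd k with k | k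
      · exact (pp.dvd_or_dvd k).elim (alg_two hp po hs1) n1
      · exact n2 (pp.dvd_of_dvd_pow k)
    rw [hb'] at hde
    refine ⟨fun hpd => alg_L1 hp huv h hpd ?_ ?_, fun d' hd' => ?_⟩
    · exact (pp.dvd_or_dvd (⟨s * 2 * b' * R ^ 2, by linarith⟩ : (p : ℤ) ∣ d * e)).resolve_left hpd
    · rintro ⟨k, rfl⟩
      exact n3 ⟨d * k, mul_left_cancel₀ pp.ne_zero (by linarith)⟩
    · have e1 : d' * e = s * 2 * b' * R ^ 2 :=
        mul_left_cancel₀ pp.ne_zero (by rw [hd'] at hde; linarith)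
      have e2 : J(e | p) = 1 := alg_L1 hp huv.symm (h.trans (add_comm _ _))
        (fun k => n3 (e1 ▸ k.mul_left _)) ⟨d', hd'⟩ fun k => pp.not_isUnit (hd p (by rwa [← sq]))
      refine alg_of_sq (k := R) ?_
      rw [show R ^ 2 * (s * 2 * b' * d') = d' ^ 2 * e by linear_combination -d' * e1,
        alg_sq_mul hp fun k => n3 (e1 ▸ k.mul_right _), e2]
  have l2 : ∀ q ∈ Sa, ¬ (q : ℤ) ∣ d ∧ J(d | q) = 1 := by
    intro q hq
    obtain ⟨hp, h3, hqb, hj, R', rfl, hR'⟩ := ha q hq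
    have pp := Nat.prime_iff_prime_int.1 hp
    have po : Odd q := Nat.odd_iff.2 (by omega)
    have n3 : ¬ (q : ℤ) ∣ R' ^ 2 * (s * 2 * b) := fun k => by
      rcases pp.dvd_or_dvd k with k | k
      · exact hR' (pp.dvd_of_dvd_pow k)
      · exact (pp.dvd_or_dvd k).elim (alg_two hp po hs1) fun k => hqb (Int.natCast_dvd_natCast.1 k)
    have j3 : J(R' ^ 2 * (s * 2 * b) | q) = 1 := by rw [alg_sq_mul hp hR', hj]
    have n4 : ¬ (q : ℤ) ∣ d := by
      rintro ⟨d', rfl⟩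
      have n5 : ¬ (q : ℤ) ∣ d' := by
        rintro ⟨k, rfl⟩
        exact pp.not_isUnit (hd q ⟨k, by ring⟩)
      have e1 : d' * e = q * (R' ^ 2 * (s * 2 * b)) := mul_left_cancel₀ pp.ne_zero (by linarith)
      obtain ⟨e', rfl⟩ := (pp.dvd_or_dvd (⟨_, e1⟩ : (q : ℤ) ∣ d' * e)).resolve_left n5
      have e2 : d' * e' = R' ^ 2 * (s * 2 * b) := mul_left_cancel₀ pp.ne_zero (by linarith)
      have := alg_L3 hp huv h (e2 ▸ n3)
      rw [e2, jacobiSym.neg _ po, j3, ZMod.χ₄_nat_three_mod_four h3] at this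
      omega
    obtain ⟨e', rfl⟩ : (q : ℤ) ^ 2 ∣ e := IsCoprime.dvd_of_dvd_mul_left (y := d)
      (pp.coprime_iff_not_dvd.2 n4).pow_left ⟨R' ^ 2 * (s * 2 * b), by linarith⟩
    have e2 : d * e' = R' ^ 2 * (s * 2 * b) :=
      mul_left_cancel₀ (pow_ne_zero 2 pp.ne_zero) (by linarith)
    exact ⟨n4, alg_L4 hp huv h (e2 ▸ n3) (e2 ▸ j3)⟩
  have l0 : ∀ p : ℕ, p.Prime → (p : ℤ) ∣ d → p ∣ b ∨ p ∈ Sr := by
    intro p hp hpd
    have pp := Nat.prime_iff_prime_int.1 hp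
    have po : Odd p := Int.odd_coe_nat p |>.1 (alg_odd hdo hpd)
    rcases pp.dvd_or_dvd (hde ▸ hpd.mul_right e) with k | k
    · exact Or.inl (Int.natCast_dvd_natCast.1
        ((pp.dvd_or_dvd k).resolve_left (alg_two hp po hs1)))
    · rcases hR p hp (pp.dvd_of_dvd_pow k) with rfl | k | k
      · exact absurd po (by decide)
      · exact absurd hpd (l2 p k).1
      · exact Or.inr k
  have l3 : ∀ q ∈ Sr, q.Prime → ¬ (q : ℤ) ∣ d := by
    intro q hq hp hqd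
    obtain ⟨-, z, z1, z2, z3, z4, z5⟩ := hr q hq
    have zo : Odd z := alg_odd ((Int.odd_coe_nat b).2 ho) z1
    refine alg_recip (d := d) (z := z) ?_ hd ((Int.squarefree_natCast.2 hb).squarefree_of_dvd z1)
      hp hqd z4 (fun p hp hpq hpd hpz => ?_) (fun p hp hpz hpd => ?_) fun p hp d' z' hd' hz' => ?_
    · rcases hs with ⟨rfl, k⟩ | ⟨rfl, k⟩ <;> rcases z2 with ⟨k1, k2⟩ | ⟨k1, k2⟩
      · omega
      · exact Or.inl ⟨k, hdo, k2⟩
      · exact Or.inr ⟨k2, zo, k⟩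
      · omega
    · rcases l0 p hp hpd with k | k
      · obtain ⟨b', hb'⟩ := Int.natCast_dvd_natCast.2 k
        exact (z3 p hp b' hb').1 hpz
      · exact (jacobiSym.eq_one_or_neg_one (alg_gcd hp hpz)).resolve_right (z5 p k hpq)
    · obtain ⟨b', hb'⟩ := hpz.trans z1
      exact (l1 p hp b' hb').1 hpd
    · obtain ⟨b', hb'⟩ := (Dvd.intro _ hz'.symm).trans z1
      refine alg_of_sq (k := s * 2 * b') ?_
      rw [show (s * 2 * b') ^ 2 * -(d' * z') = (s * 2 * b' * d') * (-s * 2 * b' * z') by ring,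
        jacobiSym.mul_left, (l1 p hp b' hb').2 d' hd', (z3 p hp b' hb').2 z' hz', one_mul]
  have l4 : d ∣ b := by
    rw [← Int.natAbs_dvd, Int.natCast_dvd_natCast,
      ← Nat.prod_primeFactors_of_squarefree (Int.squarefree_natAbs.2 hd)]
    refine Finset.prod_primes_dvd _ (fun p hp => (Nat.prime_of_mem_primeFactors hp).prime)
      fun p hp => ?_
    have h1 := Nat.prime_of_mem_primeFactors hp
    have h2 : (p : ℤ) ∣ d := Int.natCast_dvd.2 (Nat.dvd_of_mem_primeFactors hp)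
    exact (l0 p h1 h2).resolve_right fun k => l3 p k h1 h2
  by_contra k
  obtain ⟨q, hq, hj⟩ := hdet d l4 hs l1 k
  rw [(l2 q hq).2] at hj
  omega

lemma alg_min (V : ℤ → Prop) (r : ℤ → ℕ → Prop) (P : Finset ℕ) (h : ∀ z, V z → ∃ q ∈ P, r z q) :
    ∃ S ⊆ P, (∀ z, V z → ∃ q ∈ S, r z q) ∧
      ∀ q ∈ S, ∃ z, V z ∧ r z q ∧ ∀ q' ∈ S, q' ≠ q → ¬ r z q' := by
  induction P using Finset.strongInduction with
  | H P ih =>
    by_cases k : ∀ q ∈ P, ∃ z, V z ∧ r z q ∧ ∀ q' ∈ P, q' ≠ q → ¬ r z q'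
    · exact ⟨P, Subset.rfl, h, k⟩
    · push Not at k
      obtain ⟨q, hq, k⟩ := k
      obtain ⟨S, h1, h2⟩ := ih (P.erase q) (Finset.erase_ssubset hq) fun z hz => by
        obtain ⟨q', h3, h4⟩ := h z hz
        by_cases e : q' = q
        · obtain ⟨q'', h5, h6, h7⟩ := k z hz (e ▸ h4)
          exact ⟨q'', mem_erase.2 ⟨h6, h5⟩, h7⟩
        · exact ⟨q', mem_erase.2 ⟨e, h3⟩, h4⟩
      exact ⟨S, h1.trans (Finset.erase_subset _ _), h2⟩

lemma alg_det {b : ℕ} (hb : Squarefree b) (ho : Odd b) {P : Finset ℕ}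
    (hP : ∀ q ∈ P, q.Prime ∧ q % 4 = 3 ∧ ¬ q ∣ b) (h : ¬ AlgBad P b) (s z : ℤ)
    (hz : z ∣ b ∧ Sg s z ∧ Loc b s z ∧ z ≠ 1) :
    ∃ q ∈ P.filter (fun q => J(s * 2 * b | q) = 1), J(z | q) = -1 := by
  obtain ⟨h1, h2, h3, h4⟩ := hz
  by_contra hn
  push Not at hn
  obtain ⟨d, k, hk, rfl⟩ : ∃ (d : ℕ) (k : ℤ), (k = 1 ∨ k = -1) ∧ z = k * d := by
    obtain ⟨d, hd | hd⟩ := Int.eq_nat_or_neg z
    · exact ⟨d, 1, Or.inl rfl, by omega⟩
    · exact ⟨d, -1, Or.inr rfl, by omega⟩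
  have hs1 : s = 1 ∨ s = -1 := h2.imp And.left And.left
  have kk : k ^ 2 = 1 := by rcases hk with rfl | rfl <;> norm_num
  obtain ⟨e, rfl⟩ : d ∣ b := Int.natCast_dvd_natCast.1 ((dvd_mul_left _ _).trans h1)
  have d0 : d ≠ 0 := hb.of_mul_left.ne_zero
  refine h ⟨d, e, k, s * k * 2, rfl, ?_, ?_, fun p hp hpd => ?_, fun p hp hpe => ?_, fun q hq => ?_⟩
  · rcases hk with rfl | rfl <;> rcases h2 with ⟨rfl, h2⟩ | ⟨rfl, h2⟩ <;> omega
  · rcases hk with rfl | rfl <;> rcases h2 with ⟨rfl, h2⟩ | ⟨rfl, h2⟩ <;> simp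
    omega
  · obtain ⟨d', rfl⟩ := hpd
    have := (h3 p hp (d' * e) (by push_cast; ring)).2 (k * d') (by push_cast; ring)
    rw [show s * 2 * ((d' : ℤ) * e) * (k * d') = d' ^ 2 * (s * k * 2 * e) by ring] at this
    exact alg_of_sq this
  · obtain ⟨e', rfl⟩ := hpe
    refine (h3 p hp (d * e') (by push_cast; ring)).1 fun k' => ?_
    have : (p : ℤ) ∣ d := by rcases hk with rfl | rfl <;> simpa using k'
    exact hp.one_lt.ne' (Nat.eq_one_of_dvd_coprimes (Nat.coprime_of_squarefree_mul hb)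
      (Int.natCast_dvd_natCast.1 this) (dvd_mul_right _ _))
  · obtain ⟨hp, q3, qb⟩ := hP q hq
    have n1 : ¬ (q : ℤ) ∣ k * d := fun k' => qb (Int.natCast_dvd_natCast.1 (k'.trans h1))
    have n2 : ¬ (q : ℤ) ∣ s * 2 * (d * e : ℕ) := fun k' =>
      ((Nat.prime_iff_prime_int.1 hp).dvd_or_dvd k').elim
        (alg_two hp (Nat.odd_iff.2 (by omega)) hs1) fun k' => qb (Int.natCast_dvd_natCast.1 k')
    refine (jacobiSym.eq_one_or_neg_one (alg_gcd hp n1)).imp_right fun j1 => ?_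
    have j2 := (jacobiSym.eq_one_or_neg_one (alg_gcd hp n2)).resolve_left
      fun j2 => hn q (mem_filter.2 ⟨hq, j2⟩) j1
    rw [show s * 2 * ((d * e : ℕ) : ℤ) = (k * d) * (s * k * 2 * e) by
      push_cast; linear_combination -(s * 2 * d * e) * kk, jacobiSym.mul_left, j1] at j2
    omega

lemma alg_hom {t : ℤ} {x y : ℚ} (hy : y ≠ 0) (h : y ^ 2 = x ^ 3 + t * x) :
    ∃ d e u v w : ℤ, Squarefree d ∧ d * e = t ∧ IsCoprime u v ∧ x = d * ((u : ℚ) / v) ^ 2 ∧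
      w ^ 2 = d * u ^ 4 + e * v ^ 4 := by
  have hx : x ≠ 0 := by
    rintro rfl
    exact hy (by simpa using h)
  obtain ⟨d, r, hd, hr⟩ : ∃ (d : ℤ) (r : ℚ), Squarefree d ∧ x = d * r ^ 2 := by
    have n0 : (x.num * x.den).natAbs ≠ 0 := by simp [hx]
    obtain ⟨a, k, h1, h2⟩ := Nat.sq_mul_squarefree (x.num * x.den).natAbs
    have hd : (x.den : ℚ) ≠ 0 := by simp
    have h3 : ((x.num * x.den : ℤ) : ℚ) = x * x.den ^ 2 := by
      push_cast
      rw [← Rat.mul_den_eq_num]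
      ring
    rcases Int.natAbs_eq (x.num * x.den) with e | e
    · refine ⟨a, k / x.den, Int.squarefree_natCast.2 h2, ?_⟩
      rw [e, ← h1] at h3
      push_cast at h3 ⊢
      field_simp
      linarith
    · refine ⟨-a, k / x.den, Int.squarefree_natAbs.1 (by simpa using h2), ?_⟩
      rw [e, ← h1] at h3
      push_cast at h3 ⊢
      field_simp
      linarith
  obtain ⟨u, v, huv, v0, rfl⟩ : ∃ u v : ℤ, IsCoprime u v ∧ v ≠ 0 ∧ r = u / v :=
    ⟨r.num, r.den, Int.isCoprime_iff_gcd_eq_one.2 r.reduced, by simp,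
      by simpa using (Rat.num_div_den r).symm⟩
  have v1 : (v : ℚ) ≠ 0 := by exact_mod_cast v0
  have u1 : (u : ℚ) ≠ 0 := by
    intro k
    rw [k] at hr
    exact hx (by simpa using hr)
  have h1 : (y * v ^ 3 / u) ^ 2 = ((d * (d ^ 2 * u ^ 4 + t * v ^ 4) : ℤ) : ℚ) := by
    rw [div_pow, mul_pow, h, hr]
    push_cast
    field_simp
  obtain ⟨W, hW⟩ : IsSquare (d * (d ^ 2 * u ^ 4 + t * v ^ 4)) :=
    Rat.isSquare_intCast_iff.1 ⟨_, by rw [← h1, sq]⟩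
  obtain ⟨w, rfl⟩ : d ∣ W := (hd.dvd_pow_iff_dvd two_ne_zero).1 ⟨_, by rw [sq, ← hW]⟩
  have h2 : d ^ 2 * u ^ 4 + t * v ^ 4 = d * w ^ 2 := mul_left_cancel₀ hd.ne_zero (by linarith)
  have h3 : IsCoprime d v := by
    rw [Int.isCoprime_iff_gcd_eq_one]
    by_contra k
    obtain ⟨p, hp, hpd⟩ := Nat.exists_prime_and_dvd k
    have pp := Nat.prime_iff_prime_int.1 hp
    obtain ⟨d', rfl⟩ := (Int.natCast_dvd_natCast.2 hpd).trans (Int.gcd_dvd_left d v)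
    obtain ⟨v', rfl⟩ := (Int.natCast_dvd_natCast.2 hpd).trans (Int.gcd_dvd_right _ v)
    have n1 : ¬ (p : ℤ) ∣ d' := by
      rintro ⟨c, rfl⟩
      exact pp.not_isUnit (hd p ⟨c, by ring⟩)
    have n2 : ¬ (p : ℤ) ∣ u := fun k' => pp.not_isUnit (huv.isUnit_of_dvd' k' (dvd_mul_right _ _))
    have e1 : d' * w ^ 2 = p * (d' ^ 2 * u ^ 4 + t * p ^ 2 * v' ^ 4) :=
      mul_left_cancel₀ pp.ne_zero (by linarith)
    obtain ⟨w', rfl⟩ := pp.dvd_of_dvd_pow ((pp.dvd_or_dvd ⟨_, e1⟩).resolve_left n1)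
    have e2 : d' ^ 2 * u ^ 4 = p * (d' * w' ^ 2 - t * p * v' ^ 4) :=
      mul_left_cancel₀ pp.ne_zero (by linarith)
    exact (pp.dvd_or_dvd ⟨_, e2⟩).elim (fun k' => n1 (pp.dvd_of_dvd_pow k'))
      fun k' => n2 (pp.dvd_of_dvd_pow k')
  obtain ⟨e, rfl⟩ : d ∣ t := IsCoprime.dvd_of_dvd_mul_right (z := v ^ 4) h3.pow_right
    ⟨w ^ 2 - d * u ^ 4, by linarith⟩
  exact ⟨d, e, u, v, w, hd, rfl, huv, hr, mul_left_cancel₀ hd.ne_zero (by linarith)⟩

lemma alg_val_odd {a : ℤ} (h : Odd a) : padicValRat 2 (a : ℚ) = 0 := by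
  rw [padicValRat.of_int, padicValInt.eq_zero_of_not_dvd]
  · rfl
  · exact fun k => Int.not_even_iff_odd.2 h (even_iff_two_dvd.2 k)

lemma alg_val_two : padicValRat 2 (2 : ℚ) = 1 := by
  simpa using padicValRat.self (p := 2) (by norm_num)

lemma alg_odd_of_val {d : ℤ} (hd : Squarefree d) {r : ℚ} (h0 : d * r ^ 2 ≠ 0)
    (h : Even (padicValRat 2 (d * r ^ 2))) : Odd d := by
  rw [← Int.not_even_iff_odd]
  rintro ⟨k, rfl⟩
  have k1 : Odd k := by
    rw [← Int.not_even_iff_odd]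
    rintro ⟨j, rfl⟩
    exact Int.prime_two.not_isUnit (hd 2 ⟨j, by ring⟩)
  have k2 : (k : ℚ) ≠ 0 := by
    rintro k2
    simp [k2] at h0
  rw [padicValRat.mul (left_ne_zero_of_mul h0) (right_ne_zero_of_mul h0), padicValRat.pow,
    show ((k + k : ℤ) : ℚ) = 2 * k by push_cast; ring, padicValRat.mul two_ne_zero k2,
    alg_val_odd k1, alg_val_two, Int.even_iff] at h
  omega

lemma alg_mod_four {d e u v w : ℤ} (hd : Odd d) (he : Odd e) (huv : IsCoprime u v)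
    (h : w ^ 2 = d * u ^ 4 + 8 * e * v ^ 4) : d % 4 = 1 := by
  rcases Int.even_or_odd' u with ⟨k, rfl | rfl⟩
  · have hv : Odd v := by
      rw [← Int.not_even_iff_odd, even_iff_two_dvd]
      exact fun k' => Int.prime_two.not_isUnit (huv.isUnit_of_dvd' (dvd_mul_right _ _) k')
    obtain ⟨w, rfl⟩ : 2 ∣ w :=
      Int.prime_two.dvd_of_dvd_pow (n := 2) ⟨8 * d * k ^ 4 + 4 * e * v ^ 4, by linarith⟩
    obtain ⟨w, rfl⟩ : 2 ∣ w :=
      Int.prime_two.dvd_of_dvd_pow (n := 2) ⟨2 * d * k ^ 4 + e * v ^ 4, by linarith⟩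
    exact absurd (⟨w ^ 2 - d * k ^ 4, by linarith⟩ : Even (e * v ^ 4))
      (Int.not_even_iff_odd.2 (he.mul hv.pow))
  · obtain ⟨j, rfl⟩ := hd
    have h1 : (2 * k + 1) ^ 4 = 4 * (4 * k ^ 4 + 8 * k ^ 3 + 6 * k ^ 2 + 2 * k) + 1 := by ring
    rw [h1] at h
    generalize 4 * k ^ 4 + 8 * k ^ 3 + 6 * k ^ 2 + 2 * k = A at h
    rcases Int.even_or_odd' w with ⟨m, rfl | rfl⟩
    · have : 4 * m ^ 2 = 4 * ((2 * j + 1) * A + 2 * (e * v ^ 4)) + (2 * j + 1) := by linarith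
      omega
    · have : 4 * (m ^ 2 + m) + 1 = 4 * ((2 * j + 1) * A + 2 * (e * v ^ 4)) + (2 * j + 1) := by
        linarith
      omega

/-- the descent -/
lemma alg_desc {t : ℚ} (t0 : t ≠ 0) (tv : padicValRat 2 t = 1)
    (h1 : ∀ x y : ℚ, y ≠ 0 → y ^ 2 = x ^ 3 + t * x → Even (padicValRat 2 x) → IsSquare x)
    (h2 : ∀ x y : ℚ, y ≠ 0 → y ^ 2 = x ^ 3 + -4 * t * x → Even (padicValRat 2 x) → IsSquare x)
    (x y : ℚ) (h : y ^ 2 = x ^ 3 + t * x) : y = 0 := by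
  have x0 : ∀ {x y : ℚ}, y ≠ 0 → y ^ 2 = x ^ 3 + t * x → x ≠ 0 := by
    rintro x y hy h rfl
    exact hy (by simpa using h)
  have v4 : padicValRat 2 (-4 * t) = 3 := by
    rw [show -4 * t = -(2 ^ 2 * t) by ring, padicValRat.neg, padicValRat.mul (by norm_num) t0,
      padicValRat.pow, alg_val_two, tv]
    norm_num
  have step2 : ∀ r y : ℚ, y ≠ 0 → y ^ 2 = (r ^ 2) ^ 3 + t * r ^ 2 →
      Even (padicValRat 2 (2 * r ^ 2 + 2 * y / r)) → ∃ x' y' : ℚ, y' ≠ 0 ∧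
        y' ^ 2 = x' ^ 3 + t * x' ∧
        padicValRat 2 (r ^ 2) = min (padicValRat 2 x') (1 - padicValRat 2 x') - 2 := by
    intro r y hy h he
    have r0 : r ≠ 0 := fun k => x0 hy h (by simp [k])
    have e1 : (2 * r ^ 2 + 2 * y / r) * (2 * r ^ 2 - 2 * y / r) = -4 * t := by
      field_simp
      linear_combination (-4) * h
    generalize 2 * y / r = z at e1 he
    have X0 : 2 * r ^ 2 + z ≠ 0 := fun k => t0 (by rw [k] at e1; linarith)
    obtain ⟨s, hs⟩ := h2 (2 * r ^ 2 + z) (2 * r * (2 * r ^ 2 + z)) (by positivity)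
      (by linear_combination (2 * r ^ 2 + z) * e1) he
    have s0 : s ≠ 0 := fun k => X0 (by simp [hs, k])
    obtain rfl : z = s * s - 2 * r ^ 2 := by linarith
    have e2 : (s ^ 2 + 2 * r * s) / 2 * ((s ^ 2 - 2 * r * s) / 2) = t := by linarith
    have e3 : (s ^ 2 + 2 * r * s) / 2 + (s ^ 2 - 2 * r * s) / 2 = s ^ 2 := by ring
    have e4 : (s ^ 2 + 2 * r * s) / 2 + -((s ^ 2 - 2 * r * s) / 2) = 2 * r * s := by ring
    generalize (s ^ 2 + 2 * r * s) / 2 = A at e2 e3 e4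
    generalize (s ^ 2 - 2 * r * s) / 2 = B at e2 e3 e4
    have A0 : A ≠ 0 := left_ne_zero_of_mul (e2 ▸ t0)
    have B0 : B ≠ 0 := right_ne_zero_of_mul (e2 ▸ t0)
    have w1 := padicValRat.mul (p := 2) A0 B0
    rw [e2, tv] at w1
    have w2 := padicValRat.add_eq_min (p := 2) (q := A) (r := B) (by rw [e3]; positivity) A0 B0
      (by omega)
    have w3 := padicValRat.add_eq_min (p := 2) (q := A) (r := -B) (by rw [e4]; positivity) A0
      (neg_ne_zero.2 B0) (by rw [padicValRat.neg]; omega)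
    rw [e3, padicValRat.pow] at w2
    rw [e4, padicValRat.neg, padicValRat.mul (by positivity) s0, padicValRat.mul two_ne_zero r0,
      alg_val_two] at w3
    refine ⟨A, s * A, by positivity, by rw [← e2]; linear_combination -A ^ 2 * e3, ?_⟩
    rw [padicValRat.pow]
    omega
  have step1 : ∀ x y : ℚ, y ≠ 0 → y ^ 2 = x ^ 3 + t * x → Even (padicValRat 2 x) →
      ∃ x' y' : ℚ, y' ≠ 0 ∧ y' ^ 2 = x' ^ 3 + t * x' ∧
        padicValRat 2 x = min (padicValRat 2 x') (1 - padicValRat 2 x') - 2 := by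
    intro x y hy h he
    obtain ⟨r, rfl⟩ := h1 x y hy h he
    rw [← sq] at h he ⊢
    have r0 : r ≠ 0 := fun k => x0 hy h (by simp [k])
    have e1 : (2 * r ^ 2 + 2 * y / r) * (2 * r ^ 2 + 2 * -y / r) = -4 * t := by
      field_simp
      linear_combination (-4) * h
    have n0 : (2 * r ^ 2 + 2 * y / r) * (2 * r ^ 2 + 2 * -y / r) ≠ 0 := by
      rw [e1]; positivity
    have w1 := padicValRat.mul (p := 2) (left_ne_zero_of_mul n0) (right_ne_zero_of_mul n0)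
    rw [e1, v4] at w1
    by_cases k : Even (padicValRat 2 (2 * r ^ 2 + 2 * y / r))
    · exact step2 r y hy h k
    · refine step2 r (-y) (neg_ne_zero.2 hy) (by rw [neg_sq, h]) ?_
      rw [Int.even_iff] at k ⊢
      omega
  have main : ∀ n : ℕ, ∀ x y : ℚ, y ≠ 0 → y ^ 2 = x ^ 3 + t * x →
      min (padicValRat 2 x) (1 - padicValRat 2 x) ≤ -n := by
    intro n
    induction n with
    | zero => intro x y _ _; omega
    | succ n ih =>
      intro x y hy h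
      have hx := x0 hy h
      by_cases k : Even (padicValRat 2 x)
      · obtain ⟨x', y', a1, a2, a3⟩ := step1 x y hy h k
        have := ih x' y' a1 a2
        omega
      · have w1 : padicValRat 2 (t / x) = 1 - padicValRat 2 x := by rw [padicValRat.div t0 hx, tv]
        obtain ⟨x', y', a1, a2, a3⟩ := step1 (t / x) (t * y / x ^ 2) (by positivity)
          (by field_simp; linear_combination h) (by rw [w1, Int.even_iff] at *; omega)
        have := ih x' y' a1 a2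
        omega
  by_contra hy
  have := main ((min (padicValRat 2 x) (1 - padicValRat 2 x)).natAbs + 1) x y hy h
  omega

theorem alg_main {b : ℕ} (hb : Squarefree b) (ho : Odd b) {P : Finset ℕ}
    (hP : ∀ q ∈ P, q.Prime ∧ q % 4 = 3 ∧ ¬ q ∣ b) (h : ¬ AlgBad P b) :
    ∃ S ⊆ P, ∀ x y : ℚ, y ^ 2 = x ^ 3 + 2 * (b : ℚ) * ((∏ q ∈ S, q : ℕ) : ℚ) ^ 2 * x → y = 0 := by
  obtain ⟨S1, a1, a2, a3⟩ := alg_min _ (fun z q => J(z | q) = -1) _ (alg_det hb ho hP h 1)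
  obtain ⟨S2, b1, b2, b3⟩ := alg_min _ (fun z q => J(z | q) = -1) _ (alg_det hb ho hP h (-1))
  have hS : S1 ∪ S2 ⊆ P := union_subset (a1.trans (filter_subset _ _)) (b1.trans (filter_subset _ _))
  refine ⟨S1 ∪ S2, hS, ?_⟩
  have q1 : ∀ p : ℕ, p.Prime → p ∣ ∏ q ∈ S1 ∪ S2, q → p ∈ S1 ∪ S2 := fun p hp k => by
    obtain ⟨q, hq, k⟩ := hp.prime.exists_mem_finset_dvd k
    rwa [(Nat.prime_dvd_prime_iff_eq hp (hP q (hS hq)).1).1 k]
  have q2 : ∀ p ∈ S1 ∪ S2, ∃ Q : ℕ, ∏ q ∈ S1 ∪ S2, q = p * Q ∧ ¬ p ∣ Q := fun p hp =>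
    ⟨∏ q ∈ (S1 ∪ S2).erase p, q, (Finset.mul_prod_erase _ (fun q => q) hp).symm, fun k => by
      obtain ⟨q, hq, k⟩ := (hP p (hS hp)).1.prime.exists_mem_finset_dvd k
      exact (mem_erase.1 hq).1 ((Nat.prime_dvd_prime_iff_eq (hP p (hS hp)).1
        (hP q (hS (mem_erase.1 hq).2)).1).1 k).symm⟩
  generalize ∏ q ∈ S1 ∪ S2, q = Q at q1 q2
  have Qo : Odd Q := by
    rw [← Nat.not_even_iff_odd, even_iff_two_dvd]
    intro k
    have := (hP 2 (hS (q1 2 Nat.prime_two k))).2.1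
    omega
  have hto : Odd ((b : ℤ) * Q ^ 2) := ((Int.odd_coe_nat b).2 ho).mul ((Int.odd_coe_nat Q).2 Qo).pow
  have t1 : (0 : ℚ) < b * Q ^ 2 := by
    have := ho.pos
    have := Qo.pos
    positivity
  refine alg_desc (by rw [mul_assoc]; positivity) ?_ (fun x y hy e he => ?_) fun x y hy e he => ?_
  · have := alg_val_odd hto
    push_cast at this
    rw [mul_assoc, padicValRat.mul two_ne_zero t1.ne', this, alg_val_two, add_zero]
  · have x0 : 0 < x := by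
      have y0 : 0 < y ^ 2 := by positivity
      by_contra k
      nlinarith [sq_nonneg x, mul_nonneg (neg_nonneg.2 (not_lt.1 k)) (add_nonneg (sq_nonneg x) t1.le)]
    obtain ⟨d, e', u, v, w, c1, c2, c3, rfl, c5⟩ :=
      alg_hom (t := 1 * 2 * b * (Q : ℤ) ^ 2) hy (by rw [e]; push_cast; ring)
    have d0 : (0 : ℚ) < d := pos_of_mul_pos_left x0 (sq_nonneg _)
    suffices k : d = 1 from ⟨u / v, by rw [k]; push_cast; ring⟩
    refine alg_sel hb ho (s := 1) (R := Q) (Sa := S1) (Sr := S2) (fun q hq => ?_)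
      (fun q hq => ?_) (fun p hp k => Or.inr (mem_union.1 (q1 p hp (Int.natCast_dvd_natCast.1 k))))
      (fun z z1 z2 z3 z4 => a2 z ⟨z1, z2, z3, z4⟩) c1 (alg_odd_of_val c1 x0.ne' he)
      (Or.inl ⟨rfl, by exact_mod_cast d0⟩) c2 c3 c5
    · obtain ⟨k1, k2⟩ := mem_filter.1 (a1 hq)
      obtain ⟨Q', rfl, k3⟩ := q2 q (mem_union_left _ hq)
      exact ⟨(hP q k1).1, (hP q k1).2.1, (hP q k1).2.2, k2, Q', by push_cast; rfl,
        fun k => k3 (Int.natCast_dvd_natCast.1 k)⟩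
    · obtain ⟨z, ⟨z1, z2, z3, -⟩, z4, z5⟩ := b3 q hq
      exact ⟨(hP q (mem_filter.1 (b1 hq)).1).2.2, z, z1, z2, z3, z4, z5⟩
  · have x0 : x ≠ 0 := by
      rintro rfl
      exact hy (by simpa using e)
    obtain ⟨d, e', u, v, w, c1, c2, c3, rfl, c5⟩ :=
      alg_hom (t := -1 * 2 * b * (2 * Q : ℤ) ^ 2) hy (by rw [e]; push_cast; ring)
    have d0 := alg_odd_of_val c1 x0 he
    have d1 : d % 4 = 1 := by
      obtain ⟨e'', rfl⟩ : 2 ^ 3 ∣ e' := IsCoprime.dvd_of_dvd_mul_left (y := d)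
        (Int.isCoprime_two_left.2 d0).pow_left ⟨-(b * Q ^ 2), by linarith⟩
      have e2 : d * e'' = -(b * Q ^ 2) := by linarith
      exact alg_mod_four d0 (Int.odd_mul.1 (e2 ▸ hto.neg)).2 c3 (w := w) (by linarith)
    suffices k : d = 1 from ⟨u / v, by rw [k]; push_cast; ring⟩
    refine alg_sel hb ho (s := -1) (R := 2 * Q) (Sa := S2) (Sr := S1) (fun q hq => ?_)
      (fun q hq => ?_) (fun p hp k => ?_) (fun z z1 z2 z3 z4 => b2 z ⟨z1, z2, z3, z4⟩) c1 d0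
      (Or.inr ⟨rfl, d1⟩) c2 c3 c5
    · obtain ⟨k1, k2⟩ := mem_filter.1 (b1 hq)
      obtain ⟨Q', rfl, k3⟩ := q2 q (mem_union_right _ hq)
      obtain ⟨k4, k5, k6⟩ := hP q k1
      refine ⟨k4, k5, k6, k2, 1 * 2 * Q', by push_cast; ring, fun k => ?_⟩
      exact ((Nat.prime_iff_prime_int.1 k4).dvd_or_dvd k).elim
        (alg_two k4 (Nat.odd_iff.2 (by omega)) (Or.inl rfl))
        fun k => k3 (Int.natCast_dvd_natCast.1 k)
    · obtain ⟨z, ⟨z1, z2, z3, -⟩, z4, z5⟩ := a3 q hq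
      exact ⟨(hP q (mem_filter.1 (a1 hq)).1).2.2, z, z1, z2, z3, z4, z5⟩
    · rcases (Nat.prime_iff_prime_int.1 hp).dvd_or_dvd k with k | k
      · exact Or.inl ((Nat.prime_dvd_prime_iff_eq hp Nat.prime_two).1 (by exact_mod_cast k))
      · exact Or.inr (mem_union.1 (q1 p hp (Int.natCast_dvd_natCast.1 k))).symm

end Pool.Agent.Lib.MP_90cf6f_nt.Den
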