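import Pool.Agent.Lib.MP_90cf6f_nt.Den.Sieve

/-!
The bilinear bound.
-/

namespace Pool.Agent.Lib.MP_90cf6f_nt.Den

open Finset

namespace BilAux

open scoped Classical

theorem omega_le (j : ℕ) {k e : ℕ} (hk : k ≠ 0) (he : k ≤ 2 ^ e) :
    j * k.primeFactors.card ≤ j * 2 ^ j + e := by
  have h1 : (k.primeFactors.filter (· < 2 ^ j)).card ≤ 2 ^ j := by
    refine (card_le_card fun p hp => mem_range.2 (mem_filter.1 hp).2).trans (card_range _).le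
  have h2 : (2 ^ j) ^ (k.primeFactors.filter (¬ · < 2 ^ j)).card ≤ 2 ^ e := by
    refine (pow_card_le_prod _ (fun p => p) _ fun p hp => not_lt.1 (mem_filter.1 hp).2).trans ?_
    exact (Nat.le_of_dvd (Nat.pos_of_ne_zero hk)
      ((prod_dvd_prod_of_subset _ _ _ (filter_subset _ _)).trans k.prod_primeFactors_dvd)).trans he
  rw [← pow_mul] at h2
  have h3 := (Nat.pow_le_pow_iff_right (by norm_num : 1 < 2)).1 h2
  rw [← card_filter_add_card_filter_not (s := k.primeFactors) (· < 2 ^ j), mul_add]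
  exact add_le_add (Nat.mul_le_mul_left _ h1) h3

/-- Odd squarefree numbers up to `y`. -/
noncomputable def II (y : ℕ) : Finset ℕ := (Icc 1 y).filter OS

theorem mem_II {y n : ℕ} (h : n ∈ II y) : OS n ∧ n ≤ y :=
  ⟨(mem_filter.1 h).2, (mem_Icc.1 (mem_filter.1 h).1).2⟩

theorem card_II (y : ℕ) : ((II y).card : ℝ) ≤ y := by
  have := card_filter_le (Icc 1 y) OS
  rw [Nat.card_Icc, Nat.add_sub_cancel] at this
  exact_mod_cast this

theorem sum_II {y : ℕ} {α : ℕ → ℝ} (h : ∀ m, α m ≠ 0 → OS m) (f : ℕ → ℝ) :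
    ∑ m ∈ Icc 1 y, α m * f m = ∑ m ∈ II y, α m * f m :=
  (sum_filter_of_ne fun m _ hm => h m (left_ne_zero_of_mul hm)).symm

theorem sum_le_II {y : ℕ} {f : ℕ → ℝ} (h : ∀ n, f n ≤ 1) : ∑ n ∈ II y, f n ≤ y := by
  refine le_trans ?_ (card_II y)
  simpa using sum_le_card_nsmul (II y) f 1 fun n _ => h n

theorem card_fib (y k : ℕ) (hk : k ≠ 0) :
    ((Fintype.piFinset fun _ : Fin 4 => II y).filter fun x => ∏ i, x i = k).card ≤
      2 ^ (4 * k.primeFactors.card) := by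
  have h1 : ((II y).filter (· ∣ k)).card ≤ 2 ^ k.primeFactors.card := by
    rw [← card_powerset]
    refine card_le_card_of_injOn Nat.primeFactors (fun m hm => ?_) fun m hm m' hm' e => ?_
    · exact mem_coe.2 (mem_powerset.2 (Nat.primeFactors_mono (mem_filter.1 hm).2 hk))
    · rw [← Nat.prod_primeFactors_of_squarefree (mem_II (mem_filter.1 hm).1).1.2, e,
        Nat.prod_primeFactors_of_squarefree (mem_II (mem_filter.1 hm').1).1.2]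
  refine (card_le_card (t := Fintype.piFinset fun _ : Fin 4 => (II y).filter (· ∣ k))
    fun x hx => ?_).trans ?_
  · obtain ⟨h2, h3⟩ := mem_filter.1 hx
    exact Fintype.mem_piFinset.2 fun i =>
      mem_filter.2 ⟨Fintype.mem_piFinset.1 h2 i, h3 ▸ dvd_prod_of_mem x (mem_univ i)⟩
  · rw [Fintype.card_piFinset, prod_const, card_univ, Fintype.card_fin, mul_comm, pow_mul]
    exact Nat.pow_le_pow_left h1 4

theorem fourth {M N : ℕ} {α : ℕ → ℝ} (hα : ∀ m, |α m| ≤ 1) {R : ℝ}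
    (hR : ∀ k ∈ Icc 1 (M ^ 4), (2 : ℝ) ^ (4 * k.primeFactors.card) ≤ R) :
    ∑ n ∈ II N, (∑ m ∈ II M, α m * J m n) ^ 4 ≤
      R * ∑ k ∈ Icc 1 (M ^ 4), |∑ n ∈ II N, J k n| := by
  have h1 : ∀ n, (∑ m ∈ II M, α m * J m n) ^ 4 =
      ∑ x ∈ Fintype.piFinset fun _ : Fin 4 => II M, (∏ i, α (x i)) * J (∏ i, x i : ℕ) n := by
    intro n
    have := prod_univ_sum (fun _ : Fin 4 => II M) fun _ m => α m * J m n
    rw [prod_const, card_univ, Fintype.card_fin] at this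
    rw [this]
    refine sum_congr rfl fun x _ => ?_
    simp only [Fin.prod_univ_four, Nat.cast_mul, J_mul_left]
    ring
  have h2 : ∀ x ∈ Fintype.piFinset fun _ : Fin 4 => II M, ∏ i, x i ∈ Icc 1 (M ^ 4) := by
    intro x hx
    have h3 := fun i => mem_II (Fintype.mem_piFinset.1 hx i)
    refine mem_Icc.2 ⟨Nat.pos_of_ne_zero (prod_ne_zero_iff.2 fun i _ => (h3 i).1.ne_zero), ?_⟩
    simpa using prod_le_pow_card univ x M fun i _ => (h3 i).2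
  simp only [h1]
  rw [sum_comm, ← sum_fiberwise_of_maps_to h2, mul_sum]
  refine sum_le_sum fun k hk => ?_
  have h4 : ∀ x ∈ (Fintype.piFinset fun _ : Fin 4 => II M).filter fun x => ∏ i, x i = k,
      ∑ n ∈ II N, (∏ i, α (x i)) * J (∏ i, x i : ℕ) n ≤ |∑ n ∈ II N, J k n| := by
    intro x hx
    rw [(mem_filter.1 hx).2, ← mul_sum]
    refine (le_abs_self _).trans ?_
    rw [abs_mul, abs_prod]
    exact mul_le_of_le_one_left (abs_nonneg _)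
      (prod_le_one (fun _ _ => abs_nonneg _) fun i _ => hα _)
  refine (sum_le_card_nsmul _ _ _ h4).trans ?_
  rw [nsmul_eq_mul]
  refine mul_le_mul_of_nonneg_right (le_trans ?_ (hR k hk)) (abs_nonneg _)
  exact_mod_cast card_fib M k (by have := (mem_Icc.1 hk).1; omega)

theorem mean (Y N : ℕ) (h : N ^ 3 ≤ Y) :
    (∑ k ∈ Icc 1 Y, |∑ n ∈ II N, J k n|) ^ 2 ≤ 2 * (Y : ℝ) ^ 2 * N := by
  have h1 := ls_one (II N) (fun n => n) (fun _ => 1) (fun _ hn => mem_II hn) (fun _ _ _ _ e => e) Y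
  have h2 := sq_sum_le_card_mul_sum_sq (s := Icc 1 Y) (f := fun k : ℕ => |∑ n ∈ II N, J k n|)
  simp only [one_mul, one_pow, abs_one, sum_const, nsmul_eq_mul, mul_one] at h1
  simp only [sq_abs, Nat.card_Icc, Nat.add_sub_cancel] at h2
  have h3 := card_II N
  have h4 : (N : ℝ) ^ 3 ≤ Y := by exact_mod_cast h
  have h5 : (0 : ℝ) ≤ (II N).card := Nat.cast_nonneg _
  have h6 : (0 : ℝ) ≤ Y := Nat.cast_nonneg _
  have h7 : (N : ℝ) ^ 2 * ((II N).card : ℝ) ^ 2 ≤ Y * N :=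
    calc (N : ℝ) ^ 2 * ((II N).card : ℝ) ^ 2 ≤ (N : ℝ) ^ 2 * (N : ℝ) ^ 2 := by gcongr
      _ = (N : ℝ) ^ 3 * N := by ring
      _ ≤ Y * N := by gcongr
  have h8 : (Y : ℝ) * (II N).card ≤ Y * N := by gcongr
  refine h2.trans ((mul_le_mul_of_nonneg_left h1 h6).trans ?_)
  nlinarith

theorem eighth {M N : ℕ} (hNM : N ≤ M) (hM : 1 ≤ M) {α β : ℕ → ℝ} (hα : ∀ m, |α m| ≤ 1)
    (hβ : ∀ n, |β n| ≤ 1) {R : ℝ}
    (hR : ∀ k ∈ Icc 1 (M ^ 4), (2 : ℝ) ^ (4 * k.primeFactors.card) ≤ R) :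
    |∑ n ∈ II N, β n * ∑ m ∈ II M, α m * J m n| ^ 8 ≤ 2 * R ^ 2 * (M : ℝ) ^ 8 * (N : ℝ) ^ 7 := by
  have h1 : |∑ n ∈ II N, β n * ∑ m ∈ II M, α m * J m n| ≤
      ∑ n ∈ II N, |∑ m ∈ II M, α m * J m n| :=
    (abs_sum_le_sum_abs _ _).trans (sum_le_sum fun n _ => by
      rw [abs_mul]; exact mul_le_of_le_one_left (abs_nonneg _) (hβ n))
  have h2 := pow_sum_le_card_mul_sum_pow (s := II N)
    (f := fun n => |∑ m ∈ II M, α m * J m n|) (fun _ _ => abs_nonneg _) 3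
  have e4 : ∀ x : ℝ, |x| ^ (3 + 1) = x ^ 4 := fun x => Even.pow_abs (by decide) x
  simp only [e4] at h2
  have h3 := fourth (N := N) hα hR
  have h4 := mean (M ^ 4) N ((Nat.pow_le_pow_left hNM 3).trans (Nat.pow_le_pow_right hM (by omega)))
  have h5 := card_II N
  have h6 : |∑ n ∈ II N, β n * ∑ m ∈ II M, α m * J m n| ^ 4 ≤
      (N : ℝ) ^ 3 * (R * ∑ k ∈ Icc 1 (M ^ 4), |∑ n ∈ II N, J k n|) := by
    refine (pow_le_pow_left₀ (abs_nonneg _) h1 4).trans (h2.trans ?_)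
    exact mul_le_mul (pow_le_pow_left₀ (Nat.cast_nonneg _) h5 3) h3
      (sum_nonneg fun _ _ => by positivity) (by positivity)
  calc _ = (|∑ n ∈ II N, β n * ∑ m ∈ II M, α m * J m n| ^ 4) ^ 2 := by ring
    _ ≤ ((N : ℝ) ^ 3 * (R * ∑ k ∈ Icc 1 (M ^ 4), |∑ n ∈ II N, J k n|)) ^ 2 := by gcongr
    _ = (N : ℝ) ^ 6 * R ^ 2 * (∑ k ∈ Icc 1 (M ^ 4), |∑ n ∈ II N, J k n|) ^ 2 := by ring
    _ ≤ (N : ℝ) ^ 6 * R ^ 2 * (2 * ((M ^ 4 : ℕ) : ℝ) ^ 2 * N) := by gcongr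
    _ = _ := by push_cast; ring

theorem sqrt_le {a b : ℕ} (h : 12 * b ≤ a) : √2 ^ a * ((2 : ℝ) ^ b) ^ 3 ≤ 2 * Gd a := by
  obtain ⟨u, rfl⟩ : ∃ u, a = 6 * b + u := ⟨a - 6 * b, by omega⟩
  have h1 : 6 * b + u + 1 ≤ 4 * 2 ^ u := by
    have := Nat.lt_two_pow_self (n := u)
    omega
  have h2 : ((6 * b + u : ℕ) : ℝ) + 1 ≤ 4 * 2 ^ u := by exact_mod_cast h1
  have h3 : (0 : ℝ) < ((6 * b + u : ℕ) : ℝ) + 1 := by positivity
  rw [Gd, ← mul_div_assoc, le_div_iff₀ (Real.sqrt_pos.2 h3)]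
  refine abs_le_of_sq_le_sq' ?_ (by positivity) |>.2
  rw [mul_pow, mul_pow, Real.sq_sqrt h3.le, ← pow_mul, mul_comm _ 2, pow_mul,
    Real.sq_sqrt (by norm_num)]
  calc _ ≤ (2 : ℝ) ^ (6 * b + u) * (((2 : ℝ) ^ b) ^ 3) ^ 2 * (4 * 2 ^ u) := by gcongr
    _ = _ := by ring

theorem long {a b : ℕ} (h : 12 * b ≤ a) {α β : ℕ → ℝ} (hα : ∀ m, |α m| ≤ g m)
    (hβ : ∀ n, |β n| ≤ 1) :
    (∑ m ∈ Icc 1 (2 ^ a), α m * ∑ n ∈ II (2 ^ b), β n * J m n) ^ 2 ≤ 80 * Gd a ^ 2 * 2 ^ b := by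
  have h1 := sum_sq_le_sum_mul_sum_of_sq_le_mul (Icc 1 (2 ^ a))
    (r := fun m => α m * ∑ n ∈ II (2 ^ b), β n * J m n) (f := g)
    (g := fun m => g m * (∑ n ∈ II (2 ^ b), β n * J m n) ^ 2) (fun m _ => (g_pos m).le)
    (fun m _ => mul_nonneg (g_pos m).le (sq_nonneg _)) fun m _ => by
      rw [mul_pow, ← mul_assoc, ← sq]
      exact mul_le_mul_of_nonneg_right (sq_le_sq' (abs_le.1 (hα m)).1 (abs_le.1 (hα m)).2)
        (sq_nonneg _)
  have h2 := ls_g (II (2 ^ b)) (fun n => n) β (fun _ hn => mem_II hn) (fun _ _ _ _ e => e) a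
  have h3 : ∑ n ∈ II (2 ^ b), β n ^ 2 ≤ (2 ^ b : ℕ) :=
    sum_le_II fun n => (sq_le_one_iff_abs_le_one _).2 (hβ n)
  have h4 : ∑ n ∈ II (2 ^ b), |β n| ≤ (2 ^ b : ℕ) := sum_le_II hβ
  have h5 := sqrt_le h
  have h6 := Gd_pos a
  push_cast at h2 h3 h4
  have h7 : √2 ^ a * ((2 : ℝ) ^ b) ^ 2 * (∑ n ∈ II (2 ^ b), |β n|) ^ 2 ≤ 2 * Gd a * 2 ^ b :=
    calc _ ≤ √2 ^ a * ((2 : ℝ) ^ b) ^ 2 * ((2 : ℝ) ^ b) ^ 2 := by gcongr
      _ = √2 ^ a * ((2 : ℝ) ^ b) ^ 3 * 2 ^ b := by ring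
      _ ≤ _ := by gcongr
  have h8 : 8 * Gd a * ∑ n ∈ II (2 ^ b), β n ^ 2 ≤ 8 * Gd a * 2 ^ b := by gcongr
  refine h1.trans ((mul_le_mul (sum_g a) (h2.trans (add_le_add h8 h7))
    (sum_nonneg fun m _ => mul_nonneg (g_pos m).le (sq_nonneg _)) (by positivity)).trans ?_)
  exact le_of_eq (by ring)

theorem poly (b : ℕ) : (12 * (b : ℝ)) ^ 4 ≤ 300 ^ 4 * (6 / 5) ^ b := by
  have h1 := one_add_mul_le_pow (show (-2 : ℝ) ≤ 1 / 25 by norm_num) b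
  calc (12 * (b : ℝ)) ^ 4 ≤ (300 * (1 + 1 / 25) ^ b) ^ 4 := by
        gcongr ?_ ^ 4
        linarith
    _ = 300 ^ 4 * ((1 + 1 / 25) ^ 4) ^ b := by rw [mul_pow, ← pow_mul, ← pow_mul, mul_comm b]
    _ ≤ _ := by
        gcongr
        norm_num

theorem half : ∃ C : ℝ, 0 < C ∧ ∀ (a b : ℕ) (α β : ℕ → ℝ), b ≤ a →
    (∀ m, |α m| ≤ g m) → (∀ m, α m ≠ 0 → OS m) → (∀ n, |β n| ≤ g n) → (∀ n, β n ≠ 0 → OS n) →
    |∑ m ∈ Icc 1 (2 ^ a), ∑ n ∈ Icc 1 (2 ^ b), α m * β n * J m n| ≤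
      C * 2 ^ (a + b) * (127 / 128) ^ b / √((a : ℝ) + 1) := by
  obtain ⟨K, hK⟩ : ∃ K : ℕ, ∀ k e : ℕ, k ≠ 0 → k ≤ 2 ^ e →
      768 * k.primeFactors.card ≤ 768 * K + e := ⟨_, fun k e => omega_le 768⟩
  obtain ⟨C, hC9, hC⟩ : ∃ C : ℝ, 9 ≤ C ∧ 2 * (16 ^ K) ^ 2 * 300 ^ 4 ≤ C :=
    ⟨_, le_max_left _ _, le_max_right _ _⟩
  refine ⟨C, by linarith, fun a b α β hab hα hα' hβ hβ' => ?_⟩
  have hα1 := fun m => (hα m).trans (g_le_one m)
  have hβ1 := fun m => (hβ m).trans (g_le_one m)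
  have hs : (0 : ℝ) < (a : ℝ) + 1 := by positivity
  have hC0 : 0 ≤ C := by linarith
  rcases le_or_gt (12 * b) a with h | h
  · have e : ∑ m ∈ Icc 1 (2 ^ a), ∑ n ∈ Icc 1 (2 ^ b), α m * β n * J m n =
        ∑ m ∈ Icc 1 (2 ^ a), α m * ∑ n ∈ II (2 ^ b), β n * J m n :=
      sum_congr rfl fun m _ => by simp only [← sum_II hβ', mul_sum, mul_assoc]
    have e2 : C * 2 ^ (a + b) * (127 / 128) ^ b / √((a : ℝ) + 1) =
        C * Gd a * (127 / 64) ^ b := by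
      rw [Gd, pow_add, show (127 / 64 : ℝ) = 2 * (127 / 128) by norm_num, mul_pow]
      ring
    have h6 := Gd_pos a
    rw [e, e2]
    refine abs_le_of_sq_le_sq' ((long h hα hβ1).trans ?_) (by positivity) |> abs_le.2
    rw [mul_pow, mul_pow, ← pow_mul, mul_comm b, pow_mul]
    gcongr
    · nlinarith
    · norm_num
  · have e : ∑ m ∈ Icc 1 (2 ^ a), ∑ n ∈ Icc 1 (2 ^ b), α m * β n * J m n =
        ∑ n ∈ II (2 ^ b), β n * ∑ m ∈ II (2 ^ a), α m * J m n := by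
      rw [sum_comm, ← sum_II hβ']
      refine sum_congr rfl fun n _ => ?_
      rw [← sum_II hα', mul_sum]
      exact sum_congr rfl fun m _ => by ring
    have hR : ∀ k ∈ Icc 1 ((2 ^ a) ^ 4), (2 : ℝ) ^ (4 * k.primeFactors.card) ≤
        16 ^ K * 2 ^ (b / 4) := by
      intro k hk
      have h1 := hK k (a * 4) (by have := (mem_Icc.1 hk).1; omega)
        (by rw [pow_mul]; exact (mem_Icc.1 hk).2)
      rw [show (16 : ℝ) = 2 ^ 4 by norm_num, ← pow_mul, ← pow_add]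
      exact pow_le_pow_right₀ one_le_two (by omega)
    have h1 := eighth (Nat.pow_le_pow_right two_pos hab) Nat.one_le_two_pow hα1 hβ1 hR
    have h2 : ((2 : ℝ) ^ (b / 4)) ^ 2 ≤ (3 / 2) ^ b :=
      calc ((2 : ℝ) ^ (b / 4)) ^ 2 = (2 ^ 2) ^ (b / 4) := by rw [← pow_mul, mul_comm, pow_mul]
        _ ≤ ((3 / 2) ^ 4) ^ (b / 4) := by
            gcongr ?_ ^ _
            norm_num
        _ ≤ (3 / 2) ^ b := by
            rw [← pow_mul]
            exact pow_le_pow_right₀ (by norm_num) (by omega)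
    have h3 : ((a : ℝ) + 1) ^ 4 ≤ 300 ^ 4 * (6 / 5) ^ b := by
      refine le_trans ?_ (poly b)
      gcongr ?_ ^ 4
      exact_mod_cast h
    have h4 : C ≤ C ^ 8 := le_self_pow₀ (by linarith) (by norm_num)
    rw [e, le_div_iff₀ (Real.sqrt_pos.2 hs)]
    refine (pow_le_pow_iff_left₀ (by positivity) (by positivity) (by norm_num : 8 ≠ 0)).1 ?_
    have e3 : √((a : ℝ) + 1) ^ 8 = ((a : ℝ) + 1) ^ 4 := by
      rw [show 8 = 2 * 4 from rfl, pow_mul, Real.sq_sqrt hs.le]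
    rw [mul_pow, e3]
    push_cast at h1
    calc _ ≤ 2 * (16 ^ K * 2 ^ (b / 4)) ^ 2 * ((2 : ℝ) ^ a) ^ 8 * ((2 : ℝ) ^ b) ^ 7 *
          (300 ^ 4 * (6 / 5) ^ b) := by gcongr
      _ = 2 * (16 ^ K) ^ 2 * 300 ^ 4 * ((2 : ℝ) ^ a) ^ 8 * ((2 : ℝ) ^ b) ^ 7 *
          (((2 : ℝ) ^ (b / 4)) ^ 2 * (6 / 5) ^ b) := by ring
      _ ≤ C ^ 8 * ((2 : ℝ) ^ a) ^ 8 * ((2 : ℝ) ^ b) ^ 7 * ((3 / 2) ^ b * (6 / 5) ^ b) := by
          gcongr
          exact hC.trans h4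
      _ ≤ C ^ 8 * ((2 : ℝ) ^ a) ^ 8 * ((2 : ℝ) ^ b) ^ 7 * (2 * (127 / 128) ^ 8) ^ b := by
          rw [← mul_pow (3 / 2 : ℝ)]
          exact mul_le_mul_of_nonneg_left (pow_le_pow_left₀ (by norm_num) (by norm_num) b)
            (by positivity)
      _ = _ := by
          rw [mul_pow 2, ← pow_mul (127 / 128 : ℝ), mul_comm 8 b, pow_mul, pow_add]
          ring

end BilAux

theorem bil : ∃ C ρ : ℝ, 0 < C ∧ 0 < ρ ∧ ρ < 1 ∧ ∀ (a b : ℕ) (α β : ℕ → ℝ),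
    (∀ m, |α m| ≤ g m) → (∀ m, α m ≠ 0 → OS m) → (∀ n, |β n| ≤ g n) → (∀ n, β n ≠ 0 → OS n) →
    |∑ m ∈ Icc 1 (2 ^ a), ∑ n ∈ Icc 1 (2 ^ b), α m * β n * J m n| ≤
      C * 2 ^ (a + b) * ρ ^ min a b / √(((max a b : ℕ) : ℝ) + 1) := by
  obtain ⟨C, hC, h⟩ := BilAux.half
  refine ⟨3 * C, 127 / 128, by positivity, by norm_num, by norm_num,
    fun a b α β hα hα' hβ hβ' => ?_⟩
  rcases le_total b a with hab | hab
  · rw [min_eq_right hab, max_eq_left hab]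
    refine (h a b α β hab hα hα' hβ hβ').trans ?_
    gcongr
    linarith
  · have cut : ∀ γ : ℕ → ℝ, (∀ m, |γ m| ≤ g m) → ∀ m, |if m % 4 = 3 then γ m else 0| ≤ g m := by
      intro γ hγ m
      split_ifs
      · exact hγ m
      · simpa using (g_pos m).le
    have cut' : ∀ γ : ℕ → ℝ, (∀ m, γ m ≠ 0 → OS m) →
        ∀ m, (if m % 4 = 3 then γ m else 0) ≠ 0 → OS m := by
      intro γ hγ m hm
      split_ifs at hm
      · exact hγ m hm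
      · exact absurd rfl hm
    have h1 := h b a β α hab hβ hβ' hα hα'
    have h2 := h b a _ _ hab (cut β hβ) (cut' β hβ') (cut α hα) (cut' α hα')
    have e : ∑ m ∈ Icc 1 (2 ^ a), ∑ n ∈ Icc 1 (2 ^ b), α m * β n * J m n =
        ∑ n ∈ Icc 1 (2 ^ b), ∑ m ∈ Icc 1 (2 ^ a), β n * α m * J n m -
        2 * ∑ n ∈ Icc 1 (2 ^ b), ∑ m ∈ Icc 1 (2 ^ a),
          (if n % 4 = 3 then β n else 0) * (if m % 4 = 3 then α m else 0) * J n m := by
      rw [sum_comm, mul_sum, ← sum_sub_distrib]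
      refine sum_congr rfl fun n _ => ?_
      rw [mul_sum, ← sum_sub_distrib]
      refine sum_congr rfl fun m _ => ?_
      by_cases h3 : α m = 0
      · simp [h3]
      by_cases h4 : β n = 0
      · simp [h4]
      have h5 := jacobiSym.quadratic_reciprocity_if (Nat.odd_iff.1 (hα' m h3).1)
        (Nat.odd_iff.1 (hβ' n h4).1)
      rw [J, J, ← h5]
      by_cases h6 : m % 4 = 3 <;> by_cases h7 : n % 4 = 3 <;>
        simp only [h6, h7, and_self, and_true, and_false, if_true, if_false, Int.cast_neg] <;> ring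
    rw [e, min_eq_left hab, max_eq_right hab, add_comm a b]
    refine (abs_sub _ _).trans ?_
    rw [abs_mul, abs_two]
    refine (add_le_add h1 (mul_le_mul_of_nonneg_left h2 zero_le_two)).trans (le_of_eq ?_)
    ring

end Pool.Agent.Lib.MP_90cf6f_nt.Den
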