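import Pool.Agent.Lib.MP_90cf6f_nt.Den.Defs

/-!
Sums over dyadic boxes.
-/

namespace Pool.Agent.Lib.MP_90cf6f_nt.Den

open Finset

namespace CombAux

lemma harm (n : ℕ) : ∑ k ∈ range n, 1 / √((k : ℝ) + 1) ≤ 2 * √(n : ℝ) := by
  induction n with
  | zero => simp
  | succ n ih =>
    rw [sum_range_succ]
    push_cast
    have h0 : (0 : ℝ) ≤ n := Nat.cast_nonneg n
    have a0 : 0 < √((n : ℝ) + 1) := Real.sqrt_pos.2 (by linarith)
    have a1 := Real.sq_sqrt h0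
    have a2 := Real.sq_sqrt (show (0 : ℝ) ≤ n + 1 by linarith)
    have : 1 / √((n : ℝ) + 1) ≤ 2 * √((n : ℝ) + 1) - 2 * √(n : ℝ) := by
      rw [div_le_iff₀ a0]
      nlinarith [sq_nonneg (√((n : ℝ) + 1) - √(n : ℝ))]
    linarith

lemma split {a b c : ℝ} (ha : 0 < a) (hb : 0 < b) (hc : 0 < c) (h : c ^ 2 ≤ a ^ 2 + b ^ 2) :
    1 / (a * b) ≤ (1 / a + 1 / b) / c := by
  have h1 : c ≤ a + b := by
    refine abs_le_of_sq_le_sq' ?_ (by positivity) |>.2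
    nlinarith [mul_pos ha hb]
  have e : 1 / (a * b) = (1 / a + 1 / b) / (a + b) := by field_simp; ring
  rw [e]
  gcongr

/-- Quadruples with sum `L`. -/
def D (L : ℕ) : Finset (ℕ × ℕ × ℕ × ℕ) :=
  (range (L + 1) ×ˢ range (L + 1) ×ˢ range (L + 1) ×ˢ range (L + 1)).filter
    fun x => x.1 + x.2.1 + x.2.2.1 + x.2.2.2 = L

lemma mem_D {L : ℕ} {x : ℕ × ℕ × ℕ × ℕ} : x ∈ D L ↔ x.1 + x.2.1 + x.2.2.1 + x.2.2.2 = L := by
  simp only [D, mem_filter, mem_product, mem_range]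
  omega

lemma sum_D (L : ℕ) (F : ℕ → ℕ → ℕ → ℕ → ℝ) :
    ∑ s ∈ range (L + 1), ∑ i ∈ range (s + 1), ∑ k ∈ range (L - s + 1),
      F (s - i) (L - s - k) i k = ∑ x ∈ D L, F x.1 x.2.1 x.2.2.1 x.2.2.2 := by
  simp_rw [← sum_product']
  rw [sum_sigma']
  refine sum_nbij' (fun z => (z.1 - z.2.1, L - z.1 - z.2.2, z.2.1, z.2.2))
    (fun x => ⟨x.1 + x.2.2.1, (x.2.2.1, x.2.2.2)⟩) ?_ ?_ ?_ ?_ ?_
  · rintro ⟨s, i, k⟩ h
    simp only [mem_sigma, mem_product, mem_range] at h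
    rw [mem_D]
    dsimp only
    omega
  · rintro ⟨a, b, i, k⟩ h
    rw [mem_D] at h
    simp only [mem_sigma, mem_product, mem_range] at h ⊢
    omega
  · rintro ⟨s, i, k⟩ h
    simp only [mem_sigma, mem_product, mem_range] at h
    have : s - i + i = s := by omega
    simp only [this]
  · rintro ⟨a, b, i, k⟩ h
    rw [mem_D] at h
    simp only [Prod.mk.injEq, and_true] at h ⊢
    omega
  · intro z _
    rfl

lemma swap1 (L : ℕ) (F : ℕ → ℕ → ℕ → ℕ → ℝ) :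
    ∑ x ∈ D L, F x.2.1 x.1 x.2.2.1 x.2.2.2 = ∑ x ∈ D L, F x.1 x.2.1 x.2.2.1 x.2.2.2 := by
  refine sum_nbij' (fun x => (x.2.1, x.1, x.2.2.1, x.2.2.2))
    (fun x => (x.2.1, x.1, x.2.2.1, x.2.2.2)) ?_ ?_ (fun _ _ => rfl) (fun _ _ => rfl)
    (fun _ _ => rfl)
  all_goals
    intro x h
    rw [mem_D] at h ⊢
    dsimp only
    omega

lemma swap2 (L : ℕ) (F : ℕ → ℕ → ℕ → ℕ → ℝ) :
    ∑ x ∈ D L, F x.1 x.2.1 x.2.2.2 x.2.2.1 = ∑ x ∈ D L, F x.1 x.2.1 x.2.2.1 x.2.2.2 := by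
  refine sum_nbij' (fun x => (x.1, x.2.1, x.2.2.2, x.2.2.1))
    (fun x => (x.1, x.2.1, x.2.2.2, x.2.2.1)) ?_ ?_ (fun _ _ => rfl) (fun _ _ => rfl)
    (fun _ _ => rfl)
  all_goals
    intro x h
    rw [mem_D] at h ⊢
    dsimp only
    omega

/-- One of the four ordered pieces of the weight. -/
noncomputable def T (ρ : ℝ) (w a b i k : ℕ) : ℝ :=
  if w ≤ a ∧ i ≤ a then ρ ^ a / (√((b : ℝ) + 1) * √((k : ℝ) + 1)) else 0

lemma T_nonneg {ρ : ℝ} (h : 0 ≤ ρ) (w a b i k : ℕ) : 0 ≤ T ρ w a b i k := by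
  unfold T
  split_ifs <;> positivity

lemma cw_le {ρ : ℝ} (h : 0 ≤ ρ) (w a b i k : ℕ) :
    cw ρ w a b i k ≤ T ρ w a b i k + T ρ w a b k i + T ρ w b a i k + T ρ w b a k i := by
  have h1 := T_nonneg h w a b i k
  have h2 := T_nonneg h w a b k i
  have h3 := T_nonneg h w b a i k
  have h4 := T_nonneg h w b a k i
  rcases le_total a b with c1 | c1 <;> rcases le_total i k with c2 | c2
  · have : cw ρ w a b i k = T ρ w a b i k := by
      unfold cw T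
      rw [min_eq_left c1, max_eq_right c1, min_eq_left c2, max_eq_right c2]
    linarith
  · have : cw ρ w a b i k = T ρ w a b k i := by
      unfold cw T
      rw [min_eq_left c1, max_eq_right c1, min_eq_right c2, max_eq_left c2]
    linarith
  · have : cw ρ w a b i k = T ρ w b a i k := by
      unfold cw T
      rw [min_eq_right c1, max_eq_left c1, min_eq_left c2, max_eq_right c2]
    linarith
  · have : cw ρ w a b i k = T ρ w b a k i := by
      unfold cw T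
      rw [min_eq_right c1, max_eq_left c1, min_eq_right c2, max_eq_left c2]
    linarith

end CombAux

theorem conv (n : ℕ) :
    ∑ k ∈ range (n + 1), 1 / (√((k : ℝ) + 1) * √(((n - k : ℕ) : ℝ) + 1)) ≤ 6 := by
  have c0 : 0 < √((n : ℝ) + 1) := Real.sqrt_pos.2 (by positivity)
  have h1 : ∀ k ∈ range (n + 1), 1 / (√((k : ℝ) + 1) * √(((n - k : ℕ) : ℝ) + 1)) ≤
      (1 / √((k : ℝ) + 1) + 1 / √(((n - k : ℕ) : ℝ) + 1)) / √((n : ℝ) + 1) := by
    intro k hk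
    refine CombAux.split (Real.sqrt_pos.2 (by positivity)) (Real.sqrt_pos.2 (by positivity)) c0 ?_
    rw [Real.sq_sqrt (by positivity), Real.sq_sqrt (by positivity), Real.sq_sqrt (by positivity),
      Nat.cast_sub (Nat.lt_succ_iff.1 (mem_range.1 hk))]
    linarith
  refine (sum_le_sum h1).trans ?_
  have h2 := CombAux.harm (n + 1)
  have h3 : ∑ k ∈ range (n + 1), 1 / √(((n - k : ℕ) : ℝ) + 1) =
      ∑ k ∈ range (n + 1), 1 / √((k : ℝ) + 1) := sum_flip fun k => 1 / √((k : ℝ) + 1)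
  rw [← sum_div, sum_add_distrib, h3, div_le_iff₀ c0]
  push_cast at h2
  linarith

namespace CombAux

lemma sum_T {τ : ℝ} (h0 : 0 < τ) (h1 : τ < 1) (w L : ℕ) :
    ∑ x ∈ D L, T (τ ^ 4) w x.1 x.2.1 x.2.2.1 x.2.2.2 ≤
      6 * (∑' s : ℕ, ((s : ℝ) + 1) * τ ^ s) * (τ ^ 2) ^ w := by
  have hs : Summable fun s : ℕ => ((s : ℝ) + 1) * τ ^ s := by
    have hn : ‖τ‖ < 1 := by rwa [Real.norm_of_nonneg h0.le]
    have := (summable_pow_mul_geometric_of_norm_lt_one 1 hn).add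
      (summable_geometric_of_norm_lt_one hn)
    simpa only [pow_one, add_mul, one_mul] using this
  rw [← sum_D L (T (τ ^ 4) w)]
  have h2 : ∀ s ∈ range (L + 1), ∀ i ∈ range (s + 1),
      ∑ k ∈ range (L - s + 1), T (τ ^ 4) w (s - i) (L - s - k) i k ≤
        6 * τ ^ s * (τ ^ 2) ^ w := by
    intro s _ i hi
    unfold T
    split_ifs with c
    · have e : ∀ k, (τ ^ 4) ^ (s - i) / (√(((L - s - k : ℕ) : ℝ) + 1) * √((k : ℝ) + 1)) =
          (τ ^ 4) ^ (s - i) * (1 / (√((k : ℝ) + 1) * √(((L - s - k : ℕ) : ℝ) + 1))) := by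
        intro k
        rw [mul_one_div, mul_comm]
      simp_rw [e]
      rw [← mul_sum]
      have b1 : (τ ^ 4) ^ (s - i) ≤ τ ^ s * (τ ^ 2) ^ w := by
        rw [← pow_mul, ← pow_mul, ← pow_add]
        refine pow_le_pow_of_le_one h0.le h1.le ?_
        have := mem_range.1 hi
        omega
      calc _ ≤ τ ^ s * (τ ^ 2) ^ w * 6 :=
            mul_le_mul b1 (conv (L - s)) (sum_nonneg fun _ _ => by positivity) (by positivity)
        _ = _ := by ring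
    · rw [sum_const_zero]
      positivity
  calc _ ≤ ∑ s ∈ range (L + 1), ∑ _i ∈ range (s + 1), 6 * τ ^ s * (τ ^ 2) ^ w :=
        sum_le_sum fun s hs => sum_le_sum (h2 s hs)
    _ = 6 * (∑ s ∈ range (L + 1), ((s : ℝ) + 1) * τ ^ s) * (τ ^ 2) ^ w := by
        rw [mul_sum, sum_mul]
        refine sum_congr rfl fun s _ => ?_
        rw [sum_const, card_range, nsmul_eq_mul]
        push_cast
        ring
    _ ≤ _ := by
        gcongr
        exact hs.sum_le_tsum _ fun _ _ => by positivity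

end CombAux

theorem comb {ρ : ℝ} (h0 : 0 < ρ) (h1 : ρ < 1) : ∃ C ρ' : ℝ, 0 < C ∧ 0 < ρ' ∧ ρ' < 1 ∧
    ∀ w L : ℕ, ∑ s ∈ range (L + 1), ∑ i ∈ range (s + 1), ∑ k ∈ range (L - s + 1),
      cw ρ w (s - i) (L - s - k) i k ≤ C * ρ' ^ w := by
  obtain ⟨τ, t0, t1, rfl⟩ : ∃ τ : ℝ, 0 < τ ∧ τ < 1 ∧ τ ^ 4 = ρ := by
    refine ⟨√√ρ, by positivity, ?_, ?_⟩
    · rw [Real.sqrt_lt' one_pos, one_pow, Real.sqrt_lt' one_pos, one_pow]
      exact h1
    · rw [show 4 = 2 * 2 from rfl, pow_mul, Real.sq_sqrt (Real.sqrt_nonneg _), Real.sq_sqrt h0.le]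
  have c0 : 0 ≤ ∑' s : ℕ, ((s : ℝ) + 1) * τ ^ s := tsum_nonneg fun _ => by positivity
  refine ⟨24 * (∑' s : ℕ, ((s : ℝ) + 1) * τ ^ s) + 1, τ ^ 2, by positivity, by positivity,
    pow_lt_one₀ t0.le t1 two_ne_zero, fun w L => ?_⟩
  rw [CombAux.sum_D L (cw (τ ^ 4) w)]
  refine (sum_le_sum fun x _ => CombAux.cw_le h0.le w _ _ _ _).trans ?_
  have e1 := CombAux.swap2 L (CombAux.T (τ ^ 4) w)
  have e2 := CombAux.swap1 L (CombAux.T (τ ^ 4) w)
  have e3 := CombAux.swap1 L fun a b i k => CombAux.T (τ ^ 4) w a b k i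
  have e4 := CombAux.sum_T t0 t1 w L
  have e5 : 0 < (τ ^ 2) ^ w := by positivity
  rw [sum_add_distrib, sum_add_distrib, sum_add_distrib, e3, e2, e1]
  linarith

end Pool.Agent.Lib.MP_90cf6f_nt.Den
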