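import Pool.Agent.Lib.MP_90cf6f_nt.Den.Sieve

/-!
The main terms.
-/

namespace Pool.Agent.Lib.MP_90cf6f_nt.Den

open Finset
open scoped Classical

namespace MainTAux

lemma os_prod {T : Finset ℕ} (hT : ∀ q ∈ T, q.Prime ∧ Odd q) : OS (∏ q ∈ T, q) := by
  refine ⟨Finset.prod_induction _ Odd (fun a b ha hb => ha.mul hb) odd_one
    fun q hq => (hT q hq).2, ?_⟩
  refine Finset.squarefree_prod_of_pairwise_isCoprime (fun p hp q hq hpq => ?_)
    fun q hq => (hT q hq).1.prime.squarefree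
  exact Nat.coprime_iff_isRelPrime.1 ((Nat.coprime_primes (hT p hp).1 (hT q hq).1).2 hpq)

lemma J_prod (m : ℤ) {T : Finset ℕ} (hT : ∀ q ∈ T, q.Prime) :
    J m (∏ q ∈ T, q) = ∏ q ∈ T, J m q := by
  induction T using Finset.induction_on with
  | empty => simp [J_one_right]
  | insert q T hq ih =>
    rw [prod_insert hq, prod_insert hq, J_mul_right _ (hT q (mem_insert_self _ _)).ne_zero
      (prod_ne_zero_iff.2 fun p hp => (hT p (mem_insert_of_mem hp)).ne_zero),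
      ih fun p hp => hT p (mem_insert_of_mem hp)]

/-- Expansion of a product of affine functions of symbols. -/
lemma expand {P S : Finset ℕ} (hP : ∀ q ∈ P, q.Prime ∧ Odd q) (hS : S ⊆ P) (u v : ℕ → ℝ)
    (huv : ∀ q, |v q| + |u q| ≤ 1) :
    ∃ c : Finset ℕ → ℝ, (∀ T ∈ S.powerset, OS (∏ q ∈ T, q) ∧ ∏ q ∈ T, q ≤ ∏ q ∈ P, q) ∧
      Set.InjOn (fun T : Finset ℕ => ∏ q ∈ T, q) S.powerset ∧
      (∀ m : ℤ, ∏ q ∈ S, (v q * J m q + u q) = ∑ T ∈ S.powerset, c T * J m (∏ q ∈ T, q)) ∧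
      ∑ T ∈ S.powerset, c T ^ 2 = ∏ q ∈ S, (v q ^ 2 + u q ^ 2) ∧
      (∑ T ∈ S.powerset, |c T|) ^ 2 ≤ 1 := by
  refine ⟨fun T => (∏ q ∈ T, v q) * ∏ q ∈ S \ T, u q, fun T hT => ?_, fun T hT T' hT' he => ?_,
    fun m => ?_, ?_, ?_⟩
  · have h1 : T ⊆ P := (mem_powerset.1 hT).trans hS
    exact ⟨os_prod fun q hq => hP q (h1 hq),
      prod_le_prod_of_subset_of_one_le' h1 fun q hq _ => (hP q hq).1.one_le⟩
  · have h1 : T ⊆ P := (mem_powerset.1 (mem_coe.1 hT)).trans hS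
    have h2 : T' ⊆ P := (mem_powerset.1 (mem_coe.1 hT')).trans hS
    rw [← Nat.primeFactors_prod fun q hq => (hP q (h1 hq)).1,
      ← Nat.primeFactors_prod fun q hq => (hP q (h2 hq)).1]
    exact congrArg Nat.primeFactors he
  · rw [prod_add]
    refine sum_congr rfl fun T hT => ?_
    have h1 : T ⊆ P := (mem_powerset.1 hT).trans hS
    rw [J_prod m fun q hq => (hP q (h1 hq)).1, prod_mul_distrib]
    ring
  · rw [prod_add]
    refine sum_congr rfl fun T _ => ?_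
    rw [mul_pow, prod_pow, prod_pow]
  · have h1 : ∑ T ∈ S.powerset, |(∏ q ∈ T, v q) * ∏ q ∈ S \ T, u q| =
        ∏ q ∈ S, (|v q| + |u q|) := by
      rw [prod_add]
      refine sum_congr rfl fun T _ => ?_
      rw [abs_mul, abs_prod, abs_prod]
    rw [h1]
    exact pow_le_one₀ (prod_nonneg fun q _ => by positivity)
      (prod_le_one (fun q _ => by positivity) fun q _ => huv q)

lemma ms_g {P S : Finset ℕ} (hP : ∀ q ∈ P, q.Prime ∧ Odd q) (hS : S ⊆ P) (u v : ℕ → ℝ)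
    (huv : ∀ q, |v q| + |u q| ≤ 1) (a : ℕ) :
    ∑ m ∈ Icc 1 (2 ^ a), g m * (∏ q ∈ S, (v q * J m q + u q)) ^ 2 ≤
      8 * Gd a * ∏ q ∈ S, (v q ^ 2 + u q ^ 2) + √2 ^ a * ((∏ q ∈ P, q : ℕ) : ℝ) ^ 2 := by
  obtain ⟨c, h1, h2, h3, h4, h5⟩ := expand hP hS u v huv
  have h6 := ls_g S.powerset (fun T : Finset ℕ => ∏ q ∈ T, q) c h1 h2 a
  simp only [h3]
  rw [h4] at h6
  refine h6.trans (add_le_add le_rfl ?_)
  exact mul_le_of_le_one_right (by positivity) h5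

lemma ms_one {P S : Finset ℕ} (hP : ∀ q ∈ P, q.Prime ∧ Odd q) (hS : S ⊆ P) (u v : ℕ → ℝ)
    (huv : ∀ q, |v q| + |u q| ≤ 1) (y : ℕ) :
    ∑ m ∈ Icc 1 y, (∏ q ∈ S, (v q * J m q + u q)) ^ 2 ≤
      (y : ℝ) * ∏ q ∈ S, (v q ^ 2 + u q ^ 2) + ((∏ q ∈ P, q : ℕ) : ℝ) ^ 2 := by
  obtain ⟨c, h1, h2, h3, h4, h5⟩ := expand hP hS u v huv
  have h6 := ls_one S.powerset (fun T : Finset ℕ => ∏ q ∈ T, q) c h1 h2 y
  simp only [h3]
  rw [h4] at h6
  refine h6.trans (add_le_add le_rfl ?_)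
  exact mul_le_of_le_one_right (by positivity) h5

lemma J_sq_le (a : ℤ) (n : ℕ) : J a n ^ 2 ≤ 1 := by
  rw [← sq_abs]
  exact pow_le_one₀ (abs_nonneg _) (abs_J_le a n)

lemma half_ok (κ : ℤ) (q : ℕ) : |J κ q / 2| + |(1 / 2 : ℝ)| ≤ 1 := by
  have := abs_J_le κ q
  rw [abs_div, abs_two, abs_of_pos (by norm_num : (0 : ℝ) < 1 / 2)]
  linarith

lemma half_prod (κ : ℤ) (S : Finset ℕ) :
    ∏ q ∈ S, ((J κ q / 2) ^ 2 + (1 / 2 : ℝ) ^ 2) ≤ (1 / 2) ^ S.card := by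
  rw [← prod_const]
  refine prod_le_prod (fun q _ => by positivity) fun q _ => ?_
  have := J_sq_le κ q
  nlinarith

lemma one_of {κ : ℤ} {S : Finset ℕ} {d : ℕ} (h : ∀ q ∈ S, jacobiSym (κ * d) q = 1) :
    ∏ q ∈ S, (J κ q / 2 * J d q + 1 / 2) = 1 := by
  refine prod_eq_one fun q hq => ?_
  have h1 : J (κ * d) q = 1 := by simp [J, h q hq]
  rw [J_mul_left] at h1
  linarith

lemma small {B s : ℕ} (hB : 1 ≤ B) (hs : 16 * B ≤ s) : √2 ^ s * (2 ^ B) ^ 2 * 2 ^ B ≤ Gd s := by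
  have h0 : (0 : ℝ) < √2 := by positivity
  have h6 : (0 : ℝ) < √2 ^ s := pow_pos h0 s
  have h9 : (2 : ℝ) ^ s = √2 ^ s * √2 ^ s := by
    rw [← mul_pow, Real.mul_self_sqrt (by norm_num)]
  obtain ⟨r, hr⟩ : ∃ r, s = 6 * B + (r + 1) := ⟨s - 6 * B - 1, by omega⟩
  have h1 : s + 1 ≤ 2 ^ (r + 1) := by
    have : r < 2 ^ r := Nat.lt_two_pow_self
    rw [pow_succ]
    omega
  have h2 : ((2 ^ B) ^ 2 * 2 ^ B) ^ 2 * (s + 1) ≤ 2 ^ s := by
    calc ((2 ^ B) ^ 2 * 2 ^ B) ^ 2 * (s + 1) ≤ ((2 ^ B) ^ 2 * 2 ^ B) ^ 2 * 2 ^ (r + 1) :=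
          Nat.mul_le_mul_left _ h1
      _ = 2 ^ (6 * B + (r + 1)) := by ring
      _ = 2 ^ s := by rw [← hr]
  have h3 : (((2 : ℝ) ^ B) ^ 2 * 2 ^ B) ^ 2 * ((s : ℝ) + 1) ≤ 2 ^ s := by exact_mod_cast h2
  have h4 : ((2 : ℝ) ^ B) ^ 2 * 2 ^ B * √((s : ℝ) + 1) ≤ √2 ^ s := by
    refine le_of_sq_le_sq ?_ h6.le
    rw [mul_pow, Real.sq_sqrt (by positivity), sq (√2 ^ s), ← h9]
    exact h3
  unfold Gd
  rw [le_div_iff₀ (by positivity), h9, mul_assoc, mul_assoc, ← mul_assoc (((2 : ℝ) ^ B) ^ 2)]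
  exact mul_le_mul_of_nonneg_left h4 h6.le

end MainTAux

open MainTAux

theorem mainT (P : Finset ℕ) (hP : ∀ q ∈ P, q.Prime ∧ Odd q) (κ μ : ℤ) {B : ℕ} (hB : 1 ≤ B)
    (hB1 : ∏ q ∈ P, q ≤ 2 ^ B) (hB2 : P.card ≤ B) {s t : ℕ} (h1 : 16 * B ≤ s) (h2 : 16 * B ≤ t) :
    ∑ d ∈ Icc 1 (2 ^ s), ∑ e ∈ Icc 1 (2 ^ t), (if PiC P κ μ d e then g d * g e else 0) ≤
      81 * (25 / 32) ^ P.card * Gd s * Gd t := by
  have hs : ∀ s, 16 * B ≤ s → ∀ x : ℝ, (1 / 2) ^ P.card ≤ x →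
      √2 ^ s * ((∏ q ∈ P, q : ℕ) : ℝ) ^ 2 ≤ Gd s * x := by
    intro s h x hx
    have h1 := small hB h
    have h2 : (0 : ℝ) < 2 ^ P.card := by positivity
    have h3 : ((∏ q ∈ P, q : ℕ) : ℝ) ≤ 2 ^ B := by exact_mod_cast hB1
    have h4 : (2 : ℝ) ^ P.card ≤ 2 ^ B := pow_le_pow_right₀ (by norm_num) hB2
    refine le_trans ?_ (mul_le_mul_of_nonneg_left hx (Gd_pos s).le)
    rw [one_div, inv_pow, ← div_eq_mul_inv, le_div_iff₀ h2]
    refine le_trans ?_ h1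
    gcongr
  rw [sum_comm]
  have key : ∀ e : ℕ, ∑ d ∈ Icc 1 (2 ^ s), (if PiC P κ μ d e then g d * g e else 0) ≤
      9 * Gd s * (g e * (∏ q ∈ P, (J μ q / 8 * J e q + 7 / 8)) ^ 2) := by
    intro e
    set S := P.filter fun q => jacobiSym (μ * e) q ≠ 1 with hS
    have a1 := ms_g hP (filter_subset _ _ : S ⊆ P) (fun _ => 1 / 2) (fun q => J κ q / 2)
      (half_ok κ) s
    have a2 := half_prod κ S
    have a3 : (1 / 2 : ℝ) ^ P.card ≤ (1 / 2) ^ S.card :=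
      pow_le_pow_of_le_one (by norm_num) (by norm_num) (card_filter_le _ _)
    have a4 := hs s h1 _ a3
    have a5 : (1 / 2 : ℝ) ^ S.card ≤ (∏ q ∈ P, (J μ q / 8 * J e q + 7 / 8)) ^ 2 := by
      rw [← prod_pow, ← prod_const, hS, prod_filter]
      refine prod_le_prod (fun q _ => by split_ifs <;> norm_num) fun q _ => ?_
      have b1 : J μ q / 8 * J e q = J (μ * e) q / 8 := by rw [J_mul_left]; ring
      rw [b1]
      split_ifs with h
      · have b2 := (abs_le.1 (abs_J_le (μ * e) q)).1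
        nlinarith
      · have b2 : J (μ * e) q = 1 := by simp [J, not_not.1 h]
        rw [b2]
        norm_num
    have a6 : ∑ d ∈ Icc 1 (2 ^ s), (if PiC P κ μ d e then g d * g e else 0) ≤
        ∑ d ∈ Icc 1 (2 ^ s), g e * (g d * (∏ q ∈ S, (J κ q / 2 * J d q + 1 / 2)) ^ 2) := by
      refine sum_le_sum fun d _ => ?_
      split_ifs with h
      · rw [one_of fun q hq => (h q (mem_filter.1 hq).1).resolve_right (mem_filter.1 hq).2]
        linarith [mul_comm (g d) (g e)]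
      · have := g_pos d
        have := g_pos e
        positivity
    rw [← mul_sum] at a6
    have a7 := Gd_pos s
    have a8 := g_pos e
    have a9 : ∑ d ∈ Icc 1 (2 ^ s), g d * (∏ q ∈ S, (J κ q / 2 * J d q + 1 / 2)) ^ 2 ≤
        9 * Gd s * (∏ q ∈ P, (J μ q / 8 * J e q + 7 / 8)) ^ 2 := by
      have c1 := mul_le_mul_of_nonneg_left a2 a7.le
      have c2 := mul_le_mul_of_nonneg_left a5 a7.le
      linarith
    have c3 := mul_le_mul_of_nonneg_left a9 a8.le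
    linarith
  refine (sum_le_sum fun e _ => key e).trans ?_
  rw [← mul_sum]
  have a1 := ms_g hP (Subset.refl P) (fun _ => 7 / 8) (fun q => J μ q / 8) (fun q => by
    have := abs_J_le μ q
    rw [abs_div, abs_of_pos (by norm_num : (0 : ℝ) < 8),
      abs_of_pos (by norm_num : (0 : ℝ) < 7 / 8)]
    linarith) t
  have a2 : ∏ q ∈ P, ((J μ q / 8) ^ 2 + (7 / 8 : ℝ) ^ 2) ≤ (25 / 32) ^ P.card := by
    rw [← prod_const]
    refine prod_le_prod (fun q _ => by positivity) fun q _ => ?_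
    have := J_sq_le μ q
    nlinarith
  have a4 := hs t h2 ((25 / 32) ^ P.card) (pow_le_pow_left₀ (by norm_num) (by norm_num) _)
  have a7 := Gd_pos s
  have a8 := Gd_pos t
  have c1 := mul_le_mul_of_nonneg_left a2 a8.le
  have c2 : ∑ m ∈ Icc 1 (2 ^ t), g m * (∏ q ∈ P, (J μ q / 8 * J m q + 7 / 8)) ^ 2 ≤
      9 * Gd t * (25 / 32) ^ P.card := by linarith
  have c3 := mul_le_mul_of_nonneg_left c2 (by positivity : 0 ≤ 9 * Gd s)
  linarith

theorem eone (P : Finset ℕ) (hP : ∀ q ∈ P, q.Prime ∧ Odd q) (κ μ : ℤ) {K : ℕ}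
    (hK : K ≤ (P.filter fun q => jacobiSym μ q ≠ 1).card) (y : ℕ) :
    (((Icc 1 y).filter fun d => PiC P κ μ d 1).card : ℝ) ≤
      (1 / 2) ^ K * y + ((∏ q ∈ P, q : ℕ) : ℝ) ^ 2 := by
  set S := P.filter fun q => jacobiSym μ q ≠ 1 with hS
  have a1 := ms_one hP (filter_subset _ _ : S ⊆ P) (fun _ => 1 / 2) (fun q => J κ q / 2)
    (half_ok κ) y
  have a2 := (half_prod κ S).trans (pow_le_pow_of_le_one (by norm_num) (by norm_num) hK)
  have a3 : (((Icc 1 y).filter fun d => PiC P κ μ d 1).card : ℝ) ≤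
      ∑ m ∈ Icc 1 y, (∏ q ∈ S, (J κ q / 2 * J m q + 1 / 2)) ^ 2 := by
    rw [card_filter, Nat.cast_sum]
    refine sum_le_sum fun d _ => ?_
    split_ifs with h
    · rw [one_of fun q hq => (h q (mem_filter.1 hq).1).resolve_right
        (by simpa using (mem_filter.1 hq).2)]
      norm_num
    · rw [Nat.cast_zero]
      positivity
  have c1 := mul_le_mul_of_nonneg_left a2 (Nat.cast_nonneg y : (0 : ℝ) ≤ y)
  linarith

end Pool.Agent.Lib.MP_90cf6f_nt.Den
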