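import Pool.Agent.Lib.MP_90cf6f_nt.Den.Link
import Pool.Agent.Lib.MP_90cf6f_nt.Den.Comb
import Pool.Agent.Lib.MP_90cf6f_nt.Den.MainT

/-!
The number of bad pairs.
-/

namespace Pool.Agent.Lib.MP_90cf6f_nt.Den

open Finset

namespace CountAux

open scoped Classical

/-- The weight of the first variable. -/
noncomputable def A (P : Finset ℕ) (κ : ℤ) (w s : ℕ) (σ : Finset ℕ) (d : ℕ) : ℝ :=
  if 1 < d ∧ d ≤ 2 ^ s ∧ OS d ∧ Rough w d ∧ (P.filter fun q => jacobiSym (κ * d) q ≠ 1) = σ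
    then 1 else 0

/-- The weight of the second variable. -/
noncomputable def B (μ : ℤ) (w t : ℕ) (σ : Finset ℕ) (e : ℕ) : ℝ :=
  if 1 < e ∧ e ≤ 2 ^ t ∧ OS e ∧ Rough w e ∧ ∀ q ∈ σ, jacobiSym (μ * e) q = 1 then 1 else 0

variable (P : Finset ℕ) (κ μ : ℤ) (w : ℕ)

lemma A_nonneg (s : ℕ) (σ : Finset ℕ) (d : ℕ) : 0 ≤ A P κ w s σ d := by
  unfold A
  split_ifs <;> norm_num

lemma B_nonneg (t : ℕ) (σ : Finset ℕ) (e : ℕ) : 0 ≤ B μ w t σ e := by
  unfold B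
  split_ifs <;> norm_num

lemma A_wt (s : ℕ) (σ : Finset ℕ) : Wt w s (A P κ w s σ) := by
  refine ⟨fun d => ?_, fun d hd => ?_⟩
  · unfold A
    split_ifs <;> norm_num
  · unfold A at hd
    split_ifs at hd with h
    · exact ⟨h.2.2.1, h.2.2.2.1, h.2.1⟩
    · exact absurd rfl hd

lemma B_wt (t : ℕ) (σ : Finset ℕ) : Wt w t (B μ w t σ) := by
  refine ⟨fun d => ?_, fun d hd => ?_⟩
  · unfold B
    split_ifs <;> norm_num
  · unfold B at hd
    split_ifs at hd with h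
    · exact ⟨h.2.2.1, h.2.2.2.1, h.2.1⟩
    · exact absurd rfl hd

lemma A_one (s : ℕ) (σ : Finset ℕ) : A P κ w s σ 1 = 0 := by simp [A]

lemma B_one (t : ℕ) (σ : Finset ℕ) : B μ w t σ 1 = 0 := by simp [B]

lemma term_nonneg (s t : ℕ) (σ : Finset ℕ) (d e : ℕ) :
    0 ≤ A P κ w s σ d * B μ w t σ e * Fq (μ * e) d * Fq (κ * d) e := by
  by_cases h1 : A P κ w s σ d = 0
  · simp [h1]
  by_cases h2 : B μ w t σ e = 0
  · simp [h2]
  have h3 := Fq_nonneg (μ * e) ((A_wt P κ w s σ).2 d h1).1.2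
  have h4 := Fq_nonneg (κ * d) ((B_wt μ w t σ).2 e h2).1.2
  exact mul_nonneg (mul_nonneg (mul_nonneg (A_nonneg ..) (B_nonneg ..)) h3) h4

lemma sum_sigma (s t d e : ℕ) :
    ∑ σ ∈ P.powerset, A P κ w s σ d * B μ w t σ e * (g d * g e) ≤
      if PiC P κ μ d e then g d * g e else 0 := by
  have hg : 0 < g d * g e := mul_pos (g_pos d) (g_pos e)
  rw [sum_eq_single (P.filter fun q => jacobiSym (κ * d) q ≠ 1)]
  · unfold A B
    split_ifs with h1 h2 h3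
    · simp
    · refine absurd (fun q hq => ?_) h3
      by_cases h : jacobiSym (κ * d) q = 1
      · exact Or.inl h
      · exact Or.inr (h2.2.2.2.2 q (mem_filter.2 ⟨hq, h⟩))
    all_goals simp [hg.le]
  · intro σ _ hσ
    have : A P κ w s σ d = 0 := by
      unfold A
      rw [if_neg]
      exact fun h => hσ h.2.2.2.2.symm
    simp [this]
  · intro h
    exact absurd (mem_powerset.2 (filter_subset _ _)) h

/-- The pairs with second entry larger than one. -/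
lemma card_le {X L : ℕ} (hX : 2 * X ≤ 2 ^ L) :
    (((badSet P κ μ w X).filter fun x => x.2 ≠ 1).card : ℝ) ≤
      ∑ s ∈ range (L + 1), ∑ σ ∈ P.powerset, ∑ d ∈ Icc 1 (2 ^ s), ∑ e ∈ Icc 1 (2 ^ (L - s)),
        A P κ w s σ d * B μ w (L - s) σ e * Fq (μ * e) d * Fq (κ * d) e := by
  set S := (badSet P κ μ w X).filter fun x => x.2 ≠ 1 with hS
  have key : ∀ x ∈ S, Nat.log 2 x.1 + 1 ≤ L ∧ x.1 ≤ 2 ^ (Nat.log 2 x.1 + 1) ∧
      x.2 ≤ 2 ^ (L - (Nat.log 2 x.1 + 1)) := by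
    intro x hx
    simp only [hS, badSet, mem_filter, mem_product, mem_Icc] at hx
    obtain ⟨⟨⟨⟨h1, -⟩, h2, -⟩, -, h3, -⟩, -⟩ := hx
    have h4 : 2 ^ Nat.log 2 x.1 ≤ x.1 := Nat.pow_log_le_self 2 (by omega)
    have h5 : 2 ^ (Nat.log 2 x.1 + 1) * x.2 ≤ 2 ^ L := by
      calc 2 ^ (Nat.log 2 x.1 + 1) * x.2 = 2 * (2 ^ Nat.log 2 x.1 * x.2) := by ring
        _ ≤ 2 * (x.1 * x.2) := by gcongr
        _ ≤ 2 ^ L := by omega
    have h6 : Nat.log 2 x.1 + 1 ≤ L := by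
      refine (Nat.pow_le_pow_iff_right (by norm_num : 1 < 2)).1 (le_trans ?_ h5)
      exact Nat.le_mul_of_pos_right _ h2
    refine ⟨h6, (Nat.lt_pow_succ_log_self (by norm_num) _).le, ?_⟩
    obtain ⟨k, hk⟩ := Nat.exists_eq_add_of_le h6
    rw [hk, Nat.add_sub_cancel_left]
    rw [hk, pow_add _ _ k] at h5
    exact Nat.le_of_mul_le_mul_left h5 (by positivity)
  rw [card_eq_sum_card_fiberwise (f := fun x : ℕ × ℕ => Nat.log 2 x.1 + 1) (t := range (L + 1))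
    fun x hx => mem_coe.2 (mem_range.2 (Nat.lt_succ_of_le (key x hx).1))]
  push_cast
  refine sum_le_sum fun s _ => ?_
  rw [sum_comm]
  simp_rw [sum_comm (s := P.powerset)]
  rw [← sum_product', card_eq_sum_ones]
  push_cast
  have hpos : ∀ x : ℕ × ℕ, 0 ≤ ∑ σ ∈ P.powerset,
      A P κ w s σ x.1 * B μ w (L - s) σ x.2 * Fq (μ * x.2) x.1 * Fq (κ * x.1) x.2 :=
    fun x => sum_nonneg fun σ _ => term_nonneg ..
  refine le_trans (sum_le_sum fun x hx => ?_) (sum_le_sum_of_subset_of_nonneg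
    (s := S.filter fun x => Nat.log 2 x.1 + 1 = s) (fun x hx => ?_) fun x _ _ => hpos x)
  · obtain ⟨hx, hs⟩ := mem_filter.1 hx
    obtain ⟨-, k2, k3⟩ := key x hx
    rw [hs] at k2 k3
    simp only [hS, badSet, mem_filter, mem_product, mem_Icc] at hx
    obtain ⟨⟨⟨-, h2, -⟩, h3, -, h4, h5, h6, h7, h8, h9, h10⟩, h11⟩ := hx
    refine le_trans ?_ (single_le_sum (fun σ _ => term_nonneg P κ μ w s (L - s) σ x.1 x.2)
      (mem_powerset.2 (filter_subset (fun q => jacobiSym (κ * x.1) q ≠ 1) P)))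
    rw [Fq_eq_one h4.2 h8, Fq_eq_one h5.2 h9]
    unfold A B
    rw [if_pos ⟨h3, k2, h4, h6, rfl⟩, if_pos ⟨by omega, k3, h5, h7,
      fun q hq => (h10 q (mem_filter.1 hq).1).resolve_left (mem_filter.1 hq).2⟩]
    norm_num
  · obtain ⟨hx, hs⟩ := mem_filter.1 hx
    obtain ⟨-, k2, k3⟩ := key x hx
    rw [hs] at k2 k3
    simp only [hS, badSet, mem_filter, mem_product, mem_Icc] at hx
    exact mem_product.2 ⟨mem_Icc.2 ⟨hx.1.1.1.1, k2⟩, mem_Icc.2 ⟨hx.1.1.2.1, k3⟩⟩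

/-- The pairs with second entry one. -/
lemma card_one (X : ℕ) :
    ((badSet P κ μ w X).filter fun x => ¬ x.2 ≠ 1).card ≤
      ((Icc 1 X).filter fun d => PiC P κ μ d 1).card := by
  refine card_le_card_of_injOn Prod.fst (fun x hx => ?_) fun x hx y hy h => ?_
  · simp only [badSet, coe_filter, mem_filter, mem_product, Set.mem_ofPred_eq, not_not] at hx ⊢
    refine ⟨hx.1.1.1, ?_⟩
    rw [← hx.2]
    exact hx.1.2.2.2.2.2.2.2.2.2
  · simp only [coe_filter, Set.mem_ofPred_eq, not_not] at hx hy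
    exact Prod.ext h (hx.2.trans hy.2.symm)

lemma Gd_mul {s L : ℕ} (h : s ≤ L) :
    Gd s * Gd (L - s) = 2 ^ L * (1 / (√((s : ℝ) + 1) * √(((L - s : ℕ) : ℝ) + 1))) := by
  unfold Gd
  rw [div_mul_div_comm, ← pow_add, Nat.add_sub_cancel' h]
  ring

lemma Gd_mul_le {s L : ℕ} (h : s ≤ L) : Gd s * Gd (L - s) ≤ 2 ^ L / √((L : ℝ) + 1) := by
  rw [Gd_mul h, mul_one_div, ← Real.sqrt_mul (by positivity)]
  have h1 : (s : ℝ) + ((L - s : ℕ) : ℝ) = L := by rw [Nat.cast_sub h]; ring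
  have h2 : (0 : ℝ) ≤ s * ((L - s : ℕ) : ℝ) := by positivity
  gcongr
  nlinarith

lemma count_exc (j L : ℕ) :
    ∑ s ∈ range (L + 1), (if s < j ∨ L - s < j then (1 : ℝ) else 0) ≤ 2 * j := by
  have h1 : ∑ s ∈ range (L + 1), (if s < j then (1 : ℝ) else 0) ≤ j := by
    rw [sum_boole]
    have : ((range (L + 1)).filter fun s => s < j).card ≤ (range j).card :=
      card_le_card fun s hs => mem_range.2 (mem_filter.1 hs).2
    rw [card_range] at this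
    exact_mod_cast this
  have h2 : ∑ s ∈ range (L + 1), (if L - s < j then (1 : ℝ) else 0) ≤ j := by
    rw [← sum_range_reflect] at h1
    simpa using h1
  calc _ ≤ ∑ s ∈ range (L + 1), ((if s < j then (1 : ℝ) else 0) + if L - s < j then 1 else 0) := by
        refine sum_le_sum fun s _ => ?_
        by_cases a : s < j <;> by_cases b : L - s < j <;> simp [a, b]
    _ ≤ 2 * j := by rw [sum_add_distrib]; linarith

lemma main_sum (hP : ∀ q ∈ P, q.Prime ∧ Odd q) {B j : ℕ} (hB : 1 ≤ B)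
    (hB1 : ∏ q ∈ P, q ≤ 2 ^ B) (hB2 : P.card ≤ B) (hjB : 16 * B ≤ j) (L : ℕ) :
    ∑ s ∈ range (L + 1), ∑ d ∈ Icc 1 (2 ^ s), ∑ e ∈ Icc 1 (2 ^ (L - s)),
      (if PiC P κ μ d e then g d * g e else 0) ≤
      2 ^ L * (486 * (25 / 32) ^ P.card + 128 * j / √((L : ℝ) + 1)) := by
  have hs : ∀ s ∈ range (L + 1), ∑ d ∈ Icc 1 (2 ^ s), ∑ e ∈ Icc 1 (2 ^ (L - s)),
      (if PiC P κ μ d e then g d * g e else 0) ≤
      81 * (25 / 32) ^ P.card * 2 ^ L * (1 / (√((s : ℝ) + 1) * √(((L - s : ℕ) : ℝ) + 1))) +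
        64 * (2 ^ L / √((L : ℝ) + 1)) * (if s < j ∨ L - s < j then (1 : ℝ) else 0) := by
    intro s hs
    have hsL : s ≤ L := Nat.lt_succ_iff.1 (mem_range.1 hs)
    split_ifs with h
    · have h1 : ∑ d ∈ Icc 1 (2 ^ s), ∑ e ∈ Icc 1 (2 ^ (L - s)),
          (if PiC P κ μ d e then g d * g e else 0) ≤ (8 * Gd s) * (8 * Gd (L - s)) := by
        refine le_trans ?_ (mul_le_mul (sum_g s) (sum_g (L - s))
          (sum_nonneg fun m _ => (g_pos m).le) (by have := Gd_pos s; positivity))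
        rw [sum_mul_sum]
        refine sum_le_sum fun d _ => sum_le_sum fun e _ => ?_
        split_ifs
        · exact le_rfl
        · exact (mul_pos (g_pos d) (g_pos e)).le
      have h2 := Gd_mul_le hsL
      have h3 : (0 : ℝ) ≤ 81 * (25 / 32) ^ P.card * 2 ^ L *
          (1 / (√((s : ℝ) + 1) * √(((L - s : ℕ) : ℝ) + 1))) := by positivity
      linarith
    · push Not at h
      have h1 := mainT P hP κ μ hB hB1 hB2 (hjB.trans h.1) (hjB.trans h.2)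
      rw [mul_assoc _ (Gd s), Gd_mul hsL] at h1
      linarith
  refine (sum_le_sum hs).trans ?_
  rw [sum_add_distrib, ← mul_sum, ← mul_sum]
  have h1 := mul_le_mul_of_nonneg_left (conv L)
    (by positivity : (0 : ℝ) ≤ 81 * (25 / 32) ^ P.card * 2 ^ L)
  have h2 := mul_le_mul_of_nonneg_left (count_exc j L)
    (by positivity : (0 : ℝ) ≤ 64 * (2 ^ L / √((L : ℝ) + 1)))
  calc _ ≤ 81 * (25 / 32) ^ P.card * 2 ^ L * 6 + 64 * (2 ^ L / √((L : ℝ) + 1)) * (2 * j) :=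
        add_le_add h1 h2
    _ = _ := by ring

end CountAux

open CountAux in
theorem count_pairs : ∃ C ρ : ℝ, 0 < C ∧ 0 < ρ ∧ ρ < 1 ∧ ∀ (P : Finset ℕ),
    (∀ q ∈ P, q.Prime ∧ Odd q) → ∀ (κ μ : ℤ) (w K : ℕ),
    K ≤ (P.filter fun q => jacobiSym μ q ≠ 1).card → ∀ B : ℕ, 1 ≤ B → ∏ q ∈ P, q ≤ 2 ^ B →
    P.card ≤ B → ∀ (n : ℕ) (δ : ℝ), 32768 * (B : ℝ) ≤ δ * √((n : ℝ) + 1) →
    2 * (4 : ℝ) ^ B ≤ δ * 2 ^ n → ∀ X, 2 ^ n ≤ X →
      ((badSet P κ μ w X).card : ℝ) ≤ (C * 2 ^ P.card * ρ ^ w + C * (25 / 32) ^ K + δ) * X := by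
  classical
  obtain ⟨C1, ρ1, hC1, hρ1, hρ1', hbox⟩ := box
  obtain ⟨C2, ρ, hC2, hρ, hρ', hcomb⟩ := comb hρ1 hρ1'
  refine ⟨4 * C1 * C2 + 4000, ρ, by positivity, hρ, hρ',
    fun P hP κ μ w K hK B hB hB1 hB2 n δ hn hn' X hX1 => ?_⟩
  set j := 16 * B with hjB
  have hj := main_sum P κ μ hP hB hB1 hB2 hjB.ge
  have hδ : 0 < δ := (mul_pos_iff_of_pos_right (by positivity)).1
    (lt_of_lt_of_le (by positivity) hn')
  have hX0 : 0 < X := lt_of_lt_of_le (by positivity) hX1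
  obtain ⟨L, hL1, hL2⟩ : ∃ L : ℕ, 2 * X ≤ 2 ^ L ∧ 2 ^ L ≤ 4 * X := by
    refine ⟨Nat.log 2 X + 2, ?_, ?_⟩
    · have := Nat.lt_pow_succ_log_self (by norm_num : 1 < 2) X
      rw [pow_succ]
      omega
    · have := Nat.pow_log_le_self 2 hX0.ne'
      rw [pow_add]
      omega
  have hnL : n ≤ L := (Nat.pow_le_pow_iff_right (by norm_num : 1 < 2)).1 (by omega)
  have hL2' : (2 : ℝ) ^ L ≤ 4 * X := by exact_mod_cast hL2
  have hXr : (0 : ℝ) < X := by exact_mod_cast hX0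
  have e1 : 128 * (j : ℝ) / √((L : ℝ) + 1) ≤ δ / 16 := by
    have h1 : √((n : ℝ) + 1) ≤ √((L : ℝ) + 1) := by
      have : (n : ℝ) ≤ L := by exact_mod_cast hnL
      exact Real.sqrt_le_sqrt (by linarith)
    have h2 := mul_le_mul_of_nonneg_left h1 hδ.le
    rw [div_le_iff₀ (by positivity), hjB]
    push_cast
    linarith
  have e2 : ((∏ q ∈ P, q : ℕ) : ℝ) ^ 2 ≤ δ / 2 * X := by
    have h1 : ((∏ q ∈ P, q : ℕ) : ℝ) ≤ 2 ^ B := by exact_mod_cast hB1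
    have h2 : ((∏ q ∈ P, q : ℕ) : ℝ) ^ 2 ≤ 4 ^ B := by
      rw [show (4 : ℝ) = 2 ^ 2 by norm_num, ← pow_mul, mul_comm, pow_mul]
      gcongr
    have h3 : (2 : ℝ) ^ n ≤ X := by exact_mod_cast hX1
    have h4 := mul_le_mul_of_nonneg_left h3 hδ.le
    linarith
  have e3 : ((25 : ℝ) / 32) ^ P.card ≤ (25 / 32) ^ K :=
    pow_le_pow_of_le_one (by norm_num) (by norm_num) (hK.trans (card_filter_le _ _))
  have e4 : ((1 : ℝ) / 2) ^ K ≤ (25 / 32) ^ K :=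
    pow_le_pow_left₀ (by norm_num) (by norm_num) K
  have b1 : (((badSet P κ μ w X).filter fun x => ¬ x.2 ≠ 1).card : ℝ) ≤
      (25 / 32) ^ K * X + δ / 2 * X := by
    have h1 := eone P hP κ μ hK X
    have h2 : (((badSet P κ μ w X).filter fun x => ¬ x.2 ≠ 1).card : ℝ) ≤
        (((Icc 1 X).filter fun d => PiC P κ μ d 1).card : ℝ) := by
      exact_mod_cast card_one P κ μ w X
    have h3 := mul_le_mul_of_nonneg_right e4 hXr.le
    linarith
  have b2 : (((badSet P κ μ w X).filter fun x => x.2 ≠ 1).card : ℝ) ≤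
      2 ^ P.card * C1 * 2 ^ L * (C2 * ρ ^ w) +
        2 * (2 ^ L * (486 * (25 / 32) ^ P.card + 128 * j / √((L : ℝ) + 1))) := by
    refine (card_le P κ μ w hL1).trans ?_
    refine le_trans ?_ (add_le_add (mul_le_mul_of_nonneg_left (hcomb w L) (by positivity))
      (mul_le_mul_of_nonneg_left (hj L) (by norm_num)))
    rw [mul_sum, mul_sum, ← sum_add_distrib]
    refine sum_le_sum fun s hs => ?_
    have hsL : s ≤ L := Nat.lt_succ_iff.1 (mem_range.1 hs)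
    refine (sum_le_sum fun σ _ => hbox w s (L - s) κ μ _ _ (A_wt P κ w s σ) (B_wt μ w (L - s) σ)
      (A_nonneg P κ w s σ) (B_nonneg μ w (L - s) σ) (A_one ..) (B_one ..)).trans ?_
    rw [sum_add_distrib, sum_const, card_powerset, Nat.add_sub_cancel' hsL, ← mul_sum]
    refine add_le_add (le_of_eq ?_) (mul_le_mul_of_nonneg_left ?_ (by norm_num))
    · rw [nsmul_eq_mul]
      push_cast
      ring
    · rw [sum_comm]
      refine sum_le_sum fun d _ => ?_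
      rw [sum_comm]
      exact sum_le_sum fun e _ => sum_sigma ..
  have b3 := card_filter_add_card_filter_not (s := badSet P κ μ w X) fun x => x.2 ≠ 1
  rw [← b3]
  push_cast
  have hK0 : (0 : ℝ) ≤ (25 / 32) ^ K := by positivity
  have c1 : 2 ^ P.card * C1 * 2 ^ L * (C2 * ρ ^ w) ≤ 2 ^ P.card * C1 * (4 * X) * (C2 * ρ ^ w) := by
    gcongr
  have c2 : (2 : ℝ) ^ L * (486 * (25 / 32) ^ P.card + 128 * j / √((L : ℝ) + 1)) ≤
      (4 * X) * (486 * (25 / 32) ^ K + δ / 16) := by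
    gcongr
  have c3 : (0 : ℝ) ≤ 2 ^ P.card * ρ ^ w * X := by positivity
  have c4 : (0 : ℝ) ≤ (25 / 32) ^ K * X := by positivity
  have c5 : (0 : ℝ) ≤ C1 * C2 * ((25 / 32) ^ K * X) := by positivity
  nlinarith

end Pool.Agent.Lib.MP_90cf6f_nt.Den
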