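import Pool.Agent.Lib.MP_90cf6f_nt.Basic

/-!
Definitions for the density theorem.
-/

namespace Pool.Agent.Lib.MP_90cf6f_nt.Den

open Finset

/-- The weight `2 ^ (- ω n)`. -/
noncomputable def g (n : ℕ) : ℝ := (1 / 2) ^ n.primeFactors.card

/-- The Jacobi symbol as a real number. -/
noncomputable def J (a : ℤ) (n : ℕ) : ℝ := (jacobiSym a n : ℤ)

/-- Odd and squarefree. -/
def OS (n : ℕ) : Prop := Odd n ∧ Squarefree n

/-- The size of the sum of `g` up to `2 ^ a`. -/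
noncomputable def Gd (a : ℕ) : ℝ := 2 ^ a / √((a : ℝ) + 1)

/-- All prime factors exceed `2 ^ w`. -/
def Rough (w n : ℕ) : Prop := ∀ p ∈ n.primeFactors, 2 ^ w < p

/-- The condition at the auxiliary primes. -/
def PiC (P : Finset ℕ) (κ μ : ℤ) (d e : ℕ) : Prop :=
  ∀ q ∈ P, jacobiSym (κ * d) q = 1 ∨ jacobiSym (μ * e) q = 1

/-- A Selmer element that the auxiliary primes do not detect. -/
def BadPair (P : Finset ℕ) (κ μ : ℤ) (d e : ℕ) : Prop :=
  (∀ p ∈ d.primeFactors, jacobiSym (μ * e) p = 1) ∧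
    (∀ p ∈ e.primeFactors, jacobiSym (κ * d) p = 1) ∧ PiC P κ μ d e

/-- The weight of a dyadic box. -/
noncomputable def cw (ρ : ℝ) (w a b i k : ℕ) : ℝ :=
  if w ≤ min a b ∧ min i k ≤ min a b then
    ρ ^ min a b / (√(((max a b : ℕ) : ℝ) + 1) * √(((max i k : ℕ) : ℝ) + 1)) else 0

/-- One term of the expanded count. -/
noncomputable def tm (κ μ : ℤ) (A B : ℕ → ℝ) (d0 d1 e0 e1 : ℕ) : ℝ :=
  A (d0 * d1) * B (e0 * e1) * g (d0 * d1) * g (e0 * e1) * J (μ * ((e0 * e1 : ℕ) : ℤ)) d1 *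
    J (κ * ((d0 * d1 : ℕ) : ℤ)) e1

/-- The detector of the condition that `x` is a residue at all primes of `d`. -/
noncomputable def Fq (x : ℤ) (d : ℕ) : ℝ := g d * ∑ d1 ∈ d.divisors, J x d1

/-- A weight bounded by one that lives on rough odd squarefree numbers up to `2 ^ s`. -/
def Wt (w s : ℕ) (A : ℕ → ℝ) : Prop :=
  (∀ d, |A d| ≤ 1) ∧ ∀ d, A d ≠ 0 → OS d ∧ Rough w d ∧ d ≤ 2 ^ s

open scoped Classical in
/-- The bad pairs with product at most `X`. -/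
noncomputable def badSet (P : Finset ℕ) (κ μ : ℤ) (w X : ℕ) : Finset (ℕ × ℕ) :=
  (Icc 1 X ×ˢ Icc 1 X).filter fun x => 1 < x.1 ∧ x.1 * x.2 ≤ X ∧ OS x.1 ∧ OS x.2 ∧
    Rough w x.1 ∧ Rough w x.2 ∧ BadPair P κ μ x.1 x.2

lemma g_pos (n : ℕ) : 0 < g n := by unfold g; positivity

lemma g_le_one (n : ℕ) : g n ≤ 1 := pow_le_one₀ (by norm_num) (by norm_num)

lemma g_one : g 1 = 1 := by simp [g]

lemma g_mul {m n : ℕ} (h : m.Coprime n) : g (m * n) = g m * g n := by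
  unfold g
  rw [h.primeFactors_mul, card_union_of_disjoint h.disjoint_primeFactors, pow_add]

lemma abs_J_le (a : ℤ) (n : ℕ) : |J a n| ≤ 1 := by
  unfold J
  rcases jacobiSym.trichotomy a n with h | h | h <;> simp [h]

lemma J_mul_left (a b : ℤ) (n : ℕ) : J (a * b) n = J a n * J b n := by
  simp [J, jacobiSym.mul_left]

lemma J_mul_right (a : ℤ) {m n : ℕ} (hm : m ≠ 0) (hn : n ≠ 0) : J a (m * n) = J a m * J a n := by
  simp [J, jacobiSym.mul_right' a hm hn]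

lemma J_one_right (a : ℤ) : J a 1 = 1 := by simp [J]

lemma OS.ne_zero {n : ℕ} (h : OS n) : n ≠ 0 := h.2.ne_zero

lemma OS.of_dvd {m n : ℕ} (h : OS n) (hm : m ∣ n) : OS m :=
  ⟨h.1.of_dvd_nat hm, h.2.squarefree_of_dvd hm⟩

lemma OS.coprime {m n : ℕ} (h : OS (m * n)) : m.Coprime n :=
  Nat.coprime_of_squarefree_mul h.2

lemma Gd_pos (a : ℕ) : 0 < Gd a := by unfold Gd; positivity

lemma cw_nonneg {ρ : ℝ} (h : 0 ≤ ρ) (w a b i k : ℕ) : 0 ≤ cw ρ w a b i k := by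
  unfold cw
  split_ifs <;> positivity

lemma cw_swap (ρ : ℝ) (w a b i k : ℕ) : cw ρ w a b i k = cw ρ w b a k i := by
  unfold cw
  rw [min_comm a b, min_comm i k, max_comm a b, max_comm i k]

lemma tm_swap (κ μ : ℤ) (A B : ℕ → ℝ) (d0 d1 e0 e1 : ℕ) :
    tm κ μ A B d0 d1 e0 e1 = tm μ κ B A e0 e1 d0 d1 := by
  unfold tm
  ring

/-- A divisor `> 1` of a rough number is large. -/
lemma Rough.lt {w n d : ℕ} (h : Rough w n) (hn : n ≠ 0) (hd : d ∣ n) (h1 : 2 ≤ d) : 2 ^ w < d := by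
  have hp : d.minFac.Prime := Nat.minFac_prime (by omega)
  exact (h _ (Nat.mem_primeFactors.2 ⟨hp, (Nat.minFac_dvd d).trans hd, hn⟩)).trans_le
    (Nat.minFac_le (by omega))

end Pool.Agent.Lib.MP_90cf6f_nt.Den
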