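import Pool.Agent.Lib.MP_90cf6f_nt.Den.Defs
import Pool.Agent.Lib.MP_90cf6f_nt.Den.Alg

/-!
The descent.
-/

namespace Pool.Agent.Lib.MP_90cf6f_nt.Den

open Finset

theorem good_twist {b : ℕ} (hb : OS b) {P : Finset ℕ} (hP : ∀ q ∈ P, q.Prime ∧ q % 4 = 3 ∧ ¬q ∣ b)
    (h : ∀ d e, d * e = b → 1 < d →
      ¬BadPair P 1 2 d e ∧ ¬BadPair P 1 (-2) d e ∧ ¬BadPair P (-1) 2 d e) :
    ∃ S ⊆ P, ∀ x y : ℚ, y ^ 2 = x ^ 3 + 2 * (b : ℚ) * ((∏ q ∈ S, q : ℕ) : ℚ) ^ 2 * x → y = 0 := by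
  refine alg_main hb.2 hb.1 hP ?_
  rintro ⟨d, e, k, m, h1, h2, h3, h4, h5, h6⟩
  have h7 : BadPair P k m d e :=
    ⟨fun p hp => h4 p (Nat.prime_of_mem_primeFactors hp) (Nat.dvd_of_mem_primeFactors hp),
      fun p hp => h5 p (Nat.prime_of_mem_primeFactors hp) (Nat.dvd_of_mem_primeFactors hp), h6⟩
  obtain ⟨a1, a2, a3⟩ := h d e h1 h2
  rcases h3 with h3 | h3 | h3 <;> obtain ⟨rfl, rfl⟩ := Prod.mk.inj h3
  exacts [a1 h7, a2 h7, a3 h7]

theorem rank_zero {t s : ℚ} (hs : s ≠ 0) (h : ∀ x y : ℚ, y ^ 2 = x ^ 3 + t * x → y = 0) :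
    ¬0 < Module.rank ℤ (curve (t * s ^ 4)).toAffine.Point := by
  rw [not_lt, nonpos_iff_eq_zero, rank_eq_zero_iff]
  intro P
  refine ⟨2, two_ne_zero, ?_⟩
  rw [two_smul]
  rcases P with _ | ⟨x, y, hxy⟩
  · rfl
  · have e := (WeierstrassCurve.Affine.equation_iff _ _).1 hxy.1
    simp only [curve, WeierstrassCurve.toAffine] at e
    have y0 : y = 0 := by
      have := h (x / s ^ 2) (y / s ^ 3) (by field_simp; linear_combination e)
      simpa [hs] using this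
    exact WeierstrassCurve.Affine.Point.add_self_of_Y_eq (by
      simp [y0, WeierstrassCurve.Affine.negY, curve, WeierstrassCurve.toAffine])

end Pool.Agent.Lib.MP_90cf6f_nt.Den
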