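import Pool.Agent.Lib.MP_90cf6f_nt.Den.Defs

/-!
Auxiliary primes and sums over smooth numbers.
-/

namespace Pool.Agent.Lib.MP_90cf6f_nt.Den

open Finset

lemma exists_prime_mod {n r : ℕ} (h0 : n ≠ 0) (hn : n % 8 = r) (hr : r ≠ 1)
    (h : ∀ p, p.Prime → p ∣ n → p % 8 = 1 ∨ p % 8 = r) : ∃ p, p.Prime ∧ p ∣ n ∧ p % 8 = r := by
  by_contra hc
  have h1 : ∀ m, m ≠ 0 → m ∣ n → m % 8 = 1 := by
    intro m
    induction m using induction_on_primes with
    | zero => exact fun h => absurd rfl h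
    | one => exact fun _ _ => rfl
    | prime_mul p a hp ih =>
      intro h2 h3
      have h4 : p % 8 = 1 := (h p hp ((Dvd.intro _ rfl).trans h3)).resolve_right
        fun h5 => hc ⟨p, hp, (Dvd.intro _ rfl).trans h3, h5⟩
      have h5 := ih (fun h6 => h2 (by rw [h6, mul_zero])) ((Dvd.intro_left _ rfl).trans h3)
      rw [Nat.mul_mod, h4, h5]
  exact hr (hn.symm.trans (h1 n h0 dvd_rfl))

lemma odd_sq_mod {y : ℕ} (hy : Odd y) : y ^ 2 % 8 = 1 := by
  have h1 : y % 2 = 1 := Nat.odd_iff.1 hy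
  have h2 : y % 8 = 1 ∨ y % 8 = 3 ∨ y % 8 = 5 ∨ y % 8 = 7 := by omega
  rw [Nat.pow_mod]
  rcases h2 with h | h | h | h <;> rw [h]

lemma step3 {x : ℕ} (hx : Odd x) :
    ∃ q, q.Prime ∧ q % 8 = 3 ∧ q ≤ 9 * x ^ 2 ∧ (q : ℤ) ∣ 1 * (x : ℤ) ^ 2 + 2 := by
  have h1 := odd_sq_mod hx
  have h2 : ∀ p, p.Prime → p ∣ x ^ 2 + 2 → p ≠ 2 := by
    rintro p _ hd rfl
    omega
  obtain ⟨q, hq, hd, hm⟩ := exists_prime_mod (n := x ^ 2 + 2) (r := 3) (by omega) (by omega)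
    (by omega) fun p hp hd => by
      have := Fact.mk hp
      refine (ZMod.exists_sq_eq_neg_two_iff (h2 p hp hd)).1 ⟨x, ?_⟩
      have h3 := (ZMod.natCast_eq_zero_iff _ _).2 hd
      push_cast at h3
      linear_combination -h3
  refine ⟨q, hq, hm, (Nat.le_of_dvd (by omega) hd).trans (by omega), ?_⟩
  rw [one_mul]
  exact_mod_cast hd

lemma step7 {x : ℕ} (hx : Odd x) :
    ∃ q, q.Prime ∧ q % 8 = 7 ∧ q ≤ 9 * x ^ 2 ∧ (q : ℤ) ∣ 9 * (x : ℤ) ^ 2 + -2 := by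
  have h1 := odd_sq_mod hx
  obtain ⟨n, hn⟩ : ∃ n, n + 2 = 9 * x ^ 2 := ⟨9 * x ^ 2 - 2, by omega⟩
  have h2 : ∀ p, p.Prime → p ∣ n → p ≠ 2 := by
    rintro p _ hd rfl
    omega
  obtain ⟨q, hq, hd, hm⟩ := exists_prime_mod (n := n) (r := 7) (by omega) (by omega)
    (by omega) fun p hp hd => by
      have := Fact.mk hp
      refine (ZMod.exists_sq_eq_two_iff (h2 p hp hd)).1 ⟨3 * x, ?_⟩
      have h3 := (ZMod.natCast_eq_zero_iff _ _).2 hd
      have h4 := congrArg (Nat.cast : ℕ → ZMod p) hn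
      push_cast at h4
      linear_combination h4 - h3
  refine ⟨q, hq, hm, (Nat.le_of_dvd (by omega) hd).trans (by omega), ?_⟩
  have h4 := congrArg (Nat.cast : ℕ → ℤ) hn
  push_cast at h4
  rw [show 9 * (x : ℤ) ^ 2 + -2 = n by linarith]
  exact_mod_cast hd

lemma many {r : ℕ} (hr : r % 2 = 1) {u v : ℤ} (hv : v ∣ 2)
    (h : ∀ x : ℕ, Odd x → ∃ q, q.Prime ∧ q % 8 = r ∧ q ≤ 9 * x ^ 2 ∧ (q : ℤ) ∣ u * (x : ℤ) ^ 2 + v)
    (K : ℕ) (hK : 1 ≤ K) :
    ∃ P : Finset ℕ, P.card = K ∧ ∀ q ∈ P, q.Prime ∧ q % 8 = r ∧ q ≤ 2 ^ (16 * K) := by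
  set A := ∏ p ∈ (Nat.primesLE (2 * K)).erase 2, p with hA
  have hAo : Odd A := Finset.prod_induction _ Odd (fun a b ha hb => ha.mul hb) odd_one
    fun p hp => (Nat.mem_primesLE.1 (mem_of_mem_erase hp)).2.odd_of_ne_two (ne_of_mem_erase hp)
  have hAle : A ≤ 2 ^ (4 * K) := by
    calc A ≤ primorial (2 * K) := by
          rw [primorial_eq_prod_primesLE]
          exact prod_le_prod_of_subset_of_one_le' (erase_subset _ _)
            fun p hp _ => (Nat.mem_primesLE.1 hp).2.one_le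
      _ ≤ 4 ^ (2 * K) := primorial_le_four_pow _
      _ = 2 ^ (4 * K) := by rw [show (4 : ℕ) * K = 2 * (2 * K) by ring, pow_mul 2 2]; norm_num
  choose q hq using fun j : ℕ => h (A * (2 * j + 1)) (hAo.mul (odd_two_mul_add_one j))
  have hbig : ∀ j, 2 * K < q j := by
    intro j
    obtain ⟨h1, h2, -, h4⟩ := hq j
    by_contra hc
    have h5 : q j ∣ A := dvd_prod_of_mem _
      (mem_erase.2 ⟨by omega, Nat.mem_primesLE.2 ⟨by omega, h1⟩⟩)
    have h6 : (q j : ℤ) ∣ u * ((A * (2 * j + 1) : ℕ) : ℤ) ^ 2 :=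
      (dvd_pow (Int.natCast_dvd_natCast.2 (h5.mul_right _)) two_ne_zero).mul_left u
    have h7 : q j ∣ 2 := by exact_mod_cast ((dvd_add_right h6).1 h4).trans hv
    have h8 := (Nat.prime_dvd_prime_iff_eq h1 Nat.prime_two).1 h7
    omega
  have hlt : ∀ i j, i < j → j < K → q i ≠ q j := by
    intro i j hij hj he
    obtain ⟨h1, h2, -, h4⟩ := hq i
    obtain ⟨-, -, -, h5⟩ := hq j
    rw [← he] at h5
    have hp := Nat.prime_iff_prime_int.1 h1
    have hb := hbig i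
    have h6 : (q i : ℤ) ∣ (u * (A : ℤ) ^ 2) * ((2 * 2 : ℕ) * (((j - i : ℕ) : ℤ) * (i + j + 1 : ℕ))) := by
      have := dvd_sub h5 h4
      rw [Nat.cast_sub hij.le]
      push_cast at this ⊢
      refine Dvd.dvd.trans this (dvd_of_eq ?_)
      ring
    have h7 : ¬(q i : ℤ) ∣ u * (A : ℤ) ^ 2 := fun hd => by
      have h8 : (q i : ℤ) ∣ u * ((A * (2 * i + 1) : ℕ) : ℤ) ^ 2 := by
        push_cast
        rw [mul_pow, ← mul_assoc]
        exact hd.mul_right _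
      have h9 : q i ∣ 2 := by exact_mod_cast ((dvd_add_right h8).1 h4).trans hv
      have h10 := (Nat.prime_dvd_prime_iff_eq h1 Nat.prime_two).1 h9
      omega
    have h8 : q i ∣ 2 * 2 * ((j - i) * (i + j + 1)) := by
      exact_mod_cast (hp.dvd_or_dvd h6).resolve_left h7
    rcases (Nat.Prime.dvd_mul h1).1 h8 with h9 | h9
    · have h10 := (Nat.prime_dvd_prime_iff_eq h1 Nat.prime_two).1
        (((Nat.Prime.dvd_mul h1).1 h9).elim id id)
      omega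
    · rcases (Nat.Prime.dvd_mul h1).1 h9 with h10 | h10
      · have := Nat.le_of_dvd (by omega) h10
        omega
      · have := Nat.le_of_dvd (by omega) h10
        omega
  refine ⟨(range K).image q, ?_, fun p hp => ?_⟩
  · rw [card_image_of_injOn, card_range]
    intro i hi j hj he
    have hi' := mem_range.1 (mem_coe.1 hi)
    have hj' := mem_range.1 (mem_coe.1 hj)
    rcases lt_trichotomy i j with h1 | h1 | h1
    · exact absurd he (hlt i j h1 hj')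
    · exact h1
    · exact absurd he.symm (hlt j i h1 hi')
  · obtain ⟨j, hj, rfl⟩ := mem_image.1 hp
    obtain ⟨h1, h2, h3, -⟩ := hq j
    refine ⟨h1, h2, h3.trans ?_⟩
    have hj' := mem_range.1 hj
    have h4 : 2 * K < 2 ^ (2 * K) := Nat.lt_two_pow_self
    have h5 : A * (2 * j + 1) ≤ 2 ^ (4 * K) * 2 ^ (2 * K) := Nat.mul_le_mul hAle (by omega)
    have h6 : 9 ≤ 2 ^ (4 * K) := le_trans (by norm_num)
      (Nat.pow_le_pow_right (by norm_num) (by omega : 4 ≤ 4 * K))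
    calc 9 * (A * (2 * j + 1)) ^ 2 ≤ 2 ^ (4 * K) * (2 ^ (4 * K) * 2 ^ (2 * K)) ^ 2 := by gcongr
      _ = 2 ^ (16 * K) := by ring

/-- The auxiliary primes. -/
theorem aux_primes (K : ℕ) (hK : 1 ≤ K) : ∃ P : Finset ℕ, P.card ≤ 2 * K ∧
    (∀ q ∈ P, q.Prime ∧ q % 4 = 3 ∧ q ≤ 2 ^ (16 * K)) ∧
    K ≤ (P.filter fun q => jacobiSym 2 q ≠ 1).card ∧
    K ≤ (P.filter fun q => jacobiSym (-2) q ≠ 1).card ∧ ∏ q ∈ P, q ≤ 2 ^ (32 * K ^ 2) := by
  obtain ⟨P3, a1, a2⟩ := many (r := 3) rfl dvd_rfl (fun x hx => step3 hx) K hK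
  obtain ⟨P7, b1, b2⟩ := many (r := 7) rfl (neg_dvd.2 dvd_rfl) (fun x hx => step7 hx) K hK
  have hc : (P3 ∪ P7).card ≤ 2 * K := (card_union_le _ _).trans (by omega)
  have hq : ∀ q ∈ P3 ∪ P7, q.Prime ∧ q % 4 = 3 ∧ q ≤ 2 ^ (16 * K) := fun q hq => by
    rcases mem_union.1 hq with h | h
    · exact ⟨(a2 q h).1, by have := (a2 q h).2.1; omega, (a2 q h).2.2⟩
    · exact ⟨(b2 q h).1, by have := (b2 q h).2.1; omega, (b2 q h).2.2⟩
  refine ⟨P3 ∪ P7, hc, hq, ?_, ?_, ?_⟩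
  · rw [← a1]
    refine card_le_card fun q hq => mem_filter.2 ⟨mem_union_left _ hq, ?_⟩
    have h1 := (a2 q hq).2.1
    rw [jacobiSym.at_two (Nat.odd_iff.2 (by omega)), ZMod.χ₈_nat_mod_eight, h1]
    decide
  · rw [← b1]
    refine card_le_card fun q hq => mem_filter.2 ⟨mem_union_right _ hq, ?_⟩
    have h1 := (b2 q hq).2.1
    rw [jacobiSym.at_neg_two (Nat.odd_iff.2 (by omega)), ZMod.χ₈'_nat_eq_if_mod_eight]
    have h2 : q % 2 = 1 := by omega
    simp [h1, h2]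
  · refine (prod_le_pow_card _ _ _ fun q h => (hq q h).2.2).trans ?_
    rw [← pow_mul]
    refine Nat.pow_le_pow_right (by norm_num) ?_
    calc 16 * K * (P3 ∪ P7).card ≤ 16 * K * (2 * K) := Nat.mul_le_mul_left _ hc
      _ = 32 * K ^ 2 := by ring

theorem smooth_sum (W : Finset ℕ) (hW : ∀ p ∈ W, p.Prime) (f : ℕ →* ℝ) (h0 : ∀ n, 0 ≤ f n)
    (h34 : ∀ p, p.Prime → f p ≤ 3 / 4) (T : Finset ℕ) (hT : ∀ s ∈ T, s ∈ Nat.factoredNumbers W) :
    ∑ s ∈ T, f s ≤ Real.exp (4 * ∑ p ∈ W, f p) := by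
  have h1 := (EulerProduct.summable_and_hasSum_factoredNumbers_prod_filter_prime_geometric
    (f := f) (fun {p} hp => by
      rw [Real.norm_eq_abs, abs_of_nonneg (h0 p)]
      linarith [h34 p hp]) W).2
  have h2 := sum_le_hasSum (T.subtype (· ∈ Nat.factoredNumbers W)) (fun i _ => h0 _) h1
  rw [filter_true_of_mem hW] at h2
  have h3 : ∑ s ∈ T.subtype (· ∈ Nat.factoredNumbers W), f s = ∑ s ∈ T, f s :=
    sum_subtype_of_mem (fun s => f s) hT
  rw [← h3]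
  refine h2.trans ?_
  rw [mul_sum, Real.exp_sum]
  refine prod_le_prod (fun p hp => ?_) fun p hp => ?_
  · exact inv_nonneg.2 (by linarith [h34 p (hW p hp)])
  · have h5 := h34 p (hW p hp)
    have h6 := h0 p
    refine le_trans ?_ (Real.add_one_le_exp _)
    rw [inv_le_iff_one_le_mul₀ (by linarith)]
    nlinarith

lemma block (i : ℕ) :
    i * (Nat.primesLE (2 ^ (i + 1)) \ Nat.primesLE (2 ^ i)).card ≤ 4 * 2 ^ i := by
  set B := Nat.primesLE (2 ^ (i + 1)) \ Nat.primesLE (2 ^ i) with hB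
  have h1 : (2 ^ i) ^ B.card ≤ ∏ p ∈ B, p := by
    refine pow_card_le_prod _ _ _ fun p hp => ?_
    obtain ⟨h1, h2⟩ := mem_sdiff.1 hp
    rw [Nat.mem_primesLE] at h1 h2
    by_contra hc
    exact h2 ⟨by omega, h1.2⟩
  have h2 : ∏ p ∈ B, p ≤ primorial (2 ^ (i + 1)) := by
    rw [primorial_eq_prod_primesLE]
    exact prod_le_prod_of_subset_of_one_le' sdiff_subset
      fun p hp _ => (Nat.mem_primesLE.1 hp).2.one_le
  have h3 := (h1.trans h2).trans (primorial_le_four_pow _)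
  rw [← pow_mul, show (4 : ℕ) = 2 ^ 2 by norm_num, ← pow_mul,
    Nat.pow_le_pow_iff_right (by norm_num)] at h3
  rw [pow_succ] at h3
  omega

theorem recip_primes (w : ℕ) (hw : 1 ≤ w) :
    ∑ p ∈ Nat.primesLE (2 ^ w), ((p : ℝ))⁻¹ ≤ 1 / 2 + 8 * Real.log w := by
  induction w, hw using Nat.le_induction with
  | base =>
    have : Nat.primesLE (2 ^ 1) = {2} := by decide
    rw [this]
    simp
  | succ i hi ih =>
    have hs : Nat.primesLE (2 ^ i) ⊆ Nat.primesLE (2 ^ (i + 1)) := fun p hp => by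
      rw [Nat.mem_primesLE] at hp ⊢
      exact ⟨hp.1.trans (Nat.pow_le_pow_right (by norm_num) (by omega)), hp.2⟩
    rw [← sum_sdiff hs]
    have hi' : (1 : ℝ) ≤ i := by exact_mod_cast hi
    have h1 : ∑ p ∈ Nat.primesLE (2 ^ (i + 1)) \ Nat.primesLE (2 ^ i), ((p : ℝ))⁻¹ ≤
        ((Nat.primesLE (2 ^ (i + 1)) \ Nat.primesLE (2 ^ i)).card : ℝ) * ((2 : ℝ) ^ i)⁻¹ := by
      rw [← nsmul_eq_mul]
      refine sum_le_card_nsmul _ _ _ fun p hp => ?_
      obtain ⟨h1, h2⟩ := mem_sdiff.1 hp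
      rw [Nat.mem_primesLE] at h1 h2
      refine inv_anti₀ (by positivity) ?_
      have : 2 ^ i ≤ p := by
        by_contra hc
        exact h2 ⟨by omega, h1.2⟩
      exact_mod_cast this
    have h2 : (i : ℝ) * ((Nat.primesLE (2 ^ (i + 1)) \ Nat.primesLE (2 ^ i)).card : ℝ) ≤
        4 * 2 ^ i := by exact_mod_cast block i
    have h3 : ((Nat.primesLE (2 ^ (i + 1)) \ Nat.primesLE (2 ^ i)).card : ℝ) * ((2 : ℝ) ^ i)⁻¹ ≤
        4 / i := by
      rw [← div_eq_mul_inv, div_le_div_iff₀ (by positivity) (by linarith)]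
      linarith
    have h4 : Real.log ((i : ℝ) / (i + 1)) ≤ (i : ℝ) / (i + 1) - 1 :=
      Real.log_le_sub_one_of_pos (by positivity)
    rw [Real.log_div (by linarith) (by linarith)] at h4
    have h5 : (i : ℝ) / (i + 1) - 1 ≤ -(1 / (2 * i)) := by
      rw [div_sub_one (by linarith), le_neg, ← neg_div, div_le_div_iff₀ (by linarith) (by linarith)]
      linarith
    have h6 : (4 : ℝ) / i = 8 * (1 / (2 * i)) := by field_simp; norm_num
    push_cast
    linarith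

/-- The smooth part and the rough part. -/
theorem split (W : Finset ℕ) {a : ℕ} (ha : a ≠ 0) :
    ∃ s b, s * b = a ∧ s ∈ Nat.factoredNumbers W ∧ ∀ p, p.Prime → p ∣ b → p ∉ W := by
  induction a using induction_on_primes with
  | zero => exact absurd rfl ha
  | one => exact ⟨1, 1, rfl, Nat.mem_factoredNumbers'.2 fun p hp h => absurd h hp.not_dvd_one,
      fun p hp h => absurd h hp.not_dvd_one⟩
  | prime_mul p a hp ih =>
    obtain ⟨s, b, h1, h2, h3⟩ := ih fun h => ha (by rw [h, mul_zero])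
    by_cases hpW : p ∈ W
    · refine ⟨p * s, b, by rw [mul_assoc, h1], Nat.mem_factoredNumbers'.2 fun q hq hd => ?_, h3⟩
      rcases (Nat.Prime.dvd_mul hq).1 hd with h | h
      · rwa [(Nat.prime_dvd_prime_iff_eq hq hp).1 h]
      · exact Nat.mem_factoredNumbers'.1 h2 q hq h
    · refine ⟨s, p * b, by rw [mul_left_comm, h1], h2, fun q hq hd => ?_⟩
      rcases (Nat.Prime.dvd_mul hq).1 hd with h | h
      · rwa [(Nat.prime_dvd_prime_iff_eq hq hp).1 h]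
      · exact h3 q hq h

/-- Rankin's bound. -/
theorem rankin {w : ℕ} (hw : 2 ≤ w) (k : ℕ) (T : Finset ℕ)
    (hT : ∀ s ∈ T, s ∈ Nat.factoredNumbers (Nat.primesLE (2 ^ w)) ∧ 2 ^ (w * k) ≤ s) :
    ∑ s ∈ T, ((s : ℝ))⁻¹ ≤ (1 / 2) ^ k * (Real.exp 4 * (w : ℝ) ^ 64) := by
  have hw' : (2 : ℝ) ≤ w := by exact_mod_cast hw
  have hη : ((w : ℝ))⁻¹ ≤ 1 / 2 := by
    rw [one_div]
    exact inv_anti₀ (by norm_num) hw'
  let f : ℕ →* ℝ := ⟨⟨fun n => (n : ℝ) ^ ((w : ℝ))⁻¹ * ((n : ℝ))⁻¹, by simp⟩, fun a b => by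
    simp only [Nat.cast_mul, mul_inv]
    rw [Real.mul_rpow (Nat.cast_nonneg a) (Nat.cast_nonneg b)]
    ring⟩
  have hf : ∀ n, f n = (n : ℝ) ^ ((w : ℝ))⁻¹ * ((n : ℝ))⁻¹ := fun _ => rfl
  have hroot : ∀ j : ℕ, (((2 ^ (w * j) : ℕ) : ℝ)) ^ ((w : ℝ))⁻¹ = 2 ^ j := fun j => by
    rw [mul_comm, pow_mul, Nat.cast_pow, Real.pow_rpow_inv_natCast (by positivity) (by omega)]
    norm_num
  have h1 := smooth_sum (Nat.primesLE (2 ^ w)) (fun p hp => (Nat.mem_primesLE.1 hp).2) f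
    (fun n => by rw [hf]; positivity) (fun p hp => by
      have a1 : (2 : ℝ) ≤ p := by exact_mod_cast hp.two_le
      have a2 : (p : ℝ) ^ ((w : ℝ))⁻¹ ≤ √p := by
        rw [Real.sqrt_eq_rpow]
        exact Real.rpow_le_rpow_of_exponent_le (by linarith) hη
      have a3 : √(p : ℝ) ≤ 3 / 4 * p := by
        rw [Real.sqrt_le_left (by positivity)]
        nlinarith
      rw [hf, ← div_eq_mul_inv, div_le_iff₀ (by linarith)]
      linarith) T fun s hs => (hT s hs).1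
  have h2 : ∑ p ∈ Nat.primesLE (2 ^ w), f p ≤ 2 * ∑ p ∈ Nat.primesLE (2 ^ w), ((p : ℝ))⁻¹ := by
    rw [mul_sum]
    refine sum_le_sum fun p hp => ?_
    rw [hf]
    refine mul_le_mul_of_nonneg_right ?_ (by positivity)
    have a1 := hroot 1
    rw [mul_one, pow_one] at a1
    rw [← a1]
    exact Real.rpow_le_rpow (Nat.cast_nonneg p) (Nat.cast_le.2 (Nat.mem_primesLE.1 hp).1)
      (by positivity)
  have h3 := recip_primes w (by omega)
  have h4 : Real.exp (4 * ∑ p ∈ Nat.primesLE (2 ^ w), f p) ≤ Real.exp 4 * (w : ℝ) ^ 64 := by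
    have a1 : Real.exp (4 + (64 : ℕ) * Real.log w) = Real.exp 4 * (w : ℝ) ^ 64 := by
      rw [Real.exp_add, Real.exp_nat_mul, Real.exp_log (by linarith)]
    rw [← a1]
    refine Real.exp_le_exp.2 ?_
    push_cast
    linarith
  refine le_trans ?_ (mul_le_mul_of_nonneg_left (h1.trans h4) (by positivity))
  rw [mul_sum]
  refine sum_le_sum fun s hs => ?_
  have a1 : (2 : ℝ) ^ k ≤ (s : ℝ) ^ ((w : ℝ))⁻¹ := by
    rw [← hroot k]
    exact Real.rpow_le_rpow (Nat.cast_nonneg _) (Nat.cast_le.2 (hT s hs).2) (by positivity)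
  rw [hf, ← mul_assoc]
  refine le_mul_of_one_le_left (by positivity) ?_
  rw [one_div, inv_pow, ← div_eq_inv_mul, le_div_iff₀ (by positivity), one_mul]
  exact a1

end Pool.Agent.Lib.MP_90cf6f_nt.Den
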