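import Pool.Agent.Lib.MP_90cf6f_nt.Den.Count
import Pool.Agent.Lib.MP_90cf6f_nt.Den.Desc
import Pool.Agent.Lib.MP_90cf6f_nt.Den.Primes

/-!
The density theorem.
-/

namespace Pool.Agent.Lib.MP_90cf6f_nt.Den

open Finset
open scoped Classical

/-- The integers `a ≤ X` all of whose twists `a Q`, `2 ≤ Q ≤ N`, have positive rank. -/
noncomputable def surv (N X : ℕ) : Finset ℕ :=
  (Icc 1 X).filter fun a : ℕ => ∀ Q : ℕ, 2 ≤ Q → Q ≤ N →
    0 < Module.rank ℤ (curve ((a : ℚ) * (Q : ℚ))).toAffine.Point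

namespace FinalAux

lemma card_mult (X r : ℕ) : (((Icc 1 X).filter (r ∣ ·)).card : ℝ) ≤ X * ((r : ℝ))⁻¹ := by
  have h : Icc 1 X = Ioc 0 X := by
    ext a
    simp only [mem_Icc, mem_Ioc]
    omega
  rw [h, Nat.Ioc_filter_dvd_card_eq_div, ← div_eq_mul_inv]
  exact Nat.cast_div_le

/-- The smooth numbers in a finite set. -/
noncomputable def sm (w : ℕ) (T : Finset ℕ) : Finset ℕ :=
  T.filter fun s => s ∈ Nat.factoredNumbers (Nat.primesLE (2 ^ w))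

/-- The covering of the surviving set. -/
lemma cover {P : Finset ℕ} {w M N X : ℕ} (hP : ∀ q ∈ P, q.Prime ∧ q % 4 = 3 ∧ q ≤ 2 ^ w)
    (hw : 1 ≤ w) (hN : 2 * (M ^ 3 * (∏ p ∈ P, p) ^ 2) ≤ N) :
    surv N X ⊆ ((sm w (Icc M X)).biUnion fun s => (Icc 1 X).filter (s ∣ ·)) ∪
      ((Ioo (2 ^ w) (X + 1)).biUnion fun n => (Icc 1 X).filter (n ^ 2 ∣ ·)) ∪
      (sm w (Icc 1 M)).biUnion fun s =>
        (badSet P 1 2 w (X / s) ∪ badSet P 1 (-2) w (X / s) ∪ badSet P (-1) 2 w (X / s)).image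
          fun x => s * (x.1 * x.2) := by
  intro a ha
  obtain ⟨haX, hr⟩ := mem_filter.1 ha
  obtain ⟨h1, h2⟩ := mem_Icc.1 haX
  by_contra hc
  rw [mem_union, mem_union, not_or, not_or] at hc
  obtain ⟨⟨c1, c2⟩, c3⟩ := hc
  obtain ⟨s, b, hsb, hs, hb⟩ := split (Nat.primesLE (2 ^ w)) (a := a) (by omega)
  have hs0 : s ≠ 0 := hs.1
  have hb0 : b ≠ 0 := fun h => by rw [h, mul_zero] at hsb; omega
  have hsa : s ∣ a := Dvd.intro _ hsb
  have hba : b ∣ a := Dvd.intro_left _ hsb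
  have hsle : s ≤ M := by
    by_contra h
    have := Nat.le_of_dvd (by omega) hsa
    exact c1 (mem_biUnion.2 ⟨s, mem_filter.2 ⟨mem_Icc.2 ⟨by omega, by omega⟩, hs⟩,
      mem_filter.2 ⟨haX, hsa⟩⟩)
  have hro : ∀ p, p.Prime → p ∣ b → 2 ^ w < p := fun p hp hd => by
    by_contra h
    exact hb p hp hd (Nat.mem_primesLE.2 ⟨by omega, hp⟩)
  have h2w : 2 ≤ 2 ^ w := Nat.le_self_pow (by omega) 2
  have hos : OS b := by
    refine ⟨?_, ?_⟩
    · rw [← Nat.not_even_iff_odd]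
      intro h
      have := hro 2 Nat.prime_two h.two_dvd
      omega
    · rw [Nat.squarefree_iff_prime_squarefree]
      intro p hp hd
      have h3 : p ∣ b := (Dvd.intro _ rfl).trans hd
      have h4 := Nat.le_of_dvd (by omega) (h3.trans hba)
      exact c2 (mem_biUnion.2 ⟨p, mem_Ioo.2 ⟨hro p hp h3, by omega⟩,
        mem_filter.2 ⟨haX, by rw [sq]; exact hd.trans hba⟩⟩)
  have hbX : b ≤ X / s := (Nat.le_div_iff_mul_le (by omega)).2 (by rw [mul_comm]; omega)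
  have key : ∀ (κ μ : ℤ) (d e : ℕ), d * e = b → 1 < d → BadPair P κ μ d e →
      (d, e) ∈ badSet P κ μ w (X / s) := by
    intro κ μ d e hde hd hB
    have d1 : d ∣ b := Dvd.intro _ hde
    have e1 : e ∣ b := Dvd.intro_left _ hde
    have d2 := Nat.le_of_dvd (by omega) d1
    have e2 := Nat.le_of_dvd (by omega) e1
    have e3 : e ≠ 0 := (hos.of_dvd e1).ne_zero
    refine mem_filter.2 ⟨mem_product.2 ⟨mem_Icc.2 ⟨by omega, by omega⟩,
      mem_Icc.2 ⟨by omega, by omega⟩⟩, hd, by simpa [hde] using hbX, hos.of_dvd d1, hos.of_dvd e1,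
      fun p hp => ?_, fun p hp => ?_, hB⟩
    · exact hro p (Nat.prime_of_mem_primeFactors hp) ((Nat.dvd_of_mem_primeFactors hp).trans d1)
    · exact hro p (Nat.prime_of_mem_primeFactors hp) ((Nat.dvd_of_mem_primeFactors hp).trans e1)
  have key2 : ∀ d e : ℕ, d * e = b → (d, e) ∉ badSet P 1 2 w (X / s) ∪ badSet P 1 (-2) w (X / s) ∪
      badSet P (-1) 2 w (X / s) := fun d e hde hm =>
    c3 (mem_biUnion.2 ⟨s, mem_filter.2 ⟨mem_Icc.2 ⟨by omega, hsle⟩, hs⟩,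
      mem_image.2 ⟨(d, e), hm, by simp only [hde, hsb]⟩⟩)
  obtain ⟨S, hS, hpt⟩ := good_twist hos (P := P)
    (fun q hq => ⟨(hP q hq).1, (hP q hq).2.1, fun hd =>
      (hro q (hP q hq).1 hd).not_ge (hP q hq).2.2⟩)
    fun d e hde hd => ⟨fun h => key2 d e hde (mem_union_left _ (mem_union_left _
      (key _ _ d e hde hd h))), fun h => key2 d e hde (mem_union_left _ (mem_union_right _
      (key _ _ d e hde hd h))), fun h => key2 d e hde (mem_union_right _ (key _ _ d e hde hd h))⟩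
  have hS0 : ∏ q ∈ S, q ≠ 0 := prod_ne_zero_iff.2 fun q hq => (hP q (hS hq)).1.ne_zero
  have hSF : ∏ q ∈ S, q ≤ ∏ p ∈ P, p := prod_le_prod_of_subset_of_one_le' hS
    fun p hp _ => (hP p hp).1.one_le
  have hQ := hr (2 * (s ^ 3 * (∏ q ∈ S, q) ^ 2))
    (Nat.le_mul_of_pos_right _ (Nat.pos_of_ne_zero (by positivity))) (le_trans (by gcongr) hN)
  refine rank_zero (s := (s : ℚ)) (Nat.cast_ne_zero.2 hs0) hpt ?_
  have e : 2 * (b : ℚ) * ((∏ q ∈ S, q : ℕ) : ℚ) ^ 2 * (s : ℚ) ^ 4 =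
      (a : ℚ) * ((2 * (s ^ 3 * (∏ q ∈ S, q) ^ 2) : ℕ) : ℚ) := by
    rw [← hsb]
    simp only [Nat.cast_mul, Nat.cast_pow, Nat.cast_ofNat]
    ring
  rw [e]
  exact hQ

lemma count {P : Finset ℕ} {w k N X X0 : ℕ} (hP : ∀ q ∈ P, q.Prime ∧ q % 4 = 3 ∧ q ≤ 2 ^ w)
    (hw : 2 ≤ w) (hN : 2 * ((2 ^ (w * k)) ^ 3 * (∏ p ∈ P, p) ^ 2) ≤ N) {η : ℝ} (hη : 0 ≤ η)
    (h1 : ∀ Y, X0 ≤ Y → ((badSet P 1 2 w Y).card : ℝ) ≤ η * Y)
    (h2 : ∀ Y, X0 ≤ Y → ((badSet P 1 (-2) w Y).card : ℝ) ≤ η * Y)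
    (h3 : ∀ Y, X0 ≤ Y → ((badSet P (-1) 2 w Y).card : ℝ) ≤ η * Y)
    (hX : X0 * 2 ^ (w * k) ≤ X) :
    ((surv N X).card : ℝ) ≤
      (2 / 2 ^ w + ((1 / 2) ^ k + 3 * η) * (Real.exp 4 * (w : ℝ) ^ 64)) * X := by
  have hc := card_le_card (cover hP (X := X) (by omega) hN)
  have hX0 : (0 : ℝ) ≤ X := Nat.cast_nonneg X
  have a1 : (((sm w (Icc (2 ^ (w * k)) X)).biUnion fun s => (Icc 1 X).filter (s ∣ ·)).card : ℝ) ≤
      (1 / 2) ^ k * (Real.exp 4 * (w : ℝ) ^ 64) * X := by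
    refine (Nat.cast_le.2 card_biUnion_le).trans ?_
    rw [Nat.cast_sum]
    refine (sum_le_sum fun n _ => card_mult X _).trans ?_
    rw [← mul_sum, mul_comm]
    exact mul_le_mul_of_nonneg_right (rankin hw k _ fun s hs =>
      ⟨(mem_filter.1 hs).2, (mem_Icc.1 (mem_filter.1 hs).1).1⟩) hX0
  have a2 : (((Ioo (2 ^ w) (X + 1)).biUnion fun n => (Icc 1 X).filter (n ^ 2 ∣ ·)).card : ℝ) ≤
      2 / 2 ^ w * X := by
    refine (Nat.cast_le.2 card_biUnion_le).trans ?_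
    rw [Nat.cast_sum]
    refine (sum_le_sum fun n _ => card_mult X _).trans ?_
    rw [← mul_sum, mul_comm]
    refine mul_le_mul_of_nonneg_right ?_ hX0
    have := sum_Ioo_inv_sq_le (α := ℝ) (2 ^ w) (X + 1)
    push_cast at this ⊢
    refine this.trans (div_le_div_of_nonneg_left (by norm_num) (by positivity) (by linarith))
  have a3 : (((sm w (Icc 1 (2 ^ (w * k)))).biUnion fun s =>
      (badSet P 1 2 w (X / s) ∪ badSet P 1 (-2) w (X / s) ∪ badSet P (-1) 2 w (X / s)).image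
        fun x => s * (x.1 * x.2)).card : ℝ) ≤ 3 * η * (Real.exp 4 * (w : ℝ) ^ 64) * X := by
    refine (Nat.cast_le.2 card_biUnion_le).trans ?_
    rw [Nat.cast_sum]
    have b1 : ∀ s ∈ sm w (Icc 1 (2 ^ (w * k))),
        (((badSet P 1 2 w (X / s) ∪ badSet P 1 (-2) w (X / s) ∪ badSet P (-1) 2 w (X / s)).image
          fun x => s * (x.1 * x.2)).card : ℝ) ≤ 3 * η * X * ((s : ℝ))⁻¹ := by
      intro s hs
      obtain ⟨s1, s2⟩ := mem_Icc.1 (mem_filter.1 hs).1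
      have c1 : X0 ≤ X / s := (Nat.le_div_iff_mul_le s1).2 ((Nat.mul_le_mul_left _ s2).trans hX)
      have c2 : ((badSet P 1 2 w (X / s) ∪ badSet P 1 (-2) w (X / s) ∪
          badSet P (-1) 2 w (X / s)).image fun x => s * (x.1 * x.2)).card ≤
          (badSet P 1 2 w (X / s)).card + (badSet P 1 (-2) w (X / s)).card +
          (badSet P (-1) 2 w (X / s)).card :=
        card_image_le.trans ((card_union_le _ _).trans (add_le_add (card_union_le _ _) le_rfl))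
      have c3 : ((X / s : ℕ) : ℝ) ≤ X * ((s : ℝ))⁻¹ := by
        rw [← div_eq_mul_inv]
        exact Nat.cast_div_le
      have c4 := mul_le_mul_of_nonneg_left c3 hη
      have c5 := h1 _ c1
      have c6 := h2 _ c1
      have c7 := h3 _ c1
      refine (Nat.cast_le.2 c2).trans ?_
      push_cast
      linarith
    refine (sum_le_sum b1).trans ?_
    rw [← mul_sum, mul_right_comm]
    refine mul_le_mul_of_nonneg_right (mul_le_mul_of_nonneg_left ?_ (by positivity)) hX0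
    have := rankin hw 0 (sm w (Icc 1 (2 ^ (w * k)))) fun s hs =>
      ⟨(mem_filter.1 hs).2, by simpa using (mem_Icc.1 (mem_filter.1 hs).1).1⟩
    rwa [pow_zero, one_mul] at this
  have a4 := (Nat.cast_le (α := ℝ)).2
    (hc.trans ((card_union_le _ _).trans (add_le_add (card_union_le _ _) le_rfl)))
  push_cast at a4
  linarith

lemma poly_geom : ∃ B : ℝ, 0 < B ∧ ∀ K : ℕ, (K : ℝ) ^ 64 * (25 / 32) ^ K ≤ B * (4 / 5) ^ K := by
  have h := tendsto_pow_const_mul_const_pow_of_abs_lt_one 64 (r := (125 / 128 : ℝ))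
    (by rw [abs_of_pos] <;> norm_num)
  obtain ⟨B, hB⟩ := h.bddAbove_range
  refine ⟨|B| + 1, by positivity, fun K => ?_⟩
  have h1 : (K : ℝ) ^ 64 * (125 / 128) ^ K ≤ B := hB ⟨K, rfl⟩
  have h2 : (25 / 32 : ℝ) ^ K = (125 / 128) ^ K * (4 / 5) ^ K := by
    rw [← mul_pow]
    norm_num
  rw [h2, ← mul_assoc]
  exact mul_le_mul_of_nonneg_right (by linarith [le_abs_self B]) (by positivity)

lemma sq_le (K : ℕ) : K ^ 2 ≤ 4 ^ K := by
  have h : K ≤ 2 ^ K := Nat.lt_two_pow_self.le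
  calc K ^ 2 ≤ (2 ^ K) ^ 2 := Nat.pow_le_pow_left h 2
    _ = 4 ^ K := by rw [← pow_mul, mul_comm, pow_mul]; norm_num

end FinalAux

open FinalAux

theorem density_K : ∃ (D : ℕ) (C : ℝ), 2 ≤ D ∧ 0 < C ∧ ∀ K N X, 1 ≤ K → 2 ^ (D * K ^ 2) ≤ N →
    2 ^ D ^ K ≤ X → ((surv N X).card : ℝ) ≤ C * (4 / 5) ^ K * X := by
  obtain ⟨C, ρ, hC, h0, h1, hcp⟩ := count_pairs
  obtain ⟨B, hB, hpg⟩ := poly_geom
  obtain ⟨c0, hc0⟩ := exists_pow_lt_of_lt_one (by norm_num : (0 : ℝ) < 1 / 8) h1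
  set c := c0 + 16 with hcdef
  have hc : 16 ≤ c := by omega
  have hρ : ρ ^ c ≤ 1 / 8 := (pow_le_pow_of_le_one h0.le h1.le (by omega)).trans hc0.le
  refine ⟨512 * c, 2 + (1 + 3 * (2 * C + 2 ^ 20)) * Real.exp 4 * (c : ℝ) ^ 64 * B, by omega,
    by positivity, fun K N X hK hN hX => ?_⟩
  obtain ⟨P, p1, p2, p3, p4, p5⟩ := aux_primes K hK
  have hPo : ∀ q ∈ P, q.Prime ∧ Odd q := fun q hq =>
    ⟨(p2 q hq).1, Nat.odd_iff.2 (by have := (p2 q hq).2.1; omega)⟩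
  set w := c * K with hw
  have hw1 : 16 * K ≤ w := Nat.mul_le_mul_right K hc
  have hK2 : K ≤ K ^ 2 := Nat.le_self_pow two_ne_zero K
  have hK4 := sq_le K
  have hhalf : (1 / 2 : ℝ) ^ K ≤ (25 / 32) ^ K := pow_le_pow_left₀ (by norm_num) (by norm_num) K
  have hd1 : 32768 * ((32 * K ^ 2 : ℕ) : ℝ) ≤
      2 ^ 20 * (25 / 32) ^ K * √(((256 ^ K : ℕ) : ℝ) + 1) := by
    have a1 : (16 : ℝ) ^ K ≤ √(((256 ^ K : ℕ) : ℝ) + 1) := by
      refine Real.le_sqrt_of_sq_le ?_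
      rw [← pow_mul, mul_comm, pow_mul]
      push_cast
      norm_num
    have a2 : ((K : ℝ)) ^ 2 ≤ 4 ^ K := by exact_mod_cast hK4
    have a3 : (4 : ℝ) ^ K ≤ (25 / 32) ^ K * 16 ^ K := by
      rw [← mul_pow]
      exact pow_le_pow_left₀ (by norm_num) (by norm_num) K
    have a4 := mul_le_mul_of_nonneg_left a1 (by positivity : (0 : ℝ) ≤ (25 / 32) ^ K)
    push_cast at a4 ⊢
    linarith
  have hd2 : 2 * (4 : ℝ) ^ (32 * K ^ 2) ≤ 2 ^ 20 * (25 / 32) ^ K * 2 ^ (256 ^ K) := by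
    have a5 : 1 + 2 * (32 * K ^ 2) + K ≤ 20 + 256 ^ K := by
      rcases Nat.lt_or_ge K 2 with h | h
      · obtain rfl : K = 1 := by omega
        norm_num
      · have a6 : 64 ^ 2 ≤ 64 ^ K := Nat.pow_le_pow_right (by norm_num) h
        have : 256 ^ K = 64 ^ K * 4 ^ K := by
          rw [← mul_pow]
          norm_num
        nlinarith
    have a2 : (2 : ℝ) ^ (1 + 2 * (32 * K ^ 2) + K) ≤ 2 ^ (20 + 256 ^ K) :=
      pow_le_pow_right₀ (by norm_num) a5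
    rw [pow_add, pow_add, pow_mul, pow_add, pow_one] at a2
    have a3 : (1 : ℝ) ≤ (25 / 32) ^ K * 2 ^ K := by
      rw [← mul_pow]
      exact one_le_pow₀ (by norm_num)
    have a4 : (0 : ℝ) < 2 ^ K := by positivity
    refine le_of_mul_le_mul_right ?_ a4
    calc 2 * (4 : ℝ) ^ (32 * K ^ 2) * 2 ^ K ≤ 2 ^ 20 * 2 ^ 256 ^ K := by
          rwa [show ((2 : ℝ) ^ 2) = 4 by norm_num] at a2
      _ ≤ 2 ^ 20 * 2 ^ 256 ^ K * ((25 / 32) ^ K * 2 ^ K) :=
          le_mul_of_one_le_right (by positivity) a3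
      _ = _ := by ring
  have hX1 := fun κ μ h => hcp P hPo κ μ w K h (32 * K ^ 2) (by omega) p5 (by omega) (256 ^ K) _
    hd1 hd2
  have hη : C * 2 ^ P.card * ρ ^ w + C * (25 / 32) ^ K + 2 ^ 20 * (25 / 32) ^ K ≤
      (2 * C + 2 ^ 20) * (25 / 32) ^ K := by
    have a1 : (2 : ℝ) ^ P.card ≤ 4 ^ K := by
      rw [show (4 : ℝ) = 2 ^ 2 by norm_num, ← pow_mul]
      exact pow_le_pow_right₀ (by norm_num) p1
    have a2 : ρ ^ w ≤ (1 / 8) ^ K := by
      rw [hw, pow_mul]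
      exact pow_le_pow_left₀ (by positivity) hρ K
    have a3 : (2 : ℝ) ^ P.card * ρ ^ w ≤ (25 / 32) ^ K := by
      calc (2 : ℝ) ^ P.card * ρ ^ w ≤ 4 ^ K * (1 / 8) ^ K := by gcongr
        _ = (4 * (1 / 8)) ^ K := (mul_pow _ _ _).symm
        _ ≤ _ := pow_le_pow_left₀ (by norm_num) (by norm_num) K
    have a4 := mul_le_mul_of_nonneg_left a3 hC.le
    linarith
  have hN' : 2 * ((2 ^ (w * K)) ^ 3 * (∏ p ∈ P, p) ^ 2) ≤ N := by
    calc 2 * ((2 ^ (w * K)) ^ 3 * (∏ p ∈ P, p) ^ 2)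
        ≤ 2 * ((2 ^ (w * K)) ^ 3 * (2 ^ (32 * K ^ 2)) ^ 2) := by gcongr
      _ = 2 ^ (1 + (3 * c + 64) * K ^ 2) := by rw [hw]; ring
      _ ≤ 2 ^ (512 * c * K ^ 2) := Nat.pow_le_pow_right (by norm_num) (by nlinarith)
      _ ≤ N := hN
  have hX' : 2 ^ 256 ^ K * 2 ^ (w * K) ≤ X := by
    rw [← pow_add]
    refine (Nat.pow_le_pow_right (by norm_num) ?_).trans hX
    have a1 : 256 ^ K ≤ (256 * c) ^ K := Nat.pow_le_pow_left (by omega) K
    have a2 : w * K ≤ (256 * c) ^ K := by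
      calc w * K = K ^ 2 * c := by rw [hw]; ring
        _ ≤ 256 ^ K * c ^ K := Nat.mul_le_mul (hK4.trans (Nat.pow_le_pow_left (by norm_num) K))
            (Nat.le_self_pow (by omega) c)
        _ = _ := (mul_pow _ _ _).symm
    have a3 : 2 ≤ 2 ^ K := Nat.le_self_pow (by omega) 2
    calc 256 ^ K + w * K ≤ 2 * (256 * c) ^ K := by omega
      _ ≤ 2 ^ K * (256 * c) ^ K := Nat.mul_le_mul_right _ a3
      _ = (512 * c) ^ K := by rw [← mul_pow, show 2 * (256 * c) = 512 * c by ring]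
  have hm := count (w := w) (k := K) (X0 := 2 ^ 256 ^ K)
    (fun q hq => ⟨(p2 q hq).1, (p2 q hq).2.1,
      (p2 q hq).2.2.trans (Nat.pow_le_pow_right (by norm_num) hw1)⟩) (by omega) hN'
    (η := (2 * C + 2 ^ 20) * (25 / 32) ^ K) (by positivity)
    (fun Y hY => (hX1 1 2 p3 Y hY).trans (mul_le_mul_of_nonneg_right hη (Nat.cast_nonneg Y)))
    (fun Y hY => (hX1 1 (-2) p4 Y hY).trans (mul_le_mul_of_nonneg_right hη (Nat.cast_nonneg Y)))
    (fun Y hY => (hX1 (-1) 2 p3 Y hY).trans (mul_le_mul_of_nonneg_right hη (Nat.cast_nonneg Y)))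
    hX'
  refine hm.trans (mul_le_mul_of_nonneg_right ?_ (Nat.cast_nonneg X))
  have b2 : (2 : ℝ) / 2 ^ w ≤ 2 * (4 / 5) ^ K := by
    have a1 : ((2 : ℝ) ^ K)⁻¹ ≤ (4 / 5) ^ K := by
      rw [← inv_pow]
      exact pow_le_pow_left₀ (by norm_num) (by norm_num) K
    rw [div_eq_mul_inv]
    refine mul_le_mul_of_nonneg_left (le_trans (inv_anti₀ (by positivity) ?_) a1) (by norm_num)
    exact pow_le_pow_right₀ (by norm_num) (by omega)
  have b4 : (w : ℝ) ^ 64 = (c : ℝ) ^ 64 * (K : ℝ) ^ 64 := by rw [hw, Nat.cast_mul, mul_pow]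
  have b5 := mul_le_mul_of_nonneg_right hhalf
    (by positivity : 0 ≤ Real.exp 4 * ((c : ℝ) ^ 64 * (K : ℝ) ^ 64))
  have b6 := mul_le_mul_of_nonneg_left (hpg K)
    (by positivity : 0 ≤ (1 + 3 * (2 * C + 2 ^ 20)) * Real.exp 4 * (c : ℝ) ^ 64)
  rw [b4]
  linarith

lemma choose_N {D : ℕ} (hD : 2 ≤ D) {c : ℝ} (hc : c ≤ Real.log (5 / 4) / √D) {N : ℕ} (hN : 2 ≤ N) :
    ∃ K : ℕ, (1 ≤ K → 2 ^ (D * K ^ 2) ≤ N) ∧
      (4 / 5 : ℝ) ^ (K + 1) ≤ Real.exp (-c * √(Real.log N)) := by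
  have hex : ∃ j, N < 2 ^ (D * (j + 1) ^ 2) := ⟨N, by
    calc N < D * (N + 1) ^ 2 := by nlinarith
      _ < _ := Nat.lt_two_pow_self⟩
  refine ⟨Nat.find hex, fun h0 => ?_, ?_⟩
  · have a1 := Nat.find_min hex (m := Nat.find hex - 1) (by omega)
    rwa [Nat.sub_add_cancel h0, not_lt] at a1
  set K := Nat.find hex with hK
  have h1 : N < 2 ^ (D * (K + 1) ^ 2) := Nat.find_spec hex
  have hN1 : (1 : ℝ) < N := by exact_mod_cast hN
  have hD0 : (0 : ℝ) < √D := Real.sqrt_pos.2 (by exact_mod_cast (by omega : 0 < D))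
  have h2 : √(Real.log N) ≤ √D * (K + 1) := by
    have a1 : (N : ℝ) ≤ 2 ^ (D * (K + 1) ^ 2) := by exact_mod_cast h1.le
    have a2 := Real.log_le_log (by linarith) a1
    rw [Real.log_pow] at a2
    have a3 : Real.log 2 ≤ 1 := by linarith [Real.log_two_lt_d9]
    have a4 : (0 : ℝ) ≤ ((D * (K + 1) ^ 2 : ℕ) : ℝ) := Nat.cast_nonneg _
    have a5 := mul_le_of_le_one_right a4 a3
    rw [Real.sqrt_le_left (by positivity), mul_pow, Real.sq_sqrt (Nat.cast_nonneg D)]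
    push_cast at a2 a5
    linarith
  have h54 : 0 < Real.log (5 / 4) := Real.log_pos (by norm_num)
  have h3 : (4 / 5 : ℝ) ^ (K + 1) = Real.exp (((K + 1 : ℕ) : ℝ) * -Real.log (5 / 4)) := by
    rw [Real.exp_nat_mul, Real.exp_neg, Real.exp_log (by norm_num)]
    norm_num
  rw [h3]
  refine Real.exp_le_exp.2 ?_
  have h4 := mul_le_mul_of_nonneg_right hc (Real.sqrt_nonneg (Real.log N))
  have h5 := mul_le_mul_of_nonneg_left h2 (div_pos h54 hD0).le
  rw [← mul_assoc, div_mul_cancel₀ _ hD0.ne'] at h5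
  push_cast
  linarith

lemma choose_X {D : ℕ} (hD : 2 ≤ D) {c : ℝ} (hc : c ≤ Real.log (5 / 4) / Real.log D) {X : ℕ}
    (hX : 3 ≤ X) : ∃ K : ℕ, (1 ≤ K → 2 ^ D ^ K ≤ X) ∧ (4 / 5 : ℝ) ^ (K + 1) ≤ Real.log X ^ (-c) := by
  have hD1 : (1 : ℝ) < D := by exact_mod_cast hD
  have hl : 0 < Real.log D := Real.log_pos hD1
  have h54 : 0 < Real.log (5 / 4) := Real.log_pos (by norm_num)
  have hDc : ∀ j : ℕ, ((D : ℝ) ^ j) ^ (-(Real.log (5 / 4) / Real.log D)) = (4 / 5) ^ j := fun j => by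
    rw [← Real.rpow_natCast, ← Real.rpow_mul (by linarith), mul_comm,
      Real.rpow_mul (by linarith), Real.rpow_natCast]
    congr 1
    rw [Real.rpow_def_of_pos (by linarith), mul_neg, mul_div_cancel₀ _ hl.ne',
      Real.exp_neg, Real.exp_log (by norm_num)]
    norm_num
  have hex : ∃ j, X < 2 ^ D ^ (j + 1) := ⟨X, by
    calc X < D ^ (X + 1) := (Nat.lt_succ_self X).trans (Nat.lt_pow_self hD)
      _ < _ := Nat.lt_two_pow_self⟩
  refine ⟨Nat.find hex, fun h0 => ?_, ?_⟩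
  · have a1 := Nat.find_min hex (m := Nat.find hex - 1) (by omega)
    rwa [Nat.sub_add_cancel h0, not_lt] at a1
  set K := Nat.find hex with hK
  have h1 : X < 2 ^ D ^ (K + 1) := Nat.find_spec hex
  have hX3 : (3 : ℝ) ≤ X := by exact_mod_cast hX
  have h0 : 1 ≤ Real.log X := by
    rw [Real.le_log_iff_exp_le (by linarith)]
    linarith [Real.exp_one_lt_d9]
  have h2 : Real.log X ≤ (D : ℝ) ^ (K + 1) := by
    have a1 : (X : ℝ) ≤ 2 ^ D ^ (K + 1) := by exact_mod_cast h1.le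
    have a2 := Real.log_le_log (by linarith) a1
    rw [Real.log_pow] at a2
    have a3 : Real.log 2 ≤ 1 := by linarith [Real.log_two_lt_d9]
    have a4 : (0 : ℝ) ≤ ((D ^ (K + 1) : ℕ) : ℝ) := Nat.cast_nonneg _
    have a5 := mul_le_of_le_one_right a4 a3
    push_cast at a2 a5
    linarith
  rw [← hDc]
  exact (Real.rpow_le_rpow_of_nonpos (by linarith) h2 (neg_nonpos.2 (div_pos h54 hl).le)).trans
    (Real.rpow_le_rpow_of_exponent_le h0 (neg_le_neg hc))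

theorem density : ∃ c C : ℝ, 0 < c ∧ ∀ N X : ℕ, 2 ≤ N → 3 ≤ X →
    ((surv N X).card : ℝ) ≤ C * (Real.exp (-c * √(Real.log N)) + Real.log X ^ (-c)) * X := by
  obtain ⟨D, C, hD, hC, h⟩ := density_K
  have hD1 : (1 : ℝ) < D := by exact_mod_cast hD
  have h54 : 0 < Real.log (5 / 4) := Real.log_pos (by norm_num)
  refine ⟨min (Real.log (5 / 4) / √D) (Real.log (5 / 4) / Real.log D), 5 / 4 * (C + 1),
    lt_min (div_pos h54 (Real.sqrt_pos.2 (by linarith))) (div_pos h54 (Real.log_pos hD1)),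
    fun N X hN hX => ?_⟩
  set c := min (Real.log (5 / 4) / √D) (Real.log (5 / 4) / Real.log D) with hc
  obtain ⟨K1, a1, a2⟩ := choose_N hD (c := c) (min_le_left _ _) hN
  obtain ⟨K2, b1, b2⟩ := choose_X hD (c := c) (min_le_right _ _) hX
  have h3 : (4 / 5 : ℝ) ^ (min K1 K2 + 1) ≤
      Real.exp (-c * √(Real.log N)) + Real.log X ^ (-c) := by
    have p1 : (0 : ℝ) < (4 / 5) ^ (K1 + 1) := by positivity
    have p2 : (0 : ℝ) < (4 / 5) ^ (K2 + 1) := by positivity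
    rcases min_choice K1 K2 with h | h <;> rw [h] <;> linarith
  have h4 : (C + 1) * (4 / 5 : ℝ) ^ min K1 K2 ≤
      5 / 4 * (C + 1) * (Real.exp (-c * √(Real.log N)) + Real.log X ^ (-c)) := by
    have := mul_le_mul_of_nonneg_left h3 (by positivity : 0 ≤ 5 / 4 * (C + 1))
    rw [pow_succ] at this
    linarith
  refine le_trans ?_ (mul_le_mul_of_nonneg_right h4 (Nat.cast_nonneg X))
  rcases Nat.eq_zero_or_pos (min K1 K2) with h0 | h0
  · have c1 : (surv N X).card ≤ X := (card_filter_le _ _).trans (by simp)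
    have c2 : ((surv N X).card : ℝ) ≤ X := by exact_mod_cast c1
    rw [h0, pow_zero]
    exact c2.trans (le_mul_of_one_le_left (Nat.cast_nonneg X) (by linarith))
  · have c1 := h (min K1 K2) N X h0
      (le_trans (Nat.pow_le_pow_right (by norm_num) (Nat.mul_le_mul_left D
        (Nat.pow_le_pow_left (min_le_left _ _) 2))) (a1 (h0.trans_le (min_le_left _ _))))
      (le_trans (Nat.pow_le_pow_right (by norm_num)
        (Nat.pow_le_pow_right (by omega) (min_le_right _ _))) (b1 (h0.trans_le (min_le_right _ _))))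
    refine c1.trans (mul_le_mul_of_nonneg_right ?_ (Nat.cast_nonneg X))
    have : (0 : ℝ) < (4 / 5) ^ min K1 K2 := by positivity
    nlinarith

end Pool.Agent.Lib.MP_90cf6f_nt.Den
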