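import Pool.Agent.Lib.MP_90cf6f_nt.Den.Defs

/-!
Periodicity of Jacobi symbols and the dual mean square bound.
-/

namespace Pool.Agent.Lib.MP_90cf6f_nt.Den

open Finset

namespace JacAux

lemma per_sum {f : ℕ → ℝ} {q : ℕ} (hq : 0 < q) (hp : ∀ m, f (q + m) = f m) (h1 : ∀ m, |f m| ≤ 1)
    (h0 : ∑ m ∈ range q, f m = 0) (z : ℕ) : |∑ m ∈ range z, f m| ≤ q := by
  induction z using Nat.strong_induction_on with
  | _ z ih =>
    rcases lt_or_ge z q with h | h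
    · calc _ ≤ ∑ m ∈ range z, |f m| := abs_sum_le_sum_abs _ _
        _ ≤ ∑ _m ∈ range z, (1 : ℝ) := sum_le_sum fun m _ => h1 m
        _ = z := by simp
        _ ≤ q := by exact_mod_cast h.le
    · obtain ⟨y, rfl⟩ := Nat.exists_eq_add_of_le h
      rw [sum_range_add, h0, zero_add]
      simp_rw [hp]
      exact ih y (by omega)

lemma J_congr {a b n q : ℕ} (hn : n ∣ q) (h : a ≡ b [MOD q]) : J a n = J b n := by
  have h' : a % n = b % n := h.of_dvd hn
  unfold J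
  rw [jacobiSym.mod_left' (a₁ := a) (a₂ := b) (by exact_mod_cast h')]

lemma J_one_left (n : ℕ) : J ((1 : ℕ) : ℤ) n = 1 := by simp [J]

lemma exists_neg {n n' p : ℕ} (hn : OS n) (hp : p.Prime) (h1 : p ∣ n) (h2 : ¬ p ∣ n') :
    ∃ a : ℕ, J a n * J a n' = -1 := by
  obtain ⟨n1, rfl⟩ := h1
  have c1 : p.Coprime n1 := hn.coprime
  have c2 : p.Coprime n' := (Nat.Prime.coprime_iff_not_dvd hp).2 h2
  have := Fact.mk hp
  have p2 : p ≠ 2 := by
    rintro rfl
    exact (Nat.not_even_iff_odd.2 hn.1) (even_two_mul n1)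
  obtain ⟨x, hx⟩ := FiniteField.exists_nonsquare (F := ZMod p) (by rwa [ZMod.ringChar_zmod_n])
  obtain ⟨a, a1, a2⟩ := Nat.chineseRemainder (c1.mul_right c2) x.val 1
  have e1 : J a p = -1 := by
    rw [J_congr dvd_rfl a1]
    unfold J
    rw [ZMod.nonsquare_iff_jacobiSym_eq_neg_one.2 (by simpa using hx)]
    simp
  have n0 : n1 ≠ 0 := right_ne_zero_of_mul hn.ne_zero
  refine ⟨a, ?_⟩
  rw [J_mul_right _ hp.ne_zero n0, e1, J_congr (dvd_mul_right n1 n') a2,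
    J_congr (dvd_mul_left n' n1) a2, J_one_left, J_one_left]
  norm_num

lemma exists_neg' {n n' : ℕ} (hn : OS n) (hn' : OS n') (hne : n ≠ n') :
    ∃ a : ℕ, J a n * J a n' = -1 := by
  by_contra hc
  apply hne
  rw [← Nat.prod_primeFactors_of_squarefree hn.2, ← Nat.prod_primeFactors_of_squarefree hn'.2]
  congr 1
  ext p
  simp only [Nat.mem_primeFactors]
  constructor
  · rintro ⟨hp, h1, -⟩
    by_contra h2
    exact hc (exists_neg hn hp h1 fun h => h2 ⟨hp, h, hn'.ne_zero⟩)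
  · rintro ⟨hp, h1, -⟩
    by_contra h2
    obtain ⟨a, ha⟩ := exists_neg hn' hp h1 fun h => h2 ⟨hp, h, hn.ne_zero⟩
    exact hc ⟨a, by rwa [mul_comm]⟩

lemma coprime_of_J {a n : ℕ} (hn : n ≠ 0) (h : J a n ≠ 0) : a.Coprime n := by
  by_contra hc
  apply h
  unfold J
  rw [jacobiSym.eq_zero_iff.2 ⟨hn, by simpa using hc⟩]
  simp

lemma full_sum {n n' : ℕ} (hn : OS n) (hn' : OS n') (hne : n ≠ n') :
    ∑ m ∈ range (n * n'), J m n * J m n' = 0 := by
  obtain ⟨a, ha⟩ := exists_neg' hn hn' hne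
  have q0 : 0 < n * n' := Nat.pos_of_ne_zero (mul_ne_zero hn.ne_zero hn'.ne_zero)
  have a0 : J a n * J a n' ≠ 0 := by rw [ha]; norm_num
  have co : (n * n').Coprime a := ((coprime_of_J hn.ne_zero (left_ne_zero_of_mul a0)).mul_right
    (coprime_of_J hn'.ne_zero (right_ne_zero_of_mul a0))).symm
  have inj : Set.InjOn (fun m => a * m % (n * n')) (range (n * n')) := by
    intro x hx y hy h
    have h' : x ≡ y [MOD n * n'] := Nat.ModEq.cancel_left_of_coprime co h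
    exact Nat.ModEq.eq_of_lt_of_lt h' (by simpa using hx) (by simpa using hy)
  have im : (range (n * n')).image (fun m => a * m % (n * n')) = range (n * n') := by
    refine eq_of_subset_of_card_le ?_ (card_image_of_injOn inj).ge
    intro x hx
    obtain ⟨y, -, rfl⟩ := mem_image.1 hx
    exact mem_range.2 (Nat.mod_lt _ q0)
  have e : ∑ m ∈ range (n * n'), J m n * J m n' = -∑ m ∈ range (n * n'), J m n * J m n' := by
    conv_lhs => rw [← im, sum_image inj]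
    rw [← sum_neg_distrib]
    refine sum_congr rfl fun m _ => ?_
    rw [J_congr (dvd_mul_right n n') (Nat.mod_modEq _ _),
      J_congr (dvd_mul_left n' n) (Nat.mod_modEq _ _)]
    push_cast
    rw [J_mul_left, J_mul_left]
    linear_combination (J m n * J m n') * ha
  linarith

lemma abs_JJ (m : ℤ) (n n' : ℕ) : |J m n * J m n'| ≤ 1 := by
  rw [abs_mul]
  exact mul_le_one₀ (abs_J_le _ _) (abs_nonneg _) (abs_J_le _ _)

end JacAux

theorem jac_sum {n n' : ℕ} (hn : OS n) (hn' : OS n') (hne : n ≠ n') {r : ℕ} (hr : 0 < r) (y : ℕ) :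
    |∑ m ∈ (Icc 1 y).filter (r ∣ ·), J m n * J m n'| ≤ (n : ℝ) * n' := by
  have q0 : 0 < n * n' := Nat.pos_of_ne_zero (mul_ne_zero hn.ne_zero hn'.ne_zero)
  have hp : ∀ m : ℕ, J ((n * n' + m : ℕ) : ℤ) n * J ((n * n' + m : ℕ) : ℤ) n' = J m n * J m n' := by
    intro m
    have h : n * n' + m ≡ m [MOD n * n'] := by simp [Nat.ModEq]
    rw [JacAux.J_congr (dvd_mul_right n n') h, JacAux.J_congr (dvd_mul_left n' n) h]
  have h0 : ∑ m ∈ range (n * n'), J ((m + 1 : ℕ) : ℤ) n * J ((m + 1 : ℕ) : ℤ) n' = 0 := by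
    have e1 := sum_range_succ (fun m : ℕ => J m n * J m n') (n * n')
    have e2 := sum_range_succ' (fun m : ℕ => J m n * J m n') (n * n')
    have e3 := hp 0
    rw [add_zero] at e3
    rw [JacAux.full_sum hn hn' hne, e3] at e1
    linarith
  have h1 := JacAux.per_sum (f := fun m => J ((m + 1 : ℕ) : ℤ) n * J ((m + 1 : ℕ) : ℤ) n') q0
    (fun m => by rw [add_assoc]; exact hp (m + 1)) (fun m => JacAux.abs_JJ _ _ _) h0 (y / r)
  have im : (Icc 1 y).filter (r ∣ ·) = (range (y / r)).image fun m => r * (m + 1) := by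
    ext m
    simp only [mem_filter, mem_Icc, mem_image, mem_range]
    constructor
    · rintro ⟨⟨b1, b2⟩, k, rfl⟩
      have k0 : 0 < k := Nat.pos_of_mul_pos_left b1
      have : k ≤ y / r := (Nat.le_div_iff_mul_le hr).2 (by rwa [mul_comm])
      exact ⟨k - 1, by omega, by rw [Nat.sub_add_cancel k0]⟩
    · rintro ⟨k, hk, rfl⟩
      have : (k + 1) * r ≤ y := (Nat.le_div_iff_mul_le hr).1 hk
      exact ⟨⟨Nat.mul_pos hr k.succ_pos, by rwa [mul_comm]⟩, dvd_mul_right _ _⟩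
  rw [im, sum_image fun x _ y _ h => by simpa [hr.ne'] using h]
  have e : ∀ m : ℕ, J ((r * (m + 1) : ℕ) : ℤ) n * J ((r * (m + 1) : ℕ) : ℤ) n' =
      J r n * J r n' * (J ((m + 1 : ℕ) : ℤ) n * J ((m + 1 : ℕ) : ℤ) n') := by
    intro m
    rw [Nat.cast_mul, J_mul_left, J_mul_left]
    ring
  simp_rw [e]
  rw [← mul_sum, abs_mul]
  calc _ ≤ 1 * ((n * n' : ℕ) : ℝ) := mul_le_mul (JacAux.abs_JJ _ _ _) h1 (abs_nonneg _) zero_le_one
    _ = _ := by rw [one_mul, Nat.cast_mul]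

theorem ls_gen {ι : Type*} (I : Finset ι) (n : ι → ℕ) (c : ι → ℝ) {N : ℕ}
    (hn : ∀ i ∈ I, OS (n i) ∧ n i ≤ N) (hinj : Set.InjOn n I) (ν : ℕ → ℝ) (hν : ∀ m, 0 ≤ ν m)
    (y : ℕ) {A Λ : ℝ} (hA : ∑ m ∈ Icc 1 y, ν m ≤ A) (h0 : 0 ≤ Λ)
    (hΛ : ∀ (Φ : ℕ → ℝ) (B : ℝ), (∀ r, 0 < r → |∑ m ∈ (Icc 1 y).filter (r ∣ ·), Φ m| ≤ B) →
      |∑ m ∈ Icc 1 y, ν m * Φ m| ≤ Λ * B) :
    ∑ m ∈ Icc 1 y, ν m * (∑ i ∈ I, c i * J m (n i)) ^ 2 ≤
      A * ∑ i ∈ I, c i ^ 2 + Λ * (N : ℝ) ^ 2 * (∑ i ∈ I, |c i|) ^ 2 := by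
  classical
  have e : ∑ m ∈ Icc 1 y, ν m * (∑ i ∈ I, c i * J m (n i)) ^ 2 =
      ∑ i ∈ I, ∑ j ∈ I, c i * c j * ∑ m ∈ Icc 1 y, ν m * (J m (n i) * J m (n j)) := by
    simp_rw [sq, sum_mul_sum, mul_sum]
    rw [sum_comm]
    refine sum_congr rfl fun i _ => ?_
    rw [sum_comm]
    exact sum_congr rfl fun j _ => sum_congr rfl fun m _ => by ring
  have b : ∀ i ∈ I, ∀ j ∈ I, c i * c j * ∑ m ∈ Icc 1 y, ν m * (J m (n i) * J m (n j)) ≤
      (if i = j then A * c i ^ 2 else 0) + Λ * (N : ℝ) ^ 2 * (|c i| * |c j|) := by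
    intro i hi j hj
    split_ifs with h
    · subst h
      have b1 : ∑ m ∈ Icc 1 y, ν m * (J m (n i) * J m (n i)) ≤ A :=
        (sum_le_sum fun m _ => mul_le_of_le_one_right (hν m)
          ((le_abs_self _).trans (JacAux.abs_JJ _ _ _))).trans hA
      have b2 := mul_le_mul_of_nonneg_left b1 (mul_self_nonneg (c i))
      have b3 : 0 ≤ Λ * (N : ℝ) ^ 2 * (|c i| * |c i|) := by positivity
      nlinarith
    · have b1 := hΛ (fun m => J m (n i) * J m (n j)) ((N : ℝ) ^ 2) fun r hr =>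
        (jac_sum (hn i hi).1 (hn j hj).1 (fun h' => h (hinj hi hj h')) hr y).trans (by
          have a1 : (n i : ℝ) ≤ N := by exact_mod_cast (hn i hi).2
          have a2 : (n j : ℝ) ≤ N := by exact_mod_cast (hn j hj).2
          rw [sq]
          gcongr)
      refine (le_abs_self _).trans ?_
      rw [abs_mul, abs_mul, zero_add, mul_comm]
      exact mul_le_mul_of_nonneg_right b1 (by positivity)
  rw [e]
  refine (sum_le_sum fun i hi => sum_le_sum (b i hi)).trans (le_of_eq ?_)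
  simp_rw [sum_add_distrib]
  congr 1
  · rw [mul_sum]
    exact sum_congr rfl fun i hi => by rw [sum_ite_eq, if_pos hi]
  · simp_rw [sq (∑ i ∈ I, |c i|), sum_mul_sum, mul_sum]

theorem ls_one {ι : Type*} (I : Finset ι) (n : ι → ℕ) (c : ι → ℝ) {N : ℕ}
    (hn : ∀ i ∈ I, OS (n i) ∧ n i ≤ N) (hinj : Set.InjOn n I) (y : ℕ) :
    ∑ m ∈ Icc 1 y, (∑ i ∈ I, c i * J m (n i)) ^ 2 ≤
      (y : ℝ) * ∑ i ∈ I, c i ^ 2 + (N : ℝ) ^ 2 * (∑ i ∈ I, |c i|) ^ 2 := by
  have := ls_gen I n c hn hinj (fun _ => 1) (fun _ => zero_le_one) y (A := y) (Λ := 1) (by simp)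
    zero_le_one fun Φ B h => by simpa using h 1 one_pos
  simpa using this

end Pool.Agent.Lib.MP_90cf6f_nt.Den
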