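import Pool.Agent.Lib.MP_90cf6f_nt.Den.Bil

/-!
The linked terms and one box.
-/

namespace Pool.Agent.Lib.MP_90cf6f_nt.Den

open Finset

namespace LinkAux

lemma rev3 (s t u : Finset ℕ) (f : ℕ → ℕ → ℕ → ℝ) :
    ∑ a ∈ s, ∑ b ∈ t, ∑ c ∈ u, f a b c = ∑ c ∈ u, ∑ b ∈ t, ∑ a ∈ s, f a b c := by
  rw [sum_comm, sum_congr rfl fun b _ => sum_comm, sum_comm]

lemma hyp (N : ℕ) (f : ℕ → ℕ → ℝ) (hf : ∀ d d1, N < d → f d d1 = 0) :
    ∑ d ∈ Icc 1 N, ∑ d1 ∈ d.divisors, f d d1 = ∑ d0 ∈ Icc 1 N, ∑ d1 ∈ Icc 1 N, f (d0 * d1) d1 := by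
  rw [sum_sigma', ← sum_product', ← sum_filter_of_ne (s := Icc 1 N ×ˢ Icc 1 N)
    (p := fun x => x.1 * x.2 ≤ N) fun x _ hx => not_lt.1 fun h => hx (hf _ _ h)]
  refine sum_nbij' (fun x => (x.1 / x.2, x.2)) (fun x => ⟨x.1 * x.2, x.2⟩) ?_ ?_ ?_ ?_ ?_
  · rintro ⟨d, d1⟩ hx
    simp only [mem_sigma, mem_Icc, Nat.mem_divisors] at hx
    obtain ⟨⟨h1, h2⟩, ⟨c, rfl⟩, -⟩ := hx
    have h3 : 0 < d1 := Nat.pos_of_mul_pos_right h1
    have h4 : 0 < c := Nat.pos_of_mul_pos_left h1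
    simp only [mem_filter, mem_product, mem_Icc, Nat.mul_div_cancel_left c h3]
    exact ⟨⟨⟨h4, by nlinarith⟩, h3, by nlinarith⟩, by nlinarith⟩
  · rintro ⟨d0, d1⟩ hx
    simp only [mem_filter, mem_product, mem_Icc] at hx
    obtain ⟨⟨⟨h1, -⟩, h2, -⟩, h3⟩ := hx
    have h4 : 0 < d0 * d1 := Nat.mul_pos h1 h2
    simp only [mem_sigma, mem_Icc, Nat.mem_divisors]
    exact ⟨⟨h4, h3⟩, Dvd.intro_left _ rfl, h4.ne'⟩
  · rintro ⟨d, d1⟩ hx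
    simp only [mem_sigma, mem_Icc, Nat.mem_divisors] at hx
    simp only [Nat.div_mul_cancel hx.2.1]
  · rintro ⟨d0, d1⟩ hx
    simp only [mem_filter, mem_product, mem_Icc] at hx
    simp only [Nat.mul_div_cancel d0 hx.1.2.1]
  · rintro ⟨d, d1⟩ hx
    simp only [mem_sigma, mem_Icc, Nat.mem_divisors] at hx
    simp only [Nat.div_mul_cancel hx.2.1]

lemma log_le {s d : ℕ} (h : d ≤ 2 ^ s) : Nat.log 2 d ≤ s :=
  (Nat.log_mono_right h).trans (Nat.log_pow (by norm_num) s).le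

lemma grp (s : ℕ) (h : ℕ → ℝ) (h0 : ∀ i, 0 ≤ h i) :
    ∑ d ∈ Icc 1 (2 ^ s), g d * h (Nat.log 2 d) ≤
      ∑ i ∈ range (s + 1), 16 * 2 ^ i / √((i : ℝ) + 1) * h i := by
  rw [← sum_fiberwise_of_maps_to (s := Icc 1 (2 ^ s)) (t := range (s + 1)) (g := Nat.log 2)
    fun d hd => mem_range.2 (Nat.lt_succ_of_le (log_le (mem_Icc.1 hd).2))]
  refine sum_le_sum fun i _ => ?_
  rw [sum_congr rfl fun d hd => by rw [(mem_filter.1 hd).2], ← sum_mul]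
  refine mul_le_mul_of_nonneg_right ?_ (h0 i)
  have h1 : ∑ d ∈ (Icc 1 (2 ^ s)).filter (fun d => Nat.log 2 d = i), g d ≤
      ∑ d ∈ Icc 1 (2 ^ (i + 1)), g d := by
    refine sum_le_sum_of_subset_of_nonneg (fun d hd => ?_) fun d _ _ => (g_pos d).le
    obtain ⟨h2, h3⟩ := mem_filter.1 hd
    exact mem_Icc.2 ⟨(mem_Icc.1 h2).1, h3 ▸ (Nat.lt_pow_succ_log_self (by norm_num) d).le⟩
  refine h1.trans ((sum_g (i + 1)).trans ?_)
  unfold Gd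
  rw [← mul_div_assoc, pow_succ]
  refine div_le_div₀ (by positivity) (le_of_eq (by ring)) (by positivity) ?_
  exact Real.sqrt_le_sqrt (by push_cast; linarith)

lemma le_pow_sub {s d0 d1 : ℕ} (h0 : d0 ≠ 0) (h1 : d0 ≤ 2 ^ s) (h : d0 * d1 ≤ 2 ^ s) :
    d1 ≤ 2 ^ (s - Nat.log 2 d0) := by
  have h2 : 2 ^ s = 2 ^ Nat.log 2 d0 * 2 ^ (s - Nat.log 2 d0) := by
    rw [← pow_add, Nat.add_sub_cancel' (log_le h1)]
  refine Nat.le_of_mul_le_mul_left (c := 2 ^ Nat.log 2 d0) ?_ (by positivity)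
  rw [← h2]
  exact (Nat.mul_le_mul_right _ (Nat.pow_log_le_self 2 h0)).trans h

lemma inner {C ρ : ℝ} (hbil : ∀ (a b : ℕ) (α β : ℕ → ℝ),
    (∀ m, |α m| ≤ g m) → (∀ m, α m ≠ 0 → OS m) → (∀ n, |β n| ≤ g n) → (∀ n, β n ≠ 0 → OS n) →
    |∑ m ∈ Icc 1 (2 ^ a), ∑ n ∈ Icc 1 (2 ^ b), α m * β n * J m n| ≤
      C * 2 ^ (a + b) * ρ ^ min a b / √(((max a b : ℕ) : ℝ) + 1))
    {w s t : ℕ} (κ μ : ℤ) {A B : ℕ → ℝ} (hA : Wt w s A) (hB : Wt w t B) {d0 e1 θ : ℕ}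
    (hd : d0 ∈ Icc 1 (2 ^ s)) (he : e1 ∈ Icc 1 (2 ^ t)) (h2 : 2 ≤ θ) (hm : min d0 e1 ≤ θ) :
    |∑ e0 ∈ Icc 1 (2 ^ t), ∑ d1 ∈ Icc 1 (2 ^ s),
      (if θ ≤ d1 ∧ θ ≤ e0 then tm κ μ A B d0 d1 e0 e1 else 0)| ≤
      g d0 * (g e1 * (C * 2 ^ (s - Nat.log 2 d0 + (t - Nat.log 2 e1)) *
        (√(((max (Nat.log 2 d0) (Nat.log 2 e1) : ℕ) : ℝ) + 1) *
          cw ρ w (s - Nat.log 2 d0) (t - Nat.log 2 e1) (Nat.log 2 d0) (Nat.log 2 e1)))) := by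
  obtain ⟨hd1, hd2⟩ := mem_Icc.1 hd
  obtain ⟨he1, he2⟩ := mem_Icc.1 he
  let α : ℕ → ℝ := fun e0 => if θ ≤ e0 then B (e0 * e1) * g e0 else 0
  let β : ℕ → ℝ := fun d1 => if θ ≤ d1 then
    A (d0 * d1) * g d1 * (J (μ * e1) d1 * J (κ * ((d0 * d1 : ℕ) : ℤ)) e1) else 0
  have hα : ∀ m, α m ≠ 0 → θ ≤ m ∧ B (m * e1) ≠ 0 := by
    intro m h
    by_cases h1 : θ ≤ m
    · exact ⟨h1, fun h0 => h (by simp [α, h0])⟩
    · exact absurd (if_neg h1) h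
  have hβ : ∀ n, β n ≠ 0 → θ ≤ n ∧ A (d0 * n) ≠ 0 := by
    intro n h
    by_cases h1 : θ ≤ n
    · exact ⟨h1, fun h0 => h (by simp [β, h0])⟩
    · exact absurd (if_neg h1) h
  have hα' : ∀ m, α m ≠ 0 → m ≤ 2 ^ (t - Nat.log 2 e1) := fun m h =>
    le_pow_sub (by omega) he2 (mul_comm m e1 ▸ (hB.2 _ (hα m h).2).2.2)
  have hβ' : ∀ n, β n ≠ 0 → n ≤ 2 ^ (s - Nat.log 2 d0) := fun n h =>
    le_pow_sub (by omega) hd2 (hA.2 _ (hβ n h).2).2.2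
  have key : ∀ e0 d1, (if θ ≤ d1 ∧ θ ≤ e0 then tm κ μ A B d0 d1 e0 e1 else 0) =
      g d0 * (g e1 * (α e0 * β d1 * J e0 d1)) := by
    intro e0 d1
    by_cases h1 : θ ≤ d1
    · by_cases h3 : θ ≤ e0
      · simp only [α, β, h1, h3, and_self, if_true, tm]
        by_cases h4 : A (d0 * d1) = 0
        · simp [h4]
        by_cases h5 : B (e0 * e1) = 0
        · simp [h5]
        have h6 : μ * ((e0 * e1 : ℕ) : ℤ) = μ * e1 * e0 := by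
          push_cast
          ring
        rw [g_mul (hA.2 _ h4).1.coprime, g_mul (hB.2 _ h5).1.coprime, h6, J_mul_left (μ * e1)]
        ring
      · simp [α, h3]
    · simp [β, h1]
  have hsum : ∑ e0 ∈ Icc 1 (2 ^ t), ∑ d1 ∈ Icc 1 (2 ^ s), α e0 * β d1 * J e0 d1 =
      ∑ e0 ∈ Icc 1 (2 ^ (t - Nat.log 2 e1)), ∑ d1 ∈ Icc 1 (2 ^ (s - Nat.log 2 d0)),
        α e0 * β d1 * J e0 d1 := by
    symm
    refine sum_subset_zero_on_sdiff
      (Icc_subset_Icc_right (Nat.pow_le_pow_right (by norm_num) (Nat.sub_le _ _)))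
      (fun m hm' => ?_) fun m _ => sum_subset
        (Icc_subset_Icc_right (Nat.pow_le_pow_right (by norm_num) (Nat.sub_le _ _)))
        fun n hn hn' => ?_
    · have h0 : α m = 0 := by
        by_contra h0
        exact (mem_sdiff.1 hm').2 (mem_Icc.2 ⟨(mem_Icc.1 (mem_sdiff.1 hm').1).1, hα' m h0⟩)
      simp [h0]
    · have h0 : β n = 0 := by
        by_contra h0
        exact hn' (mem_Icc.2 ⟨(mem_Icc.1 hn).1, hβ' n h0⟩)
      simp [h0]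
  simp only [key, ← mul_sum]
  rw [abs_mul, abs_mul, abs_of_pos (g_pos _), abs_of_pos (g_pos _), hsum]
  refine mul_le_mul_of_nonneg_left (mul_le_mul_of_nonneg_left ?_ (g_pos _).le) (g_pos _).le
  unfold cw
  split_ifs with hc
  · refine (hbil _ _ α β (fun m => ?_) (fun m h => ?_) (fun n => ?_) fun n h => ?_).trans
      (le_of_eq ?_)
    · simp only [α]
      split_ifs
      · rw [abs_mul, abs_of_pos (g_pos _)]
        exact mul_le_of_le_one_left (g_pos _).le (hB.1 _)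
      · simpa using (g_pos m).le
    · exact (hB.2 _ (hα m h).2).1.of_dvd (Dvd.intro _ rfl)
    · simp only [β]
      split_ifs
      · rw [abs_mul, abs_mul, abs_mul, abs_of_pos (g_pos _)]
        refine (mul_le_of_le_one_right (mul_nonneg (abs_nonneg _) (g_pos _).le)
          (mul_le_one₀ (abs_J_le _ _) (abs_nonneg _) (abs_J_le _ _))).trans ?_
        exact mul_le_of_le_one_left (g_pos _).le (hA.1 _)
      · simpa using (g_pos n).le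
    · exact (hA.2 _ (hβ n h).2).1.of_dvd (Dvd.intro_left _ rfl)
    · rw [add_comm (t - _), min_comm (t - _), max_comm (t - _)]
      have h3 : √(((max (Nat.log 2 d0) (Nat.log 2 e1) : ℕ) : ℝ) + 1) ≠ 0 := by positivity
      field_simp
  · rw [sum_eq_zero, abs_zero, mul_zero, mul_zero]
    intro m _
    refine sum_eq_zero fun n _ => ?_
    by_contra h0
    have h3 : α m ≠ 0 := fun h => h0 (by simp [h])
    have h4 : β n ≠ 0 := fun h => h0 (by simp [h])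
    obtain ⟨a1, a2⟩ := hα m h3
    obtain ⟨b1, b2⟩ := hβ n h4
    have a3 := (hB.2 _ a2).2.1.lt (hB.2 _ a2).1.ne_zero (Dvd.intro _ rfl) (h2.trans a1)
    have b3 := (hA.2 _ b2).2.1.lt (hA.2 _ b2).1.ne_zero (Dvd.intro_left _ rfl) (h2.trans b1)
    have a4 := hα' m h3
    have b4 := hβ' n h4
    have c1 : 2 ^ min (Nat.log 2 d0) (Nat.log 2 e1) ≤ θ := by
      refine le_trans (le_min ?_ ?_) hm
      · exact (Nat.pow_le_pow_right (by norm_num) (min_le_left _ _)).trans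
          (Nat.pow_log_le_self 2 (by omega))
      · exact (Nat.pow_le_pow_right (by norm_num) (min_le_right _ _)).trans
          (Nat.pow_log_le_self 2 (by omega))
    have p2 : ∀ {x y : ℕ}, 2 ^ x ≤ 2 ^ y → x ≤ y := fun h =>
      (Nat.pow_le_pow_iff_right (by norm_num)).1 h
    exact hc ⟨le_min (p2 (b3.le.trans b4)) (p2 (a3.le.trans a4)),
      le_min (p2 (c1.trans (b1.trans b4))) (p2 (c1.trans (a1.trans a4)))⟩

lemma sqrt_max (i k : ℕ) : √(((max i k : ℕ) : ℝ) + 1) ≤ √((i : ℝ) + 1) * √((k : ℝ) + 1) := by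
  rw [← Real.sqrt_mul (by positivity)]
  refine Real.sqrt_le_sqrt ?_
  have h1 : (0 : ℝ) ≤ i := i.cast_nonneg
  have h2 : (0 : ℝ) ≤ k := k.cast_nonneg
  rcases max_choice i k with h | h <;> rw [h] <;> nlinarith [mul_nonneg h1 h2]

lemma abs_tm (κ μ : ℤ) {A B : ℕ → ℝ} (hA : ∀ d, 0 ≤ A d) (hB : ∀ e, 0 ≤ B e) (d0 d1 e0 e1 : ℕ) :
    tm κ μ A B d0 d1 e0 e1 ≤ A (d0 * d1) * B (e0 * e1) * (g (d0 * d1) * g (e0 * e1)) := by
  unfold tm
  rw [mul_assoc _ (J _ _), mul_assoc (A _ * B _) (g _)]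
  refine mul_le_of_le_one_right
    (mul_nonneg (mul_nonneg (hA _) (hB _)) (mul_pos (g_pos _) (g_pos _)).le) ?_
  refine (le_abs_self _).trans ?_
  rw [abs_mul]
  exact mul_le_one₀ (abs_J_le _ _) (abs_nonneg _) (abs_J_le _ _)

lemma split (κ μ : ℤ) {A B : ℕ → ℝ} (hA : ∀ d, 0 ≤ A d) (hB : ∀ e, 0 ≤ B e) (hA1 : A 1 = 0)
    (hB1 : B 1 = 0) {d0 d1 e0 e1 : ℕ} (h1 : 1 ≤ d0) (h2 : 1 ≤ d1) (h3 : 1 ≤ e0) (h4 : 1 ≤ e1) :
    tm κ μ A B d0 d1 e0 e1 ≤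
      (if max 2 (min d0 e1) ≤ d1 ∧ max 2 (min d0 e1) ≤ e0 then tm κ μ A B d0 d1 e0 e1 else 0) +
      (if max 2 (min e0 d1 + 1) ≤ e1 ∧ max 2 (min e0 d1 + 1) ≤ d0 then tm μ κ B A e0 e1 d0 d1
        else 0) +
      ((if d1 = 1 then (if e1 = 1 then A d0 * B e0 * (g d0 * g e0) else 0) else 0) +
      (if d0 = 1 then (if e0 = 1 then A d1 * B e1 * (g d1 * g e1) else 0) else 0)) := by
  have h0 : ∀ d e, 0 ≤ A d * B e * (g d * g e) := fun d e =>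
    mul_nonneg (mul_nonneg (hA _) (hB _)) (mul_pos (g_pos _) (g_pos _)).le
  have n1 : 0 ≤ if d1 = 1 then (if e1 = 1 then A d0 * B e0 * (g d0 * g e0) else 0) else 0 := by
    split_ifs
    exacts [h0 _ _, le_rfl, le_rfl]
  have n2 : 0 ≤ if d0 = 1 then (if e0 = 1 then A d1 * B e1 * (g d1 * g e1) else 0) else 0 := by
    split_ifs
    exacts [h0 _ _, le_rfl, le_rfl]
  rw [← tm_swap κ μ A B d0 d1 e0 e1]
  by_cases r1 : max 2 (min d0 e1) ≤ d1 ∧ max 2 (min d0 e1) ≤ e0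
  · rw [if_pos r1, if_neg (show ¬(max 2 (min e0 d1 + 1) ≤ e1 ∧ max 2 (min e0 d1 + 1) ≤ d0) by
      omega)]
    linarith
  rw [if_neg r1]
  by_cases r2 : max 2 (min e0 d1 + 1) ≤ e1 ∧ max 2 (min e0 d1 + 1) ≤ d0
  · rw [if_pos r2]
    linarith
  rw [if_neg r2]
  have hb := abs_tm κ μ hA hB d0 d1 e0 e1
  have hc : (d1 = 1 ∧ e1 = 1) ∨ (d0 = 1 ∧ e0 = 1) ∨ (d0 = 1 ∧ d1 = 1) ∨ (e0 = 1 ∧ e1 = 1) := by
    omega
  rcases hc with ⟨rfl, rfl⟩ | ⟨rfl, rfl⟩ | ⟨rfl, rfl⟩ | ⟨rfl, rfl⟩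
  · rw [mul_one, mul_one] at hb
    rw [if_pos rfl, if_pos rfl]
    linarith
  · rw [one_mul, one_mul] at hb
    rw [if_pos (rfl : 1 = 1), if_pos (rfl : 1 = 1)]
    linarith
  · rw [mul_one, hA1, zero_mul, zero_mul] at hb
    linarith
  · rw [mul_one, hB1, mul_zero, zero_mul] at hb
    linarith

lemma Fq_eq (x : ℤ) {d : ℕ} (hd : Squarefree d) :
    Fq x d = ∏ p ∈ d.primeFactors, (1 / 2 * (1 + J x p)) := by
  let f : ArithmeticFunction ℝ := ⟨fun n => if n = 0 then 0 else J x n, if_pos rfl⟩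
  have hf : ∀ n, n ≠ 0 → f n = J x n := fun n hn => if_neg hn
  have hm : f.IsMultiplicative := by
    rw [ArithmeticFunction.IsMultiplicative.iff_ne_zero]
    refine ⟨by rw [hf 1 one_ne_zero, J_one_right], fun {m n} h1 h2 _ => ?_⟩
    rw [hf _ (mul_ne_zero h1 h2), hf _ h1, hf _ h2, J_mul_right x h1 h2]
  have h1 := hm.prodPrimeFactors_one_add_of_squarefree hd
  rw [prod_congr rfl fun p hp => by rw [hf p (Nat.prime_of_mem_primeFactors hp).ne_zero],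
    sum_congr rfl fun n hn => hf n (Nat.pos_of_mem_divisors hn).ne'] at h1
  rw [prod_mul_distrib, prod_const, h1]
  rfl

end LinkAux

open LinkAux

theorem link : ∃ C ρ : ℝ, 0 < C ∧ 0 < ρ ∧ ρ < 1 ∧ ∀ (w s t : ℕ) (κ μ : ℤ) (A B : ℕ → ℝ)
    (θ : ℕ → ℕ → ℕ), Wt w s A → Wt w t B → (∀ x y, 2 ≤ θ x y ∧ min x y ≤ θ x y) →
    |∑ d0 ∈ Icc 1 (2 ^ s), ∑ e1 ∈ Icc 1 (2 ^ t), ∑ e0 ∈ Icc 1 (2 ^ t), ∑ d1 ∈ Icc 1 (2 ^ s),
      (if θ d0 e1 ≤ d1 ∧ θ d0 e1 ≤ e0 then tm κ μ A B d0 d1 e0 e1 else 0)| ≤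
      C * 2 ^ (s + t) * ∑ i ∈ range (s + 1), ∑ k ∈ range (t + 1), cw ρ w (s - i) (t - k) i k := by
  obtain ⟨C, ρ, hC, h0, h1, hbil⟩ := bil
  refine ⟨256 * C, ρ, by positivity, h0, h1, fun w s t κ μ A B θ hA hB hθ => ?_⟩
  let F : ℕ → ℕ → ℝ := fun i k => C * 2 ^ (s - i + (t - k)) *
    (√(((max i k : ℕ) : ℝ) + 1) * cw ρ w (s - i) (t - k) i k)
  have hF : ∀ i k, 0 ≤ F i k := fun i k =>
    mul_nonneg (by positivity) (mul_nonneg (Real.sqrt_nonneg _) (cw_nonneg h0.le _ _ _ _ _))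
  calc _ ≤ ∑ d0 ∈ Icc 1 (2 ^ s), g d0 * ∑ e1 ∈ Icc 1 (2 ^ t),
        g e1 * F (Nat.log 2 d0) (Nat.log 2 e1) := by
        refine (abs_sum_le_sum_abs _ _).trans (sum_le_sum fun d0 hd => ?_)
        rw [mul_sum]
        exact (abs_sum_le_sum_abs _ _).trans (sum_le_sum fun e1 he =>
          inner hbil κ μ hA hB hd he (hθ _ _).1 (hθ _ _).2)
    _ ≤ ∑ i ∈ range (s + 1), 16 * 2 ^ i / √((i : ℝ) + 1) * ∑ e1 ∈ Icc 1 (2 ^ t),
        g e1 * F i (Nat.log 2 e1) :=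
        grp s (fun i => ∑ e1 ∈ Icc 1 (2 ^ t), g e1 * F i (Nat.log 2 e1)) fun i =>
          sum_nonneg fun e _ => mul_nonneg (g_pos e).le (hF _ _)
    _ ≤ _ := by
        rw [mul_sum]
        refine sum_le_sum fun i hi => ?_
        refine (mul_le_mul_of_nonneg_left (grp t (F i) (hF i)) (by positivity)).trans ?_
        rw [mul_sum, mul_sum]
        refine sum_le_sum fun k hk => ?_
        have e1 : (2 : ℝ) ^ (s + t) = 2 ^ i * 2 ^ k * 2 ^ (s - i + (t - k)) := by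
          rw [← pow_add, ← pow_add]
          congr 1
          have := mem_range.1 hi
          have := mem_range.1 hk
          omega
        have e2 : √(((max i k : ℕ) : ℝ) + 1) / (√((i : ℝ) + 1) * √((k : ℝ) + 1)) ≤ 1 :=
          (div_le_one (by positivity)).2 (sqrt_max i k)
        have e3 := cw_nonneg h0.le w (s - i) (t - k) i k
        calc _ = 256 * C * 2 ^ (s + t) * cw ρ w (s - i) (t - k) i k *
              (√(((max i k : ℕ) : ℝ) + 1) / (√((i : ℝ) + 1) * √((k : ℝ) + 1))) := by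
              rw [e1]
              simp only [F]
              ring
          _ ≤ _ := mul_le_of_le_one_right (by positivity) e2

theorem box : ∃ C ρ : ℝ, 0 < C ∧ 0 < ρ ∧ ρ < 1 ∧ ∀ (w s t : ℕ) (κ μ : ℤ) (A B : ℕ → ℝ),
    Wt w s A → Wt w t B → (∀ d, 0 ≤ A d) → (∀ e, 0 ≤ B e) → A 1 = 0 → B 1 = 0 →
    ∑ d ∈ Icc 1 (2 ^ s), ∑ e ∈ Icc 1 (2 ^ t), A d * B e * Fq (μ * e) d * Fq (κ * d) e ≤
      C * 2 ^ (s + t) * ∑ i ∈ range (s + 1), ∑ k ∈ range (t + 1), cw ρ w (s - i) (t - k) i k +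
      2 * ∑ d ∈ Icc 1 (2 ^ s), ∑ e ∈ Icc 1 (2 ^ t), A d * B e * (g d * g e) := by
  obtain ⟨C, ρ, hC, h0, h1, hl⟩ := link
  refine ⟨2 * C, ρ, by positivity, h0, h1, fun w s t κ μ A B hA hB hA0 hB0 hA1 hB1 => ?_⟩
  have zA : ∀ d, 2 ^ s < d → A d = 0 := fun d h => by
    by_contra h'
    exact absurd (hA.2 d h').2.2 (not_le.2 h)
  have zB : ∀ e, 2 ^ t < e → B e = 0 := fun e h => by
    by_contra h'
    exact absurd (hB.2 e h').2.2 (not_le.2 h)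
  have e1 : ∑ d ∈ Icc 1 (2 ^ s), ∑ e ∈ Icc 1 (2 ^ t), A d * B e * Fq (μ * e) d * Fq (κ * d) e =
      ∑ d0 ∈ Icc 1 (2 ^ s), ∑ d1 ∈ Icc 1 (2 ^ s), ∑ e0 ∈ Icc 1 (2 ^ t), ∑ e1 ∈ Icc 1 (2 ^ t),
        tm κ μ A B d0 d1 e0 e1 := by
    calc _ = ∑ d ∈ Icc 1 (2 ^ s), ∑ d1 ∈ d.divisors, ∑ e ∈ Icc 1 (2 ^ t), ∑ e1 ∈ e.divisors,
          A d * B e * g d * g e * J (μ * e) d1 * J (κ * d) e1 := by
          refine sum_congr rfl fun d _ => ?_
          rw [sum_comm]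
          refine sum_congr rfl fun e _ => ?_
          simp only [← mul_sum, ← sum_mul, Fq]
          ring
      _ = _ := by
          rw [hyp (2 ^ s) (fun d d1 => ∑ e ∈ Icc 1 (2 ^ t), ∑ e1 ∈ e.divisors,
            A d * B e * g d * g e * J (μ * e) d1 * J (κ * d) e1) fun d d1 h => by simp [zA d h]]
          refine sum_congr rfl fun d0 _ => sum_congr rfl fun d1 _ => ?_
          exact hyp (2 ^ t) (fun e e1 => A (d0 * d1) * B e * g (d0 * d1) * g e * J (μ * e) d1 *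
            J (κ * ((d0 * d1 : ℕ) : ℤ)) e1) fun e e1 h => by simp [zB e h]
  have l1 := (le_abs_self _).trans (hl w s t κ μ A B (fun x y => max 2 (min x y)) hA hB
    fun x y => ⟨le_max_left _ _, le_max_right _ _⟩)
  have l2 := (le_abs_self _).trans (hl w t s μ κ B A (fun x y => max 2 (min x y + 1)) hB hA
    fun x y => ⟨le_max_left _ _, (Nat.le_succ _).trans (le_max_right _ _)⟩)
  rw [sum_congr rfl fun d0 _ => rev3 _ _ _ _] at l1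
  rw [rev3, add_comm t s, sum_comm (s := range (t + 1))] at l2
  simp only [fun i k => cw_swap ρ w (t - i) (s - k) i k] at l2
  have hs : 1 ∈ Icc 1 (2 ^ s) := mem_Icc.2 ⟨le_rfl, Nat.one_le_two_pow⟩
  have ht : 1 ∈ Icc 1 (2 ^ t) := mem_Icc.2 ⟨le_rfl, Nat.one_le_two_pow⟩
  rw [e1]
  refine (sum_le_sum fun d0 a1 => sum_le_sum fun d1 a2 => sum_le_sum fun e0 a3 =>
    sum_le_sum fun e1 a4 => split κ μ hA0 hB0 hA1 hB1 (mem_Icc.1 a1).1 (mem_Icc.1 a2).1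
      (mem_Icc.1 a3).1 (mem_Icc.1 a4).1).trans ?_
  simp only [sum_add_distrib, sum_ite_irrel, sum_const_zero, sum_ite_eq', hs, ht, if_true]
  linarith

theorem Fq_nonneg (x : ℤ) {d : ℕ} (hd : Squarefree d) : 0 ≤ Fq x d := by
  rw [Fq_eq x hd]
  refine prod_nonneg fun p _ => ?_
  have := (abs_le.1 (abs_J_le x p)).1
  linarith

theorem Fq_eq_one {x : ℤ} {d : ℕ} (hd : Squarefree d)
    (h : ∀ p ∈ d.primeFactors, jacobiSym x p = 1) : Fq x d = 1 := by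
  rw [Fq_eq x hd]
  refine prod_eq_one fun p hp => ?_
  rw [J, h p hp]
  norm_num

end Pool.Agent.Lib.MP_90cf6f_nt.Den
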