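import Pool.Agent.Lib.MP_90cf6f_nt.Den.Jac

/-!
A Selberg majorant for `g`.
-/

namespace Pool.Agent.Lib.MP_90cf6f_nt.Den

open Finset

namespace SieveAux

/-- The primes up to `R`. -/
def PP (R : ℕ) : Finset ℕ := (Icc 1 R).filter Nat.Prime

/-- The sets of primes with product at most `R`. -/
def LL (R : ℕ) : Finset (Finset ℕ) := (PP R).powerset.filter fun T => ∏ p ∈ T, p ≤ R

noncomputable def hh (T : Finset ℕ) : ℝ := ∏ p ∈ T, 1 / (2 * (p : ℝ) - 1)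

noncomputable def ep (T : Finset ℕ) (p : ℕ) : ℝ := if p ∈ T then -(2 * (p : ℝ) - 1) else 1

noncomputable def aa (x : Finset ℕ × Finset ℕ) (p : ℕ) : ℝ := (ep x.1 p * ep x.2 p - 1) / 2

noncomputable def GG (R : ℕ) : ℝ := ∑ T ∈ LL R, hh T

noncomputable def ww (R : ℕ) (x : Finset ℕ × Finset ℕ) : ℝ := hh x.1 / GG R * (hh x.2 / GG R)

noncomputable def nu (R m : ℕ) : ℝ :=
  ∑ x ∈ LL R ×ˢ LL R, ww R x * ∏ p ∈ m.primeFactors, (1 + aa x p)

lemma two_le {R p : ℕ} (h : p ∈ PP R) : (2 : ℝ) ≤ p := by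
  exact_mod_cast (mem_filter.1 h).2.two_le

lemma sub_PP {R : ℕ} {T : Finset ℕ} (h : T ∈ LL R) : T ⊆ PP R := mem_powerset.1 (mem_filter.1 h).1

lemma hh_pos {R : ℕ} {T : Finset ℕ} (h : T ⊆ PP R) : 0 < hh T :=
  prod_pos fun p hp => by have := two_le (h hp); exact one_div_pos.2 (by linarith)

lemma GG_pos {R : ℕ} (hR : 1 ≤ R) : 0 < GG R :=
  sum_pos (fun _ h => hh_pos (sub_PP h)) ⟨∅, by simp [LL, hR]⟩

lemma sum_hh {R : ℕ} (hR : 1 ≤ R) : ∑ T ∈ LL R, hh T / GG R = 1 := by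
  rw [← sum_div]
  exact div_self (GG_pos hR).ne'

lemma ww_nonneg {R : ℕ} (hR : 1 ≤ R) {x : Finset ℕ × Finset ℕ} (hx : x ∈ LL R ×ˢ LL R) :
    0 ≤ ww R x := by
  have h1 := hh_pos (sub_PP (mem_product.1 hx).1)
  have h2 := hh_pos (sub_PP (mem_product.1 hx).2)
  have h3 := GG_pos hR
  unfold ww
  positivity

lemma nu_ge {R : ℕ} (hR : 1 ≤ R) (m : ℕ) : g m ≤ nu R m := by
  have e1 : ∀ x : Finset ℕ × Finset ℕ, ∏ p ∈ m.primeFactors, (1 + aa x p) =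
      g m * ∑ A ∈ m.primeFactors.powerset, (∏ p ∈ A, ep x.1 p) * ∏ p ∈ A, ep x.2 p := by
    intro x
    simp only [← prod_mul_distrib]
    rw [← prod_one_add, g, ← prod_const, ← prod_mul_distrib]
    exact prod_congr rfl fun p _ => by unfold aa; ring
  have e2 : nu R m = g m * ∑ A ∈ m.primeFactors.powerset,
      (∑ T ∈ LL R, hh T / GG R * ∏ p ∈ A, ep T p) ^ 2 := by
    simp only [nu, e1]
    rw [sum_congr rfl fun x _ => by rw [mul_sum, mul_sum], sum_comm, mul_sum]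
    refine sum_congr rfl fun A _ => ?_
    rw [sq, sum_mul_sum, ← sum_product', mul_sum]
    exact sum_congr rfl fun x _ => by unfold ww; ring
  rw [e2]
  refine le_mul_of_one_le_right (g_pos m).le (le_trans ?_
    (single_le_sum (fun A _ => sq_nonneg _) (empty_mem_powerset _)))
  simp [sum_hh hR]

lemma expand {R m : ℕ} (hm : m ≠ 0) {x : Finset ℕ × Finset ℕ} (hx : x ∈ LL R ×ˢ LL R) :
    ∏ p ∈ m.primeFactors, (1 + aa x p) =
      ∑ U ∈ (PP R).powerset, (∏ p ∈ U, aa x p) * if ∏ p ∈ U, p ∣ m then 1 else 0 := by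
  have e1 : ∏ p ∈ m.primeFactors ∩ PP R, (1 + aa x p) = ∏ p ∈ m.primeFactors, (1 + aa x p) :=
    prod_subset inter_subset_left fun p hp hn => by
      have h : p ∉ PP R := fun h => hn (mem_inter.2 ⟨hp, h⟩)
      have h1 : p ∉ x.1 := fun e => h (sub_PP (mem_product.1 hx).1 e)
      have h2 : p ∉ x.2 := fun e => h (sub_PP (mem_product.1 hx).2 e)
      simp [aa, ep, h1, h2]
  have e2 : ∏ p ∈ m.primeFactors ∩ PP R, (1 + aa x p * if p ∣ m then 1 else 0) =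
      ∏ p ∈ PP R, (1 + aa x p * if p ∣ m then 1 else 0) :=
    prod_subset inter_subset_right fun p hp hn => by
      have h : ¬ p ∣ m := fun h =>
        hn (mem_inter.2 ⟨Nat.mem_primeFactors.2 ⟨(mem_filter.1 hp).2, h, hm⟩, hp⟩)
      simp [h]
  rw [← e1, prod_congr rfl fun p hp => show 1 + aa x p = 1 + aa x p * if p ∣ m then 1 else 0 by
    rw [if_pos (Nat.dvd_of_mem_primeFactors (mem_inter.1 hp).1), mul_one], e2, prod_one_add]
  refine sum_congr rfl fun U hU => ?_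
  rw [prod_mul_distrib]
  congr 1
  split_ifs with h
  · exact prod_eq_one fun p hp => if_pos ((dvd_prod_of_mem _ hp).trans h)
  · by_contra hc
    refine h (Finset.prod_primes_dvd m (fun p hp =>
      (mem_filter.1 (mem_powerset.1 hU hp)).2.prime) fun p hp => ?_)
    by_contra hd
    exact hc (prod_eq_zero hp (if_neg hd))

lemma prod_PP {R : ℕ} {T : Finset ℕ} (h : T ⊆ PP R) (f : ℕ → ℝ) :
    ∏ p ∈ PP R, (if p ∈ T then f p else 1) = ∏ p ∈ T, f p := by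
  rw [prod_ite_mem, inter_eq_right.2 h]

lemma sum_abs {R : ℕ} {x : Finset ℕ × Finset ℕ} (hx : x ∈ LL R ×ˢ LL R) :
    ∑ U ∈ (PP R).powerset, |∏ p ∈ U, aa x p| ≤ (R : ℝ) ^ 6 := by
  obtain ⟨h1, h2⟩ := mem_product.1 hx
  have k : ∀ T ∈ LL R, ∏ p ∈ PP R, (if p ∈ T then (p : ℝ) ^ 3 else 1) ≤ (R : ℝ) ^ 3 := by
    intro T hT
    rw [prod_PP (sub_PP hT), prod_pow, ← Nat.cast_prod]
    exact pow_le_pow_left₀ (Nat.cast_nonneg _) (Nat.cast_le.2 (mem_filter.1 hT).2) 3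
  have k0 : ∀ T : Finset ℕ, 0 ≤ ∏ p ∈ PP R, (if p ∈ T then (p : ℝ) ^ 3 else 1) := fun T =>
    prod_nonneg fun p _ => by split_ifs <;> positivity
  simp only [abs_prod]
  rw [← prod_one_add, show (R : ℝ) ^ 6 = R ^ 3 * R ^ 3 by ring]
  refine le_trans ?_ (mul_le_mul (k _ h1) (k _ h2) (k0 _) (by positivity))
  rw [← prod_mul_distrib]
  refine prod_le_prod (fun p _ => by positivity) fun p hp => ?_
  have hp2 := two_le hp
  have h3 : 4 * (p : ℝ) ≤ (p : ℝ) ^ 3 := by nlinarith [mul_nonneg (sub_nonneg.2 hp2) (sq_nonneg (p : ℝ))]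
  unfold aa ep
  split_ifs
  · rw [abs_of_nonneg (by nlinarith)]
    nlinarith [mul_le_mul h3 h3 (by positivity) (by positivity)]
  · rw [abs_of_nonpos (by linarith)]
    linarith
  · rw [abs_of_nonpos (by linarith)]
    linarith
  · simp

lemma sum_main {R : ℕ} {x : Finset ℕ × Finset ℕ} (hx : x ∈ LL R ×ˢ LL R) :
    ∑ U ∈ (PP R).powerset, (∏ p ∈ U, aa x p) / ((∏ p ∈ U, p : ℕ) : ℝ) =
      if x.1 = x.2 then 1 / hh x.1 else 0 := by
  obtain ⟨h1, h2⟩ := mem_product.1 hx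
  simp only [Nat.cast_prod, ← prod_div_distrib]
  rw [← prod_one_add]
  split_ifs with h
  · rw [hh, one_div, ← prod_inv_distrib, ← prod_PP (sub_PP h1)]
    refine prod_congr rfl fun p hp => ?_
    have hp2 := two_le hp
    unfold aa ep
    rw [← h]
    split_ifs
    · rw [one_div, inv_inv]
      field_simp
      ring
    · simp
  · obtain ⟨p, hp⟩ := not_forall.1 (mt Finset.ext h)
    by_cases c1 : p ∈ x.1
    · have c2 : p ∉ x.2 := fun e => hp (iff_of_true c1 e)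
      have hp2 := two_le (sub_PP h1 c1)
      refine prod_eq_zero (sub_PP h1 c1) ?_
      simp only [aa, ep, if_pos c1, if_neg c2]
      field_simp
      ring
    · have c2 : p ∈ x.2 := by_contra fun e => hp (iff_of_false c1 e)
      have hp2 := two_le (sub_PP h2 c2)
      refine prod_eq_zero (sub_PP h2 c2) ?_
      simp only [aa, ep, if_pos c2, if_neg c1]
      field_simp
      ring

/-- The majorant as a short combination of indicator functions of multiples. -/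
lemma rep {R : ℕ} (hR : 1 ≤ R) : ∃ (S : Finset ((Finset ℕ × Finset ℕ) × Finset ℕ))
    (lam : _ → ℝ) (r : _ → ℕ), (∀ u ∈ S, 0 < r u) ∧
      (∀ m ≠ 0, nu R m = ∑ u ∈ S, lam u * if r u ∣ m then 1 else 0) ∧
      ∑ u ∈ S, |lam u| ≤ (R : ℝ) ^ 6 ∧ ∑ u ∈ S, lam u / r u = 1 / GG R := by
  refine ⟨(LL R ×ˢ LL R) ×ˢ (PP R).powerset, fun u => ww R u.1 * ∏ p ∈ u.2, aa u.1 p,
    fun u => ∏ p ∈ u.2, p, fun u hu => prod_pos fun p hp =>
      (mem_filter.1 (mem_powerset.1 (mem_product.1 hu).2 hp)).2.pos, fun m hm => ?_, ?_, ?_⟩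
  · rw [sum_product, nu]
    refine sum_congr rfl fun x hx => ?_
    rw [expand hm hx, mul_sum]
    exact sum_congr rfl fun U _ => (mul_assoc _ _ _).symm
  · have e : ∑ x ∈ LL R ×ˢ LL R, ww R x = 1 := by
      simp only [ww, sum_product, ← mul_sum, sum_hh hR, mul_one]
    rw [sum_product, ← one_mul ((R : ℝ) ^ 6), ← e, sum_mul]
    refine sum_le_sum fun x hx => ?_
    simp only [abs_mul, abs_of_nonneg (ww_nonneg hR hx), ← mul_sum]
    exact mul_le_mul_of_nonneg_left (sum_abs hx) (ww_nonneg hR hx)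
  · rw [sum_product, sum_congr rfl fun x hx => show ∑ U ∈ (PP R).powerset,
      (ww R x * ∏ p ∈ U, aa x p) / ((∏ p ∈ U, p : ℕ) : ℝ) =
        ww R x * if x.1 = x.2 then 1 / hh x.1 else 0 by
          simp only [mul_div_assoc, ← mul_sum, sum_main hx], sum_product,
      show 1 / GG R = ∑ T ∈ LL R, hh T / GG R / GG R by rw [← sum_div, sum_hh hR]]
    refine sum_congr rfl fun T hT => ?_
    have := (hh_pos (sub_PP hT)).ne'
    simp only [mul_ite, mul_zero, sum_ite_eq, if_pos hT, ww]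
    field_simp

lemma harm (k : ℕ) : ((k : ℝ) + 1) / 2 ≤ ∑ n ∈ Ioc (0 : ℕ) (2 ^ k), (n : ℝ)⁻¹ := by
  induction k with
  | zero => norm_num
  | succ k ih =>
    have h : 2 ^ k ≤ 2 ^ (k + 1) := Nat.pow_le_pow_right two_pos k.le_succ
    have h2 := card_nsmul_le_sum (Ioc (2 ^ k) (2 ^ (k + 1))) (fun n : ℕ => (n : ℝ)⁻¹)
      ((2 : ℝ) ^ (k + 1))⁻¹ fun n hn => inv_anti₀
        (Nat.cast_pos.2 ((Nat.zero_le _).trans_lt (mem_Ioc.1 hn).1))
        (by exact_mod_cast (mem_Ioc.1 hn).2)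
    rw [Nat.card_Ioc, show 2 ^ (k + 1) - 2 ^ k = 2 ^ k by omega, nsmul_eq_mul] at h2
    have h3 : ((2 ^ k : ℕ) : ℝ) * ((2 : ℝ) ^ (k + 1))⁻¹ = 1 / 2 := by
      push_cast
      field_simp
      ring
    rw [← sum_Ioc_consecutive _ (Nat.zero_le _) h]
    push_cast
    linarith

lemma harm_le {R : ℕ} (hR : 1 ≤ R) :
    ∑ n ∈ Ioc 0 R, (n : ℝ)⁻¹ ≤ 2 * ∑ T ∈ LL R, ((∏ p ∈ T, p : ℕ) : ℝ)⁻¹ := by
  have h1 : Ioc 0 R ⊆ (Ioc 0 R ×ˢ LL R).image fun x => x.1 ^ 2 * ∏ p ∈ x.2, p := by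
    intro n hn
    obtain ⟨h0, hn⟩ := mem_Ioc.1 hn
    obtain ⟨a, b, ha, hb, e, hs⟩ := Nat.sq_mul_squarefree_of_pos h0
    have haR : a ≤ R := (Nat.le_of_dvd h0 (Dvd.intro_left _ e)).trans hn
    have hbR : b ≤ R := (Nat.le_of_dvd h0 ((dvd_pow_self b two_ne_zero).trans (Dvd.intro _ e))).trans hn
    refine mem_image.2 ⟨(b, a.primeFactors), mem_product.2 ⟨mem_Ioc.2 ⟨hb, hbR⟩,
      mem_filter.2 ⟨mem_powerset.2 fun p hp => ?_, ?_⟩⟩, ?_⟩
    · have := Nat.prime_of_mem_primeFactors hp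
      exact mem_filter.2 ⟨mem_Icc.2 ⟨this.pos, (Nat.le_of_mem_primeFactors hp).trans haR⟩, this⟩
    · rwa [Nat.prod_primeFactors_of_squarefree hs]
    · rw [Nat.prod_primeFactors_of_squarefree hs, e]
  have h2 : ∑ j ∈ Ioc 0 R, ((j : ℝ) ^ 2)⁻¹ ≤ 2 := by
    have := sum_Ioc_inv_sq_le_sub (α := ℝ) one_ne_zero hR
    have h0 : (0 : ℝ) ≤ (R : ℝ)⁻¹ := by positivity
    rw [← sum_Ioc_consecutive _ zero_le_one hR]
    rw [show Ioc 0 1 = {1} from rfl, sum_singleton]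
    simp only [Nat.cast_one, inv_one, one_pow] at this ⊢
    linarith
  refine (sum_le_sum_of_subset_of_nonneg h1 fun _ _ _ => by positivity).trans
    ((sum_image_le_of_nonneg fun _ _ => by positivity).trans ?_)
  simp only [Nat.cast_mul, Nat.cast_pow, mul_inv, sum_product, ← mul_sum, ← sum_mul]
  exact mul_le_mul_of_nonneg_right h2 (sum_nonneg fun _ _ => by positivity)

lemma le_GG_sq (R : ℕ) : ∑ T ∈ LL R, ((∏ p ∈ T, p : ℕ) : ℝ)⁻¹ ≤ GG R ^ 2 := by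
  have hs : ∀ T ∈ LL R, ∀ A ⊆ T, A ∈ LL R := fun T hT A hA =>
    mem_filter.2 ⟨mem_powerset.2 (hA.trans (sub_PP hT)), le_trans (prod_le_prod_of_subset_of_one_le'
      hA fun p hp _ => (mem_filter.1 (sub_PP hT hp)).2.pos) (mem_filter.1 hT).2⟩
  have h1 : ∀ T ∈ LL R, ((∏ p ∈ T, p : ℕ) : ℝ)⁻¹ ≤ ∑ A ∈ T.powerset, hh A * hh (T \ A) := by
    intro T hT
    unfold hh
    rw [← prod_add, Nat.cast_prod, ← prod_inv_distrib]
    refine prod_le_prod (fun p _ => by positivity) fun p hp => ?_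
    have hp2 := two_le (sub_PP hT hp)
    rw [← add_div, inv_eq_one_div, div_le_div_iff₀ (by linarith) (by linarith)]
    linarith
  have h2 : Set.InjOn (fun x : (_ : Finset ℕ) × Finset ℕ => (x.2, x.1 \ x.2))
      ((LL R).sigma fun T => T.powerset : Finset ((_ : Finset ℕ) × Finset ℕ)) := by
    rintro ⟨T, A⟩ h ⟨T', A'⟩ h' e
    obtain ⟨rfl, e2⟩ := Prod.mk.inj e
    have a1 := union_sdiff_of_subset (mem_powerset.1 (mem_sigma.1 h).2)
    have a2 := union_sdiff_of_subset (mem_powerset.1 (mem_sigma.1 h').2)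
    dsimp only at a1 a2 e2
    rw [← a1, e2, a2]
  rw [sq, GG, sum_mul_sum, ← sum_product']
  refine (sum_le_sum h1).trans ?_
  rw [sum_sigma', ← sum_image (f := fun y : Finset ℕ × Finset ℕ => hh y.1 * hh y.2) h2]
  refine sum_le_sum_of_subset_of_nonneg (fun y hy => ?_) fun y hy _ =>
    (mul_pos (hh_pos (sub_PP (mem_product.1 hy).1)) (hh_pos (sub_PP (mem_product.1 hy).2))).le
  obtain ⟨x, hx, rfl⟩ := mem_image.1 hy
  obtain ⟨x1, x2⟩ := mem_sigma.1 hx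
  exact mem_product.2 ⟨hs _ x1 _ (mem_powerset.1 x2), hs _ x1 _ sdiff_subset⟩

lemma inv_GG (k : ℕ) : 1 / GG (2 ^ k) ≤ 2 / √((k : ℝ) + 1) := by
  have hR : 1 ≤ 2 ^ k := Nat.one_le_two_pow
  have h0 := GG_pos hR
  have h1 := harm k
  have h2 := harm_le hR
  have h3 := le_GG_sq (2 ^ k)
  rw [div_le_div_iff₀ h0 (by positivity), one_mul]
  exact Real.sqrt_le_iff.2 ⟨by positivity, by nlinarith⟩

lemma num (a : ℕ) : 2 * ((2 ^ a : ℕ) : ℝ) / √(((a / 12 : ℕ) : ℝ) + 1) + 64 ^ (a / 12) ≤ 8 * Gd a ∧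
    (64 : ℝ) ^ (a / 12) ≤ √2 ^ a := by
  have s1 : (1 : ℝ) ≤ √2 := Real.one_le_sqrt.2 one_le_two
  have s2 : √2 ^ 2 = 2 := Real.sq_sqrt two_pos.le
  have h1 : (64 : ℝ) ^ (a / 12) ≤ √2 ^ a := by
    rw [show (64 : ℝ) = √2 ^ 12 by rw [show 12 = 2 * 6 from rfl, pow_mul, s2]; norm_num, ← pow_mul]
    exact pow_le_pow_right₀ s1 (Nat.mul_div_le a 12)
  have e : (√2 ^ a) ^ 2 = 2 ^ a := by rw [← pow_mul, mul_comm, pow_mul, s2]
  have h2 : √((a : ℝ) + 1) ≤ √2 ^ a := Real.sqrt_le_iff.2 ⟨by positivity, by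
    rw [e]
    exact_mod_cast Nat.lt_two_pow_self⟩
  have h3 : √2 ^ a ≤ Gd a := by
    rw [Gd, le_div_iff₀ (by positivity), ← e, sq]
    exact mul_le_mul_of_nonneg_left h2 (by positivity)
  have h4 : 2 * √((a : ℝ) + 1) ≤ 7 * √(((a / 12 : ℕ) : ℝ) + 1) := by
    have q : (a : ℝ) + 1 ≤ 12 * (((a / 12 : ℕ) : ℝ) + 1) := by
      exact_mod_cast (show a + 1 ≤ 12 * (a / 12 + 1) by omega)
    refine abs_le_of_sq_le_sq' ?_ (by positivity) |>.2
    rw [mul_pow, mul_pow, Real.sq_sqrt (by positivity), Real.sq_sqrt (by positivity)]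
    have : (0 : ℝ) ≤ (a / 12 : ℕ) := by positivity
    linarith
  refine ⟨?_, h1⟩
  have h5 : 2 * ((2 ^ a : ℕ) : ℝ) / √(((a / 12 : ℕ) : ℝ) + 1) ≤ 7 * Gd a := by
    rw [Gd, ← mul_div_assoc, div_le_div_iff₀ (by positivity) (by positivity)]
    push_cast
    have : (0 : ℝ) < 2 ^ a := by positivity
    nlinarith
  linarith

end SieveAux

open SieveAux

theorem majorant (k : ℕ) : ∃ ν : ℕ → ℝ, (∀ m, g m ≤ ν m) ∧
    (∀ y : ℕ, ∑ m ∈ Icc 1 y, ν m ≤ 2 * (y : ℝ) / √((k : ℝ) + 1) + 64 ^ k) ∧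
    ∀ (y : ℕ) (Φ : ℕ → ℝ) (B : ℝ), (∀ r, 0 < r → |∑ m ∈ (Icc 1 y).filter (r ∣ ·), Φ m| ≤ B) →
      |∑ m ∈ Icc 1 y, ν m * Φ m| ≤ 64 ^ k * B := by
  have hR : 1 ≤ 2 ^ k := Nat.one_le_two_pow
  obtain ⟨S, lam, r, h0, h1, h2, h3⟩ := rep hR
  replace h2 : ∑ u ∈ S, |lam u| ≤ 64 ^ k := h2.trans_eq (by
    push_cast
    rw [← pow_mul, mul_comm, pow_mul]
    norm_num)
  have key : ∀ (y : ℕ) (Φ : ℕ → ℝ), ∑ m ∈ Icc 1 y, nu (2 ^ k) m * Φ m =
      ∑ u ∈ S, lam u * ∑ m ∈ (Icc 1 y).filter (r u ∣ ·), Φ m := by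
    intro y Φ
    rw [sum_congr rfl fun m hm => by rw [h1 m (Nat.one_le_iff_ne_zero.1 (mem_Icc.1 hm).1), sum_mul],
      sum_comm]
    refine sum_congr rfl fun u _ => ?_
    rw [sum_filter, mul_sum]
    exact sum_congr rfl fun m _ => by split_ifs <;> simp
  refine ⟨nu (2 ^ k), nu_ge hR, fun y => ?_, fun y Φ B hB => ?_⟩
  · have e := key y fun _ => 1
    simp only [mul_one, sum_const, nsmul_eq_mul] at e
    have h4 : (y : ℝ) * (1 / GG (2 ^ k)) ≤ 2 * (y : ℝ) / √((k : ℝ) + 1) :=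
      (mul_le_mul_of_nonneg_left (inv_GG k) (Nat.cast_nonneg y)).trans_eq (by ring)
    rw [e]
    refine le_trans ?_ (add_le_add h4 h2)
    rw [← h3, mul_sum, ← sum_add_distrib]
    refine sum_le_sum fun u hu => ?_
    have hr : (0 : ℝ) < r u := Nat.cast_pos.2 (h0 u hu)
    rw [show Icc 1 y = Ioc 0 y from rfl, Nat.Ioc_filter_dvd_card_eq_div]
    have a1 : ((y / r u : ℕ) : ℝ) ≤ y / r u := Nat.cast_div_le
    have a2 : (y : ℝ) / r u ≤ (y / r u : ℕ) + 1 := by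
      rw [div_le_iff₀ hr]
      exact_mod_cast (Nat.lt_mul_div_succ y (h0 u hu)).le.trans_eq (mul_comm _ _)
    have a3 : |((y / r u : ℕ) : ℝ) - y / r u| ≤ 1 := abs_le.2 ⟨by linarith, by linarith⟩
    have a4 := (le_abs_self (lam u * (((y / r u : ℕ) : ℝ) - y / r u))).trans
      ((abs_mul _ _).trans_le (mul_le_of_le_one_right (abs_nonneg _) a3))
    calc _ = y * (lam u / r u) + lam u * (((y / r u : ℕ) : ℝ) - y / r u) := by ring
      _ ≤ _ := by linarith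
  · have hB0 : 0 ≤ B := (abs_nonneg _).trans (hB 1 one_pos)
    rw [key]
    refine (abs_sum_le_sum_abs _ _).trans (le_trans ?_ (mul_le_mul_of_nonneg_right h2 hB0))
    rw [sum_mul]
    exact sum_le_sum fun u hu => (abs_mul _ _).trans_le
      (mul_le_mul_of_nonneg_left (hB _ (h0 u hu)) (abs_nonneg _))

theorem ls_g {ι : Type*} (I : Finset ι) (n : ι → ℕ) (c : ι → ℝ) {N : ℕ}
    (hn : ∀ i ∈ I, OS (n i) ∧ n i ≤ N) (hinj : Set.InjOn n I) (a : ℕ) :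
    ∑ m ∈ Icc 1 (2 ^ a), g m * (∑ i ∈ I, c i * J m (n i)) ^ 2 ≤
      8 * Gd a * ∑ i ∈ I, c i ^ 2 + √2 ^ a * (N : ℝ) ^ 2 * (∑ i ∈ I, |c i|) ^ 2 := by
  obtain ⟨ν, h1, h2, h3⟩ := majorant (a / 12)
  refine (sum_le_sum fun m _ => mul_le_mul_of_nonneg_right (h1 m) (sq_nonneg _)).trans
    ((ls_gen I n c hn hinj ν (fun m => (g_pos m).le.trans (h1 m)) (2 ^ a)
      ((h2 _).trans (num a).1) (by positivity) (h3 _)).trans ?_)
  have := (num a).2
  gcongr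

theorem sum_g (a : ℕ) : ∑ m ∈ Icc 1 (2 ^ a), g m ≤ 8 * Gd a := by
  obtain ⟨ν, h1, h2, -⟩ := majorant (a / 12)
  exact (sum_le_sum fun m _ => h1 m).trans ((h2 _).trans (num a).1)

end Pool.Agent.Lib.MP_90cf6f_nt.Den
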